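import Pool.Agent.Lib.MP_544a1b_al.P1

/-! Actions on cyclic subgroups. -/

set_option autoImplicit false

universe u

namespace Pool.Agent.Lib.MP_544a1b_al

open Subgroup
open scoped commutatorElement Pointwise

/-- A subgroup containing the primary components of an element contains the element. -/
theorem mem_of_primary {G : Type*} [Group G] (K : Subgroup G) (n : ℕ) :
    ∀ x : G, orderOf x = n → 0 < n →
      (∀ m : ℕ, (∃ p k : ℕ, p.Prime ∧ orderOf (x ^ m) = p ^ k) → x ^ m ∈ K) → x ∈ K := by
  induction n using Nat.strong_induction_on with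
  | _ n IH =>
  intro x hx hn hK
  by_cases h1 : n = 1
  · rw [h1, orderOf_eq_one_iff] at hx
    rw [hx]; exact K.one_mem
  · obtain ⟨p, hp, hpn⟩ := Nat.exists_prime_and_dvd h1
    set a := p ^ n.factorization p with ha
    set b := n / a with hb
    have hab : a * b = n := Nat.ordProj_mul_ordCompl_eq_self n p
    have hcop : Nat.Coprime a b := by
      rw [ha]
      exact Nat.Coprime.pow_left _ (Nat.coprime_ordCompl hp hn.ne')
    have ha1 : 1 < a := by
      rw [ha]
      apply Nat.one_lt_pow _ hp.one_lt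
      exact (hp.factorization_pos_of_dvd hn.ne' hpn).ne'
    have hb0 : 0 < b := by
      apply Nat.pos_of_ne_zero
      intro h0
      rw [h0, mul_zero] at hab
      omega
    have hbn : b < n := by
      rw [← hab]
      exact lt_mul_of_one_lt_left hb0 ha1
    have hob : orderOf (x ^ b) = a := by
      rw [orderOf_pow_of_dvd hb0.ne' (by rw [hx, ← hab]; exact dvd_mul_left b a), hx, ← hab,
        Nat.mul_div_cancel _ hb0]
    have hoa : orderOf (x ^ a) = b := by
      rw [orderOf_pow_of_dvd (by omega) (by rw [hx, ← hab]; exact dvd_mul_right a b), hx, ← hab,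
        Nat.mul_div_cancel_left _ (by omega)]
    have h2 : x ^ b ∈ K := hK b ⟨p, _, hp, hob⟩
    have h3 : x ^ a ∈ K := by
      apply IH b hbn (x ^ a) hoa hb0
      intro m hm
      rw [← pow_mul] at hm ⊢
      exact hK _ hm
    obtain ⟨u, v, huv⟩ := (Nat.isCoprime_iff_coprime.2 hcop)
    have h4 : x = (x ^ a) ^ u * (x ^ b) ^ v := by
      rw [← zpow_natCast x a, ← zpow_natCast x b, ← zpow_mul, ← zpow_mul, ← zpow_add]
      have : (a : ℤ) * u + (b : ℤ) * v = 1 := by rw [← huv]; ring
      rw [this, zpow_one]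
    rw [h4]
    exact K.mul_mem (K.zpow_mem h3 u) (K.zpow_mem h2 v)

theorem pow_conj_mem {G : Type*} [Group G] {s f : G} (h : s * f * s⁻¹ ∈ Subgroup.zpowers f)
    (n : ℕ) : s ^ n * f * (s ^ n)⁻¹ ∈ Subgroup.zpowers f := by
  induction n with
  | zero => simp
  | succ n ih =>
    have h1 : s ^ (n + 1) * f * (s ^ (n + 1))⁻¹ = s * (s ^ n * f * (s ^ n)⁻¹) * s⁻¹ := by
      rw [pow_succ']; group
    rw [h1]
    exact zpowers_conj_mem h ih

theorem conj_pow_mem {G : Type*} [Group G] {s f : G} (h : s * f * s⁻¹ ∈ Subgroup.zpowers f)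
    (n : ℕ) : s * f ^ n * s⁻¹ ∈ Subgroup.zpowers (f ^ n) := by
  obtain ⟨j, hj⟩ := h
  simp only at hj
  refine ⟨j, ?_⟩
  simp only
  rw [← conj_pow, ← hj, ← zpow_natCast, ← zpow_natCast, ← zpow_mul, ← zpow_mul, mul_comm]

theorem conj_zpow_mem {G : Type*} [Group G] {s f : G} (h : s * f * s⁻¹ ∈ Subgroup.zpowers f)
    (n : ℤ) : s * f ^ n * s⁻¹ ∈ Subgroup.zpowers (f ^ n) := by
  obtain ⟨j, hj⟩ := h
  simp only at hj
  refine ⟨j, ?_⟩
  simp only
  rw [← conj_zpow, ← hj, ← zpow_mul, ← zpow_mul, mul_comm]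

/-- Coprime action on a cyclic `p`-group. -/
theorem commute_of_commute_prime {G : Type*} [Group G] {p : ℕ} (hp : p.Prime) {s : G}
    (hs : Nat.Coprime p (orderOf s)) (k : ℕ) : ∀ f : G, orderOf f = p ^ k →
      s * f * s⁻¹ ∈ Subgroup.zpowers f → (∀ t ∈ Subgroup.zpowers f, t ^ p = 1 → Commute s t) →
      Commute s f := by
  induction k with
  | zero =>
    intro f hf _ _
    rw [pow_zero, orderOf_eq_one_iff] at hf
    rw [hf]; exact Commute.one_right s
  | succ k ih =>
    intro f hf hsf ht
    have h1 : orderOf (f ^ p) = p ^ k := by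
      rw [orderOf_pow_of_dvd hp.ne_zero (by rw [hf]; exact dvd_pow_self p (Nat.succ_ne_zero k)),
        hf, pow_succ, Nat.mul_div_cancel _ hp.pos]
    have h2 : Commute s (f ^ p) := by
      apply ih _ h1 (conj_pow_mem hsf p)
      intro t ht' htp
      apply ht t _ htp
      exact (Subgroup.zpowers_le.2 (Subgroup.pow_mem _ (Subgroup.mem_zpowers f) p)) ht'
    set u := ⁅s, f⁆ with hu
    have hu1 : u ∈ Subgroup.zpowers f := by
      rw [hu, commutatorElement_def]
      exact Subgroup.mul_mem _ hsf (Subgroup.inv_mem _ (Subgroup.mem_zpowers f))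
    have huf : Commute u f := by
      obtain ⟨j, hj⟩ := hu1
      simp only at hj
      rw [← hj]
      exact (Commute.refl f).zpow_left j
    have hup : u ^ p = 1 := by
      have h3 : s * f * s⁻¹ = u * f := by rw [hu, commutatorElement_def]; group
      have h4 : (s * f * s⁻¹) ^ p = f ^ p := by
        rw [conj_pow, h2.eq, mul_inv_cancel_right]
      rw [h3, huf.mul_pow] at h4
      exact mul_eq_right.1 h4
    have hsu : Commute s u := ht u hu1 hup
    have h3 := commutator_pow_left s f hsu.symm (orderOf s)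
    rw [pow_orderOf_eq_one, commutatorElement_one_left] at h3
    have h4 : orderOf u ∣ Nat.gcd p (orderOf s) :=
      Nat.dvd_gcd (orderOf_dvd_of_pow_eq_one hup) (orderOf_dvd_of_pow_eq_one h3.symm)
    rw [hs] at h4
    exact commutatorElement_eq_one_iff_commute.1 (orderOf_eq_one_iff.1 (Nat.dvd_one.1 h4))

/-- An element of order three is centralised by a normalising element of odd order. -/
theorem commute_three {G : Type*} [Group G] {s t : G} (hs : Odd (orderOf s)) (ht : t ^ 3 = 1)
    (hst : s * t * s⁻¹ ∈ Subgroup.zpowers t) : Commute s t := by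
  obtain ⟨j, hj⟩ := hst
  simp only at hj
  have ht3 : t ^ (3 : ℤ) = 1 := by exact_mod_cast ht
  have h1 : t ^ j = t ^ (j % 3) := by
    conv_lhs => rw [← Int.mul_ediv_add_emod j 3]
    rw [zpow_add, zpow_mul, ht3, one_zpow, one_mul]
  have h2 : j % 3 = 0 ∨ j % 3 = 1 ∨ j % 3 = 2 := by omega
  have h3 : Commute (s ^ 2) t := by
    rcases h2 with h2 | h2 | h2
    · rw [h1, h2, zpow_zero] at hj
      have : t = 1 := by
        have : t = s⁻¹ * (s * t * s⁻¹) * s := by group
        rw [this, ← hj]; group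
      rw [this]; exact Commute.one_right _
    · rw [h1, h2, zpow_one] at hj
      have : Commute s t := mul_inv_eq_iff_eq_mul.1 hj.symm
      exact this.pow_left 2
    · rw [h1, h2] at hj
      have h4 : t ^ (2 : ℤ) = t⁻¹ := by
        apply eq_inv_of_mul_eq_one_left
        rw [← zpow_add_one, ← ht3]; norm_num
      rw [h4] at hj
      have h5 : s ^ 2 * t * (s ^ 2)⁻¹ = s * (s * t * s⁻¹) * s⁻¹ := by rw [sq]; group
      have h6 : s ^ 2 * t * (s ^ 2)⁻¹ = t := by
        rw [h5, ← hj]
        have : s * t⁻¹ * s⁻¹ = (s * t * s⁻¹)⁻¹ := by group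
        rw [this, ← hj, inv_inv]
      exact mul_inv_eq_iff_eq_mul.1 h6
  obtain ⟨l, hl⟩ := mem_zpowers_sq_of_odd hs
  simp only at hl
  rw [← hl]
  exact h3.zpow_left l

theorem noQ_of_odd {G : Type*} [Group G] (ho : ∀ g : G, Odd (orderOf g)) : NoQ G := by
  intro x y h1 h2
  by_contra h3
  have hQ : IsQ x y := ⟨h1, h2, h3⟩
  have := ho x
  rw [hQ.orderOf_x] at this
  exact (by decide : ¬ Odd 4) this

/-- Elements of odd `p`-power order normalising a cyclic `p`-subgroup centralise it. -/
theorem commute_of_pelts {G : Type u} [Group G] (hc : CC G) {p : ℕ} (hp : p.Prime)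
    (hodd : Odd p) {s f : G} {k l : ℕ} (hs : orderOf s = p ^ l) (hf : orderOf f = p ^ k)
    (hsf : s * f * s⁻¹ ∈ Subgroup.zpowers f) : Commute s f := by
  have : Fact p.Prime := ⟨hp⟩
  have hs0 : 0 < orderOf s := by rw [hs]; exact pow_pos hp.pos _
  have hf0 : 0 < orderOf f := by rw [hf]; exact pow_pos hp.pos _
  have hfs : Finite (Subgroup.zpowers s) := finite_zpowers.2 (orderOf_pos_iff.1 hs0)
  have hff : Finite (Subgroup.zpowers f) := finite_zpowers.2 (orderOf_pos_iff.1 hf0)
  have hps : IsPGroup p (Subgroup.zpowers s) := by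
    rw [IsPGroup.iff_card]
    exact ⟨l, by rw [Nat.card_zpowers, hs]⟩
  have hpf : IsPGroup p (Subgroup.zpowers f) := by
    rw [IsPGroup.iff_card]
    exact ⟨k, by rw [Nat.card_zpowers, hf]⟩
  have hle : Subgroup.zpowers s ≤ Subgroup.normalizer (Subgroup.zpowers f : Set G) := by
    rw [Subgroup.zpowers_le]
    have h1 : s ^ (orderOf s - 1) = s⁻¹ := by
      apply eq_inv_of_mul_eq_one_left
      rw [← pow_succ]
      have : orderOf s - 1 + 1 = orderOf s := by omega
      rw [this, pow_orderOf_eq_one]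
    rw [Subgroup.mem_normalizer_iff]
    intro g
    constructor
    · intro hg
      exact zpowers_conj_mem hsf hg
    · intro hg
      have h2 := pow_conj_mem hsf (orderOf s - 1)
      rw [h1] at h2
      have h3 := zpowers_conj_mem h2 hg
      have h4 : s⁻¹ * (s * g * s⁻¹) * s⁻¹⁻¹ = g := by group
      rw [h4] at h3
      exact h3
  have hP := IsPGroup.to_sup_of_normal_right' hps hpf hle
  set P := Subgroup.zpowers s ⊔ Subgroup.zpowers f with hPdef
  have hsP : s ∈ P := (le_sup_left : Subgroup.zpowers s ≤ P) (Subgroup.mem_zpowers s)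
  have hfP : f ∈ P := (le_sup_right : Subgroup.zpowers f ≤ P) (Subgroup.mem_zpowers f)
  have hPf : Finite P := by
    have h1 : ((P : Set G)).Finite := by
      have h2 : (P : Set G) = (Subgroup.zpowers s : Set G) * (Subgroup.zpowers f : Set G) := by
        rw [hPdef]
        exact Subgroup.coe_mul_of_left_le_normalizer_right _ _ hle
      rw [h2]
      exact Set.Finite.mul (finite_zpowers.2 (orderOf_pos_iff.1 hs0))
        (finite_zpowers.2 (orderOf_pos_iff.1 hf0))
    exact h1.to_subtype
  have hnq : NoQ P := by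
    apply noQ_of_odd
    intro g
    obtain ⟨r, hr⟩ := IsPGroup.iff_orderOf.1 hP g
    rw [hr]
    exact hodd.pow
  have h1 := comm_of_isPGroup_aux p _ P rfl hP (hc.subgroup P) hnq ⟨s, hsP⟩ ⟨f, hfP⟩
  exact congrArg Subtype.val h1.eq

/-- All prime divisors are at least five. -/
def Big (n : ℕ) : Prop := ∀ p : ℕ, p.Prime → p ∣ n → 5 ≤ p

theorem Big.of_dvd {m n : ℕ} (h : Big n) (hmn : m ∣ n) : Big m :=
  fun p hp hpm => h p hp (hpm.trans hmn)

theorem Big.odd {n : ℕ} (h : Big n) : Odd n := by
  rw [← Nat.not_even_iff_odd]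
  intro hev
  have := h 2 Nat.prime_two hev.two_dvd
  omega

theorem Big.of_prime {p : ℕ} (hp : p.Prime) (h5 : 5 ≤ p) : Big p := by
  intro q hq hqp
  rw [(Nat.prime_dvd_prime_iff_eq hq hp).1 hqp]
  exact h5

section

variable {G : Type u} [Group G] (h : RC G) (ht : ∀ g : G, IsOfFinOrder g) {z : G} (hz : UI z)

include h ht hz

/-- The basic lemma on the action on cyclic subgroups. -/
theorem commute_of_five {s f : G} (hs : Big (orderOf s)) (hsf : s * f * s⁻¹ ∈ Subgroup.zpowers f)
    (hfive : ∀ t ∈ Subgroup.zpowers f, (orderOf t).Prime → 5 ≤ orderOf t → Commute s t) :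
    Commute s f := by
  have hcen : ∀ a b : G, a ∈ Subgroup.centralizer ({b} : Set G) ↔ Commute a b := by
    intro a b
    rw [Subgroup.mem_centralizer_iff]
    constructor
    · intro h1
      exact (h1 b rfl).symm
    · rintro h1 _ rfl
      exact h1.eq.symm
  have h1 : f ∈ Subgroup.centralizer ({s} : Set G) := by
    apply mem_of_primary _ (orderOf f) f rfl (ht f).orderOf_pos
    rintro m ⟨p, k, hp, hpk⟩
    rw [hcen]
    apply Commute.symm
    rw [← hcen]
    set b := f ^ m with hb
    have hbf : ∀ t ∈ Subgroup.zpowers b, t ∈ Subgroup.zpowers f := fun t ht' =>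
      (Subgroup.zpowers_le.2 (Subgroup.pow_mem _ (Subgroup.mem_zpowers f) m)) ht'
    have hsb : s * b * s⁻¹ ∈ Subgroup.zpowers b := conj_pow_mem hsf m
    apply mem_of_primary _ (orderOf s) s rfl (ht s).orderOf_pos
    rintro l ⟨q, r, hq, hqr⟩
    rw [hcen]
    have hsb' := pow_conj_mem hsb l
    have hdvd : orderOf (s ^ l) ∣ orderOf s := orderOf_pow_dvd l
    have hbig : Big (orderOf (s ^ l)) := hs.of_dvd hdvd
    by_cases hr : r = 0
    · rw [hr, pow_zero, orderOf_eq_one_iff] at hqr
      rw [hqr]; exact Commute.one_left b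
    have hq5 : 5 ≤ q := hs q hq ((dvd_pow_self q hr).trans (hqr ▸ hdvd))
    by_cases hpq : p = q
    · subst hpq
      exact commute_of_pelts h.cc hp (hp.odd_of_ne_two (by omega)) hqr hpk hsb'
    · apply commute_of_commute_prime hp _ k b hpk hsb'
      · intro t htb htp
        by_cases ht1 : t = 1
        · rw [ht1]; exact Commute.one_right _
        have hto : orderOf t = p := by
          have : Fact p.Prime := ⟨hp⟩
          exact orderOf_eq_prime htp ht1
        by_cases hp2 : p = 2
        · rw [hp2] at htp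
          rcases hz.uni t htp with h2 | h2
          · exact absurd h2 ht1
          · rw [h2]; exact hz.cen _
        by_cases hp3 : p = 3
        · rw [hp3] at htp
          apply commute_three hbig.odd htp
          obtain ⟨j, hj⟩ := htb
          simp only at hj
          rw [← hj]
          exact conj_zpow_mem hsb' j
        · have hp5 := hp.five_le_of_ne_two_of_ne_three hp2 hp3
          exact (hfive t (hbf t htb) (by rw [hto]; exact hp) (by rw [hto]; exact hp5)).pow_left l
      · rw [hqr]
        exact Nat.Coprime.pow_right _ ((Nat.coprime_primes hp hq).2 hpq)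
  exact ((hcen f s).1 h1).symm

end

end Pool.Agent.Lib.MP_544a1b_al
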