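import Mathlib

/-! Torsion-free binary nilpotent groups: unique roots, isolated subgroups. -/

set_option autoImplicit false

namespace Pool.Agent.Lib.MP_544a1b_al

open Subgroup
open scoped commutatorElement

/-- Torsion-free. -/
def TF (G : Type*) [Group G] : Prop := ∀ (g : G) (n : ℕ), 0 < n → g ^ n = 1 → g = 1

/-- Binary nilpotent. -/
def BN (G : Type*) [Group G] : Prop :=
  ∀ x y : G, Group.IsNilpotent (Subgroup.closure ({x, y} : Set G))

/-- Torsion-free and binary nilpotent. -/
structure TB (G : Type*) [Group G] : Prop where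
  tf : TF G
  bn : BN G

/-- Isolated subgroup. -/
def Iso {G : Type*} [Group G] (H : Subgroup G) : Prop :=
  ∀ (x : G) (n : ℕ), 0 < n → x ^ n ∈ H → x ∈ H

theorem TF.of_injective {G H : Type*} [Group G] [Group H] (f : H →* G)
    (hf : Function.Injective f) (h : TF G) : TF H := by
  intro g n hn hg
  apply hf
  rw [map_one]
  apply h (f g) n hn
  rw [← map_pow, hg, map_one]

theorem isNilpotent_of_injective {G H : Type*} [Group G] [Group H] (f : H →* G)
    (hf : Function.Injective f) [Group.IsNilpotent G] : Group.IsNilpotent H := by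
  apply Subgroup.isNilpotent_of_ker_le_center f
  rw [(MonoidHom.ker_eq_bot_iff f).2 hf]
  exact bot_le

theorem map_closure_pair {G H : Type*} [Group G] [Group H] (f : H →* G) (x y : H) :
    (Subgroup.closure ({x, y} : Set H)).map f = Subgroup.closure ({f x, f y} : Set G) := by
  rw [MonoidHom.map_closure, Set.image_pair]

theorem isNilpotent_map {G H : Type*} [Group G] [Group H] (f : H →* G) (S : Subgroup H)
    (hS : Group.IsNilpotent S) : Group.IsNilpotent (S.map f) := by
  rw [isNilpotent_iff_lowerCentralSeries] at hS ⊢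
  obtain ⟨n, hn⟩ := hS
  exact ⟨n, by rw [← map_lowerCentralSeries, hn, Subgroup.map_bot]⟩

theorem isNilpotent_of_map {G H : Type*} [Group G] [Group H] (f : H →* G)
    (hf : Function.Injective f) (S : Subgroup H)
    (hS : Group.IsNilpotent (S.map f)) : Group.IsNilpotent S := by
  rw [isNilpotent_iff_lowerCentralSeries] at hS ⊢
  obtain ⟨n, hn⟩ := hS
  refine ⟨n, ?_⟩
  rw [← map_lowerCentralSeries] at hn
  exact (Subgroup.map_eq_bot_iff_of_injective _ hf).1 hn

theorem isNilpotent_mono {G : Type*} [Group G] {S T : Subgroup G} (h : S ≤ T)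
    (hT : Group.IsNilpotent T) : Group.IsNilpotent S := by
  rw [isNilpotent_iff_lowerCentralSeries] at hT ⊢
  obtain ⟨n, hn⟩ := hT
  exact ⟨n, le_bot_iff.1 (hn ▸ lowerCentralSeries_mono n h)⟩

theorem BN.of_injective {G H : Type*} [Group G] [Group H] (f : H →* G)
    (hf : Function.Injective f) (h : BN G) : BN H := by
  intro x y
  apply isNilpotent_of_map f hf
  rw [map_closure_pair]
  exact h _ _

theorem BN.of_surjective {G H : Type*} [Group G] [Group H] (f : G →* H)
    (hf : Function.Surjective f) (h : BN G) : BN H := by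
  intro x y
  obtain ⟨x, rfl⟩ := hf x
  obtain ⟨y, rfl⟩ := hf y
  rw [← map_closure_pair]
  exact isNilpotent_map f _ (h x y)

theorem TB.subgroup {G : Type*} [Group G] (h : TB G) (H : Subgroup G) : TB H :=
  ⟨h.tf.of_injective H.subtype H.subtype_injective, h.bn.of_injective H.subtype H.subtype_injective⟩

theorem TB.quotient {G : Type*} [Group G] (h : TB G) (H : Subgroup G) [H.Normal] (hH : Iso H) :
    TB (G ⧸ H) := by
  refine ⟨?_, h.bn.of_surjective (QuotientGroup.mk' H) (QuotientGroup.mk'_surjective H)⟩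
  intro g n hn hg
  obtain ⟨g, rfl⟩ := QuotientGroup.mk'_surjective H g
  rw [← map_pow] at hg
  have h1 : g ^ n ∈ H := by
    rw [← QuotientGroup.ker_mk' H]
    exact hg
  have h2 := hH g n hn h1
  rw [← QuotientGroup.ker_mk' H] at h2
  exact h2

/-! ### Commutators of powers -/

theorem commutator_pow_left {G : Type*} [Group G] (a x : G) (h : Commute ⁅a, x⁆ a) (n : ℕ) :
    ⁅a ^ n, x⁆ = ⁅a, x⁆ ^ n := by
  have h1 : a * x * a⁻¹ = ⁅a, x⁆ * x := by
    rw [commutatorElement_def]; group
  have key : ∀ n : ℕ, a ^ n * x * (a ^ n)⁻¹ = ⁅a, x⁆ ^ n * x := by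
    intro n
    induction n with
    | zero => simp
    | succ n ih =>
      have h2 : a ^ (n + 1) * x * (a ^ (n + 1))⁻¹ = a * (a ^ n * x * (a ^ n)⁻¹) * a⁻¹ := by
        rw [pow_succ']; group
      have h3 : a * (⁅a, x⁆ ^ n * x) * a⁻¹ = ⁅a, x⁆ ^ n * (a * x * a⁻¹) := by
        rw [← mul_assoc a, ← (h.pow_left n).eq]
        group
      rw [h2, ih, h3, h1, ← mul_assoc, ← pow_succ]
  rw [commutatorElement_def, key n]
  group

/-- If `⁅a, x⁆` is in the `(i+1)`-st centre and `⁅a ^ n, x⁆` in the `i`-th one, then `⁅a, x⁆ ^ n`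
is in the `i`-th centre. -/
theorem pow_commutator_mem {G : Type*} [Group G] (i : ℕ) (a x : G)
    (h : ⁅a, x⁆ ∈ Subgroup.upperCentralSeries G (i + 1)) (n : ℕ)
    (hn : ⁅a ^ n, x⁆ ∈ Subgroup.upperCentralSeries G i) : ⁅a, x⁆ ^ n ∈ Subgroup.upperCentralSeries G i := by
  set Z := Subgroup.upperCentralSeries G i with hZ
  have hk : ∀ g : G, QuotientGroup.mk' Z g = 1 ↔ g ∈ Z := by
    intro g
    rw [← MonoidHom.mem_ker, QuotientGroup.ker_mk']
  rw [← hk] at hn ⊢
  rw [map_commutatorElement, map_pow] at hn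
  rw [map_pow, map_commutatorElement, ← commutator_pow_left, hn]
  rw [← map_commutatorElement]
  have h1 : ⁅⁅a, x⁆, a⁆ ∈ Z := Subgroup.mem_upperCentralSeries_succ_iff.1 h a
  rw [← hk, map_commutatorElement] at h1
  exact commutatorElement_eq_one_iff_commute.1 h1

/-- Factors of the upper central series of a torsion-free group are torsion-free. -/
theorem TF.center_step {G : Type*} [Group G] (h : TF G) (i : ℕ) :
    ∀ (a : G) (n : ℕ), 0 < n → a ∈ Subgroup.upperCentralSeries G (i + 1) →
      a ^ n ∈ Subgroup.upperCentralSeries G i → a ∈ Subgroup.upperCentralSeries G i := by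
  induction i with
  | zero =>
    intro a n hn _ h2
    rw [Subgroup.upperCentralSeries_zero, Subgroup.mem_bot] at h2 ⊢
    exact h a n hn h2
  | succ i ih =>
    intro a n hn h1 h2
    rw [Subgroup.mem_upperCentralSeries_succ_iff] at h1 h2 ⊢
    intro x
    exact ih _ n hn (h1 x) (pow_commutator_mem i a x (h1 x) n (h2 x))

/-- In a torsion-free nilpotent group, commuting of a power implies commuting. -/
theorem commute_of_pow_aux {G : Type*} [Group G] (h : TF G) [hG : Group.IsNilpotent G] (x y : G)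
    (n : ℕ) (hn : 0 < n) (hc : Commute (x ^ n) y) : Commute x y := by
  obtain ⟨c, hcc⟩ := hG.nilpotent
  have h0 : ⁅x ^ n, y⁆ = 1 := commutatorElement_eq_one_iff_commute.2 hc
  have key : ∀ k i : ℕ, k + i = c → ⁅x, y⁆ ∈ Subgroup.upperCentralSeries G i := by
    intro k
    induction k with
    | zero =>
      intro i hi
      have : i = c := by omega
      rw [this, hcc]; exact Subgroup.mem_top _
    | succ k ih =>
      intro i hi
      have h1 := ih (i + 1) (by omega)
      refine h.center_step i _ n hn h1 ?_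
      apply pow_commutator_mem i x y h1 n
      rw [h0]; exact Subgroup.one_mem _
  have h1 := key c 0 (by omega)
  rw [Subgroup.upperCentralSeries_zero, Subgroup.mem_bot] at h1
  exact commutatorElement_eq_one_iff_commute.1 h1

theorem TB.commute_of_pow {G : Type*} [Group G] (h : TB G) {x y : G} {n : ℕ} (hn : 0 < n)
    (hc : Commute (x ^ n) y) : Commute x y := by
  set N := Subgroup.closure ({x, y} : Set G) with hN
  have hx : x ∈ N := Subgroup.subset_closure (by simp)
  have hy : y ∈ N := Subgroup.subset_closure (by simp)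
  have : Group.IsNilpotent N := h.bn x y
  have h1 : TF N := (h.subgroup N).tf
  have h2 : Commute ((⟨x, hx⟩ : N) ^ n) ⟨y, hy⟩ := by
    apply Subtype.ext
    simpa using hc.eq
  have h3 := commute_of_pow_aux h1 _ _ n hn h2
  exact congrArg Subtype.val h3.eq

theorem TB.commute_of_pow_pow {G : Type*} [Group G] (h : TB G) {x y : G} {n m : ℕ} (hn : 0 < n)
    (hm : 0 < m) (hc : Commute (x ^ n) (y ^ m)) : Commute x y :=
  h.commute_of_pow hn (h.commute_of_pow hm hc.symm).symm

theorem TB.iso_centralizer {G : Type*} [Group G] (h : TB G) (S : Set G) :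
    Iso (Subgroup.centralizer S) := by
  intro x n hn hx
  rw [Subgroup.mem_centralizer_iff] at hx ⊢
  intro y hy
  exact (h.commute_of_pow hn (hx y hy).symm).eq.symm

theorem TB.iso_center {G : Type*} [Group G] (h : TB G) : Iso (Subgroup.center G) := by
  rw [← Subgroup.centralizer_univ]
  exact h.iso_centralizer _

theorem Iso.inf {G : Type*} [Group G] {H K : Subgroup G} (hH : Iso H) (hK : Iso K) :
    Iso (H ⊓ K) := fun x n hn hx => ⟨hH x n hn hx.1, hK x n hn hx.2⟩

theorem TF.iso_bot {G : Type*} [Group G] (h : TF G) : Iso (⊥ : Subgroup G) := by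
  intro x n hn hx
  rw [Subgroup.mem_bot] at hx ⊢
  exact h x n hn hx

theorem iso_top {G : Type*} [Group G] : Iso (⊤ : Subgroup G) := fun x _ _ _ => Subgroup.mem_top x

theorem Iso.comap {G H : Type*} [Group G] [Group H] (f : H →* G) {S : Subgroup G} (h : Iso S) :
    Iso (S.comap f) := by
  intro x n hn hx
  rw [Subgroup.mem_comap, map_pow] at hx
  exact h _ n hn hx

theorem Iso.subgroupOf {G : Type*} [Group G] {S : Subgroup G} (h : Iso S) (H : Subgroup G) :
    Iso (S.subgroupOf H) := h.comap _

/-- An isolated subgroup of an isolated subgroup is isolated. More generally. -/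
theorem Iso.map_subtype {G : Type*} [Group G] {H D : Subgroup G} (hD : Iso D) (hDH : D ≤ H)
    {S : Subgroup H} (hS : Iso S) (hSD : S.map H.subtype ≤ D) : Iso (S.map H.subtype) := by
  intro x n hn hx
  have h1 : x ∈ H := hDH (hD x n hn (hSD hx))
  obtain ⟨y, hy, hyx⟩ := hx
  refine ⟨⟨x, h1⟩, ?_, rfl⟩
  apply hS _ n hn
  have h2 : (⟨x, h1⟩ : H) ^ n = y := by
    apply Subtype.ext
    simpa using hyx.symm
  rw [h2]; exact hy

theorem Iso.map_subtype' {G : Type*} [Group G] {H : Subgroup G} (hH : Iso H)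
    {S : Subgroup H} (hS : Iso S) : Iso (S.map H.subtype) :=
  hH.map_subtype le_rfl hS (by
    rintro _ ⟨y, _, rfl⟩
    exact y.2)

theorem iso_iSup_of_monotone {G : Type*} [Group G] (f : ℕ → Subgroup G) (hf : Monotone f)
    (h : ∀ i, Iso (f i)) : Iso (⨆ i, f i) := by
  intro x n hn hx
  rw [Subgroup.mem_iSup_of_directed hf.directed_le] at hx ⊢
  obtain ⟨i, hi⟩ := hx
  exact ⟨i, h i x n hn hi⟩

end Pool.Agent.Lib.MP_544a1b_al
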