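import Pool.Agent.Lib.MP_544a1b_al.Two

/-! The action on the three cyclic subgroups of order four of a quaternion group. -/

set_option autoImplicit false

universe u

namespace Pool.Agent.Lib.MP_544a1b_al

open Subgroup
open scoped commutatorElement

/-- Representatives of the three cyclic subgroups of order four. -/
def e3 {G : Type*} [Group G] (x y : G) : Fin 3 → G := ![x, y, x * y]

/-- The normaliser of the quaternion group. -/
abbrev Nz {G : Type*} [Group G] (x y : G) : Subgroup G :=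
  Subgroup.normalizer (Subgroup.closure ({x, y} : Set G) : Set G)

/-- Membership in a class. -/
def Cl {G : Type*} [Group G] (x y : G) (a : G) (i : Fin 3) : Prop :=
  a = e3 x y i ∨ a = (e3 x y i)⁻¹

section

variable {G : Type*} [Group G] {x y : G}

theorem x_mem_closure (x y : G) : x ∈ Subgroup.closure ({x, y} : Set G) :=
  Subgroup.subset_closure (by simp)

theorem y_mem_closure (x y : G) : y ∈ Subgroup.closure ({x, y} : Set G) :=
  Subgroup.subset_closure (by simp)

theorem IsQ.xy_sq (h : IsQ x y) : (x * y) ^ 2 = x ^ 2 := by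
  have h1 : (x * y) ^ 2 = x * (y * x) * y := by rw [sq]; group
  rw [h1, h.yx, h.1, sq]; group

theorem IsQ.e_sq (h : IsQ x y) (i : Fin 3) : (e3 x y i) ^ 2 = x ^ 2 := by
  fin_cases i
  · rfl
  · exact h.1.symm
  · exact h.xy_sq

theorem e_mem (x y : G) (i : Fin 3) : e3 x y i ∈ Subgroup.closure ({x, y} : Set G) := by
  fin_cases i
  · exact x_mem_closure x y
  · exact y_mem_closure x y
  · exact Subgroup.mul_mem _ (x_mem_closure x y) (y_mem_closure x y)

theorem IsQ.e_not_commute (h : IsQ x y) {i j : Fin 3} (hij : i ≠ j) :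
    ¬ Commute (e3 x y i) (e3 x y j) := by
  have h02 : ¬ Commute x (x * y) := by
    intro h1
    apply h.not_commute
    have h2 := h1.eq
    rw [mul_assoc x y x] at h2
    exact mul_left_cancel h2
  have h12 : ¬ Commute y (x * y) := by
    intro h1
    apply h.not_commute
    have h2 := h1.eq
    rw [← mul_assoc] at h2
    exact (mul_right_cancel h2).symm
  fin_cases i <;> fin_cases j
  · exact absurd rfl hij
  · exact h.not_commute
  · exact h02
  · exact fun h1 => h.not_commute h1.symm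
  · exact absurd rfl hij
  · exact h12
  · exact fun h1 => h02 h1.symm
  · exact fun h1 => h12 h1.symm
  · exact absurd rfl hij

theorem Cl.commute_iff {a b : G} {i j : Fin 3} (ha : Cl x y a i) (hb : Cl x y b j) :
    Commute a b ↔ Commute (e3 x y i) (e3 x y j) := by
  rcases ha with rfl | rfl <;> rcases hb with rfl | rfl
  · exact Iff.rfl
  · exact Commute.inv_right_iff
  · exact Commute.inv_left_iff
  · rw [Commute.inv_left_iff, Commute.inv_right_iff]

theorem IsQ.cl_not_commute (h : IsQ x y) {a b : G} {i j : Fin 3} (ha : Cl x y a i)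
    (hb : Cl x y b j) (hij : i ≠ j) : ¬ Commute a b :=
  fun h1 => h.e_not_commute hij ((ha.commute_iff hb).1 h1)

theorem IsQ.cl_unique (h : IsQ x y) {a : G} {i j : Fin 3} (ha : Cl x y a i)
    (hb : Cl x y a j) : i = j := by
  by_contra hij
  exact h.cl_not_commute ha hb hij (Commute.refl a)

theorem Cl.commute {a b : G} {i : Fin 3} (ha : Cl x y a i) (hb : Cl x y b i) : Commute a b :=
  (ha.commute_iff hb).2 (Commute.refl _)

theorem Cl.eq_or {a b : G} {i : Fin 3} (ha : Cl x y a i) (hb : Cl x y b i) :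
    a = b ∨ a = b⁻¹ := by
  rcases ha with rfl | rfl <;> rcases hb with rfl | rfl
  · exact Or.inl rfl
  · right; rw [inv_inv]
  · exact Or.inr rfl
  · exact Or.inl rfl

theorem Cl.inv {a : G} {i : Fin 3} (ha : Cl x y a i) : Cl x y a⁻¹ i := by
  rcases ha with rfl | rfl
  · exact Or.inr rfl
  · left; rw [inv_inv]

theorem Cl.mem {a : G} {i : Fin 3} (ha : Cl x y a i) :
    a ∈ Subgroup.closure ({x, y} : Set G) := by
  rcases ha with rfl | rfl
  · exact e_mem x y i
  · exact Subgroup.inv_mem _ (e_mem x y i)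

theorem IsQ.cl_sq (h : IsQ x y) {a : G} {i : Fin 3} (ha : Cl x y a i) : a ^ 2 = x ^ 2 := by
  rcases ha with rfl | rfl
  · exact h.e_sq i
  · rw [inv_pow, h.e_sq i]
    exact inv_eq_of_mul_eq_one_left (by rw [← sq]; exact h.z2)

theorem IsQ.exists_cl (h : IsQ x y) {q : G} (hq : q ∈ Subgroup.closure ({x, y} : Set G))
    (hq2 : q ^ 2 ≠ 1) : ∃ i, Cl x y q i := by
  rcases h.four_cases hq hq2 with h1 | h1 | h1
  · exact ⟨0, h1⟩
  · exact ⟨1, h1⟩
  · exact ⟨2, h1⟩

theorem nz_conj {g q : G} (hg : g ∈ Nz x y) (hq : q ∈ Subgroup.closure ({x, y} : Set G)) :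
    g * q * g⁻¹ ∈ Subgroup.closure ({x, y} : Set G) :=
  (Subgroup.mem_normalizer_iff.1 hg q).1 hq

theorem sq_conj_ne {g q : G} (hq2 : q ^ 2 ≠ 1) : (g * q * g⁻¹) ^ 2 ≠ 1 := by
  intro h1
  apply hq2
  rw [conj_pow] at h1
  have h2 : q ^ 2 = g⁻¹ * (g * q ^ 2 * g⁻¹) * g := by group
  rw [h2, h1]; group

theorem IsQ.exists_class (h : IsQ x y) (g : Nz x y) (i : Fin 3) :
    ∃ j, Cl x y ((g : G) * e3 x y i * (g : G)⁻¹) j :=
  h.exists_cl (nz_conj g.2 (e_mem x y i)) (sq_conj_ne (by rw [h.e_sq]; exact h.2.2))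

/-- The class of the conjugate. -/
noncomputable def IsQ.cls (h : IsQ x y) (g : Nz x y) (i : Fin 3) : Fin 3 :=
  (h.exists_class g i).choose

theorem IsQ.cls_spec (h : IsQ x y) (g : Nz x y) (i : Fin 3) :
    Cl x y ((g : G) * e3 x y i * (g : G)⁻¹) (h.cls g i) := (h.exists_class g i).choose_spec

theorem IsQ.cls_conj (h : IsQ x y) (g : Nz x y) {a : G} {i : Fin 3} (ha : Cl x y a i) :
    Cl x y ((g : G) * a * (g : G)⁻¹) (h.cls g i) := by
  rcases ha with rfl | rfl
  · exact h.cls_spec g i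
  · have h1 : (g : G) * (e3 x y i)⁻¹ * (g : G)⁻¹ = ((g : G) * e3 x y i * (g : G)⁻¹)⁻¹ := by group
    rw [h1]
    exact (h.cls_spec g i).inv

/-- The action on the three classes. -/
@[implicit_reducible]
noncomputable def IsQ.act (h : IsQ x y) : MulAction (Nz x y) (Fin 3) where
  smul g i := h.cls g i
  one_smul := by
    intro i
    have h1 := h.cls_spec 1 i
    have h2 : Cl x y (((1 : Nz x y) : G) * e3 x y i * ((1 : Nz x y) : G)⁻¹) i := by
      left; simp
    exact h.cl_unique h1 h2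
  mul_smul := by
    intro a b i
    have h1 := h.cls_spec (a * b) i
    have h2 : Cl x y (((a * b : Nz x y) : G) * e3 x y i * ((a * b : Nz x y) : G)⁻¹)
        (h.cls a (h.cls b i)) := by
      have h3 := h.cls_conj a (h.cls_spec b i)
      have h4 : ((a * b : Nz x y) : G) * e3 x y i * ((a * b : Nz x y) : G)⁻¹ =
          (a : G) * ((b : G) * e3 x y i * (b : G)⁻¹) * (a : G)⁻¹ := by
        rw [Subgroup.coe_mul]; group
      rw [h4]; exact h3
    exact h.cl_unique h1 h2

/-- The homomorphism to the permutations of the classes. -/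
noncomputable def IsQ.phi (h : IsQ x y) : Nz x y →* Equiv.Perm (Fin 3) :=
  @MulAction.toPermHom (Nz x y) (Fin 3) _ h.act

theorem IsQ.phi_conj (h : IsQ x y) (g : Nz x y) {a : G} {i : Fin 3} (ha : Cl x y a i) :
    Cl x y ((g : G) * a * (g : G)⁻¹) (h.phi g i) := h.cls_conj g ha

theorem IsQ.phi_eq_one (h : IsQ x y) {g : Nz x y} (hg : h.phi g = 1) {a : G} {i : Fin 3}
    (ha : Cl x y a i) : (g : G) * a * (g : G)⁻¹ = a ∨ (g : G) * a * (g : G)⁻¹ = a⁻¹ := by
  have h1 := h.phi_conj g ha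
  rw [hg] at h1
  exact h1.eq_or ha

/-- An element fixing the three classes is inner modulo the centralizer. -/
theorem IsQ.inner (h : IsQ x y) {g : G} (hx : g * x * g⁻¹ = x ∨ g * x * g⁻¹ = x⁻¹)
    (hy : g * y * g⁻¹ = y ∨ g * y * g⁻¹ = y⁻¹) :
    ∃ q ∈ Subgroup.closure ({x, y} : Set G), ∃ t, g = q * t ∧ Commute t x ∧ Commute t y := by
  have hred : ∀ q a : G, g * a * g⁻¹ = q * a * q⁻¹ → Commute (q⁻¹ * g) a := by
    intro q a h1
    have h2 : (q⁻¹ * g) * a * (q⁻¹ * g)⁻¹ = q⁻¹ * (g * a * g⁻¹) * q := by group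
    rw [h1] at h2
    have h3 : q⁻¹ * (q * a * q⁻¹) * q = a := by group
    rw [h3] at h2
    exact mul_inv_eq_iff_eq_mul.1 h2
  have hmain : ∀ q ∈ Subgroup.closure ({x, y} : Set G), g * x * g⁻¹ = q * x * q⁻¹ →
      g * y * g⁻¹ = q * y * q⁻¹ →
      ∃ q ∈ Subgroup.closure ({x, y} : Set G), ∃ t, g = q * t ∧ Commute t x ∧ Commute t y := by
    intro q hq h1 h2
    exact ⟨q, hq, q⁻¹ * g, by group, hred q x h1, hred q y h2⟩
  have hxy : x * y * x⁻¹ = y⁻¹ := h.symm.2.1
  have hyx : y * x * y⁻¹ = x⁻¹ := h.2.1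
  rcases hx with hx | hx <;> rcases hy with hy | hy
  · exact hmain 1 (Subgroup.one_mem _) (by rw [hx]; group) (by rw [hy]; group)
  · exact hmain x (x_mem_closure x y) (by rw [hx]; group) (by rw [hy, hxy])
  · exact hmain y (y_mem_closure x y) (by rw [hx, hyx]) (by rw [hy]; group)
  · refine hmain (x * y) (Subgroup.mul_mem _ (x_mem_closure x y) (y_mem_closure x y)) ?_ ?_
    · rw [hx]
      have : x * y * x * (x * y)⁻¹ = x * (y * x * y⁻¹) * x⁻¹ := by group
      rw [this, hyx]; group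
    · rw [hy]
      have : x * y * y * (x * y)⁻¹ = x * y * x⁻¹ := by group
      rw [this, hxy]

theorem commute_closure {t : G} (hx : Commute t x) (hy : Commute t y) {q : G}
    (hq : q ∈ Subgroup.closure ({x, y} : Set G)) : Commute t q := by
  have h1 : Subgroup.closure ({x, y} : Set G) ≤ Subgroup.centralizer ({t} : Set G) := by
    rw [Subgroup.closure_le]
    intro u hu
    rw [SetLike.mem_coe, mem_centralizer_singleton']
    rcases hu with rfl | hu
    · exact hx.symm
    · rw [Set.mem_singleton_iff] at hu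
      rw [hu]; exact hy.symm
  exact ((mem_centralizer_singleton' _ _).1 (h1 hq)).symm

end

theorem perm_six (σ : Equiv.Perm (Fin 3)) : σ ^ 6 = 1 := by
  have h1 := pow_card_eq_one (x := σ)
  rw [Fintype.card_perm, Fintype.card_fin] at h1
  exact h1

theorem perm_pair : ∀ σ τ : Equiv.Perm (Fin 3), σ ^ 3 = 1 → τ ^ 3 = 1 → σ ≠ 1 → τ ≠ 1 →
    (σ⁻¹ * τ = 1 ∨ σ * τ = 1) := by decide

theorem perm_fix : ∀ σ : Equiv.Perm (Fin 3), σ ^ 3 = 1 → σ ≠ 1 → ∀ i, σ i ≠ i ∧ σ (σ i) ≠ i ∧
    σ (σ i) ≠ σ i := by decide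

set_option maxRecDepth 20000 in
theorem perm_comm : ∀ σ τ : Equiv.Perm (Fin 3), (σ * τ * σ⁻¹ * τ⁻¹) ^ 3 = 1 := by decide

theorem perm_abel : ∀ σ τ : Equiv.Perm (Fin 3), σ ^ 3 = 1 → τ ^ 3 = 1 → σ * τ = τ * σ := by decide

theorem fin3_eq : ∀ a b c d : Fin 3, a ≠ b → c ≠ a → c ≠ b → d ≠ a → d ≠ b → c = d := by decide

end Pool.Agent.Lib.MP_544a1b_al
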