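import Pool.Agent.Lib.MP_544a1b_al.PGrp

/-! Binary soluble groups all of whose abelian subgroups are locally cyclic: periodic groups
without quaternion subgroups. -/

set_option autoImplicit false

universe u

namespace Pool.Agent.Lib.MP_544a1b_al

open Subgroup
open scoped commutatorElement

theorem map_derivedSeries_commutator (H : Type*) [Group H] (k : ℕ) :
    (derivedSeries (commutator H) k).map (commutator H).subtype = derivedSeries H (k + 1) := by
  induction k with
  | zero =>
    rw [derivedSeries_zero, ← MonoidHom.range_eq_map, Subgroup.range_subtype, zero_add,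
      derivedSeries_one]
  | succ k ih =>
    rw [derivedSeries_succ, Subgroup.map_commutator, ih, ← derivedSeries_succ]

theorem finite_of_torsion_aux (n : ℕ) : ∀ (H : Type u) [Group H] [Group.FG H],
    (∀ g : H, IsOfFinOrder g) → derivedSeries H n = ⊥ → Finite H := by
  induction n with
  | zero =>
    intro H _ _ _ hd
    rw [derivedSeries_zero] at hd
    have : Subsingleton H := by
      constructor
      intro a b
      have ha : a ∈ (⊤ : Subgroup H) := Subgroup.mem_top a
      have hb : b ∈ (⊤ : Subgroup H) := Subgroup.mem_top b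
      rw [hd, Subgroup.mem_bot] at ha hb
      rw [ha, hb]
    infer_instance
  | succ n ih =>
    intro H _ hfg ht hd
    have h1 : Finite (Abelianization H) := by
      have : Group.FG (Abelianization H) :=
        Group.fg_of_surjective (f := Abelianization.of) (QuotientGroup.mk_surjective)
      apply CommGroup.finite_of_fg_isMulTorsion
      intro g
      obtain ⟨g, rfl⟩ := QuotientGroup.mk_surjective g
      exact MonoidHom.isOfFinOrder (Abelianization.of (G := H)) (ht g)
    have h2 : (commutator H).FiniteIndex := by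
      have : Finite (H ⧸ commutator H) := h1
      exact Subgroup.finiteIndex_of_finite_quotient
    have h3 : Finite (commutator H) := by
      apply ih (commutator H)
      · intro g
        rw [isOfFinOrder_iff_pow_eq_one]
        obtain ⟨m, hm, hg⟩ := isOfFinOrder_iff_pow_eq_one.1 (ht (g : H))
        exact ⟨m, hm, Subtype.ext (by simpa using hg)⟩
      · have h4 := map_derivedSeries_commutator H n
        rw [hd] at h4
        exact (Subgroup.map_eq_bot_iff_of_injective _ (Subgroup.subtype_injective _)).1 h4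
    have h4 := (commutator H).card_mul_index
    apply Nat.finite_of_card_ne_zero
    rw [← h4]
    exact mul_ne_zero Nat.card_pos.ne' h2.index_ne_zero

theorem finite_closure_pair {G : Type u} [Group G] (h : RC G) (ht : ∀ g : G, IsOfFinOrder g)
    (x y : G) : Finite (Subgroup.closure ({x, y} : Set G)) := by
  obtain ⟨n, hn⟩ := (h.bs x y).solvable
  have hfg : Group.FG (Subgroup.closure ({x, y} : Set G)) := by
    rw [Group.fg_iff_subgroup_fg]
    classical
    exact ⟨{x, y}, by simp⟩
  apply finite_of_torsion_aux n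
  · intro g
    rw [isOfFinOrder_iff_pow_eq_one]
    obtain ⟨m, hm, hg⟩ := isOfFinOrder_iff_pow_eq_one.1 (ht (g : G))
    exact ⟨m, hm, Subtype.ext (by simpa using hg)⟩
  · exact hn

theorem exists_finite_sup {G : Type*} [Group G] (L : Subgroup G) [Finite L] (r : G)
    (hr : IsOfFinOrder r) (hn : ∀ l ∈ L, r * l * r⁻¹ ∈ L) :
    ∃ M : Subgroup G, Finite M ∧ L ≤ M ∧ r ∈ M := by
  obtain ⟨N, hN, hrN⟩ := isOfFinOrder_iff_pow_eq_one.1 hr
  have hnk : ∀ k : ℕ, ∀ l ∈ L, r ^ k * l * (r ^ k)⁻¹ ∈ L := by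
    intro k
    induction k with
    | zero => intro l hl; simpa using hl
    | succ k ih =>
      intro l hl
      have h1 : r ^ (k + 1) * l * (r ^ (k + 1))⁻¹ = r * (r ^ k * l * (r ^ k)⁻¹) * r⁻¹ := by
        rw [pow_succ']; group
      rw [h1]
      exact hn _ (ih l hl)
  let M : Subgroup G :=
    { carrier := {g | ∃ l ∈ L, ∃ k : ℕ, g = l * r ^ k}
      mul_mem' := by
        rintro _ _ ⟨l, hl, k, rfl⟩ ⟨l', hl', k', rfl⟩
        refine ⟨l * (r ^ k * l' * (r ^ k)⁻¹), L.mul_mem hl (hnk k l' hl'), k + k', ?_⟩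
        rw [pow_add]; group
      one_mem' := ⟨1, L.one_mem, 0, by simp⟩
      inv_mem' := by
        rintro _ ⟨l, hl, k, rfl⟩
        have h1 : (r ^ k)⁻¹ = r ^ (k * (N - 1)) := by
          apply inv_eq_of_mul_eq_one_right
          rw [← pow_add]
          have : k + k * (N - 1) = N * k := by
            obtain ⟨m, rfl⟩ : ∃ m, N = m + 1 := ⟨N - 1, by omega⟩
            rw [Nat.add_sub_cancel]; ring
          rw [this, pow_mul, hrN, one_pow]
        refine ⟨r ^ (k * (N - 1)) * l⁻¹ * (r ^ (k * (N - 1)))⁻¹,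
          hnk _ _ (L.inv_mem hl), k * (N - 1), ?_⟩
        rw [mul_inv_rev, h1]; group }
  refine ⟨M, ?_, ?_, ?_⟩
  · have h1 : ((M : Set G)).Finite := by
      apply Set.Finite.subset (Set.Finite.image2 (fun a b => a * b) (Set.toFinite (L : Set G))
        (finite_zpowers.2 hr))
      rintro _ ⟨l, hl, k, rfl⟩
      exact ⟨l, hl, r ^ k, Subgroup.pow_mem _ (Subgroup.mem_zpowers r) k, rfl⟩
    exact h1.to_subtype
  · intro l hl
    exact ⟨l, hl, 0, by simp⟩
  · exact ⟨1, L.one_mem, 1, by simp⟩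

theorem isZGroup_of_finite {G : Type u} [Group G] (hc : CC G) (hq : NoQ G) (M : Subgroup G)
    [Finite M] : IsZGroup M := by
  constructor
  intro p hp P
  have : Fact p.Prime := ⟨hp⟩
  have hcP : CC (P : Subgroup M) := (hc.subgroup M).subgroup _
  have hqP : NoQ (P : Subgroup M) := (hq.subgroup M).subgroup _
  have h1 := comm_of_isPGroup_aux p _ (P : Subgroup M) rfl P.isPGroup' hcP hqP
  obtain ⟨a, -, ha⟩ := hcP.exists_gen ⊤ (fun x _ y _ => h1 x y)
  exact ⟨a, fun x => ha x (Subgroup.mem_top x)⟩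

/-- What is needed about finite groups with cyclic Sylow subgroups. -/
theorem zfacts {G : Type u} [Group G] (hc : CC G) (hq : NoQ G) (M : Subgroup G) [Finite M] :
    ∃ C : Subgroup G, C ≤ M ∧ (∀ x ∈ M, ∀ y ∈ M, ⁅x, y⁆ ∈ C) ∧
      (∀ c ∈ C, ∀ d ∈ C, Commute c d) ∧ (∀ x ∈ M, ∀ c ∈ C, x * c * x⁻¹ ∈ C) ∧
      ∃ I N : ℕ, Nat.Coprime N I ∧ (∀ x ∈ M, x ^ I ∈ C) ∧ (∀ c ∈ C, c ^ N = 1) := by
  have hz := isZGroup_of_finite hc hq M
  have hcy : IsCyclic (commutator M) := IsZGroup.isCyclic_commutator M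
  refine ⟨(commutator M).map M.subtype, ?_, ?_, ?_, ?_, (commutator M).index,
    Nat.card (commutator M), IsZGroup.coprime_commutator_index M, ?_, ?_⟩
  · rintro _ ⟨c, -, rfl⟩
    exact c.2
  · intro x hx y hy
    refine ⟨⁅(⟨x, hx⟩ : M), (⟨y, hy⟩ : M)⁆, ?_, ?_⟩
    · exact Subgroup.commutator_mem_commutator (Subgroup.mem_top _) (Subgroup.mem_top _)
    · simp [commutatorElement_def]
  · rintro _ ⟨c, hcc, rfl⟩ _ ⟨d, hdd, rfl⟩
    let _ := IsCyclic.commGroup (α := commutator M)
    have h1 : (⟨c, hcc⟩ : commutator M) * ⟨d, hdd⟩ = ⟨d, hdd⟩ * ⟨c, hcc⟩ := mul_comm _ _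
    have h2 := congrArg (fun z : commutator M => ((z : M) : G)) h1
    exact h2
  · rintro x hx _ ⟨c, hcc, rfl⟩
    refine ⟨⟨x, hx⟩ * c * ⟨x, hx⟩⁻¹, ?_, ?_⟩
    · exact (inferInstance : (commutator M).Normal).conj_mem c hcc ⟨x, hx⟩
    · simp
  · intro x hx
    exact ⟨⟨x, hx⟩ ^ (commutator M).index, (commutator M).pow_index_mem _, by simp⟩
  · rintro _ ⟨c, hcc, rfl⟩
    have h1 : (⟨c, hcc⟩ : commutator M) ^ Nat.card (commutator M) = 1 := pow_card_eq_one'
    have h2 : c ^ Nat.card (commutator M) = 1 := congrArg Subtype.val h1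
    have h3 := congrArg (fun z : M => (z : G)) h2
    exact h3

theorem mem_zpowers_of_prime {G : Type*} [Group G] {s t : G} (hs : s ∈ Subgroup.zpowers t)
    (hp : (orderOf t).Prime) (hs1 : s ≠ 1) : t ∈ Subgroup.zpowers s := by
  have h1 : orderOf s ∣ orderOf t := orderOf_dvd_of_mem_zpowers hs
  have h2 : orderOf s = orderOf t := by
    rcases (Nat.dvd_prime hp).1 h1 with h3 | h3
    · exact absurd (orderOf_eq_one_iff.1 h3) hs1
    · exact h3
  exact mem_zpowers_of_orderOf_eq (Subgroup.mem_zpowers t) hs h2.symm (by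
    rw [h2]; exact hp.ne_zero)

/-- The kernel and the image of `c ↦ ⁅c, x⁆` intersect trivially. -/
theorem commutator_eq_one_of {G : Type*} [Group G] {C : Subgroup G} {c x : G} {I N : ℕ}
    (hco : Nat.Coprime N I) (hxI : x ^ I ∈ C) (hN : ∀ c ∈ C, c ^ N = 1)
    (hC : ∀ c ∈ C, ∀ d ∈ C, Commute c d) (hc : c ∈ C) (hcx : ⁅c, x⁆ ∈ C)
    (h : Commute ⁅c, x⁆ x) : ⁅c, x⁆ = 1 := by
  have h1 : ⁅x, c⁆ = ⁅c, x⁆⁻¹ := (commutatorElement_inv c x).symm
  have h2 : Commute ⁅x, c⁆ x := by rw [h1]; exact h.inv_left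
  have h3 := commutator_pow_left x c h2 I
  rw [commutatorElement_eq_one_iff_commute.2 (hC _ hxI c hc)] at h3
  have h4 : ⁅c, x⁆ ^ I = 1 := by
    rw [h1, inv_pow] at h3
    exact inv_eq_one.1 h3.symm
  have h5 : orderOf ⁅c, x⁆ ∣ Nat.gcd N I :=
    Nat.dvd_gcd (orderOf_dvd_of_pow_eq_one (hN _ hcx)) (orderOf_dvd_of_pow_eq_one h4)
  rw [hco] at h5
  exact orderOf_eq_one_iff.1 (Nat.dvd_one.1 h5)

section

variable {G : Type u} [Group G] (h : RC G) (hq : NoQ G) (ht : ∀ g : G, IsOfFinOrder g)

include h hq ht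

theorem per_unique {r s t : G} (hs : (orderOf s).Prime) (hst : orderOf s = orderOf t)
    (hrs : r * s * r⁻¹ ∈ Subgroup.zpowers s) (hrt : r * t * r⁻¹ ∈ Subgroup.zpowers t)
    (hns : ¬ Commute r s) (hnt : ¬ Commute r t) : t ∈ Subgroup.zpowers s := by
  set L := Subgroup.closure ({s, t} : Set G) with hL
  have hfin : Finite L := finite_closure_pair h ht s t
  have hsL : s ∈ L := Subgroup.subset_closure (by simp)
  have htL : t ∈ L := Subgroup.subset_closure (by simp)
  have hn : ∀ l ∈ L, r * l * r⁻¹ ∈ L := by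
    intro l hl
    have h1 : L ≤ L.comap (MulAut.conj r).toMonoidHom := by
      conv_lhs => rw [hL]
      rw [Subgroup.closure_le]
      intro g hg
      rcases hg with rfl | hg
      · exact (Subgroup.zpowers_le.2 hsL) hrs
      · rw [Set.mem_singleton_iff] at hg
        rw [hg]
        exact (Subgroup.zpowers_le.2 htL) hrt
    exact h1 hl
  obtain ⟨M, hM, hLM, hrM⟩ := exists_finite_sup L r (ht r) hn
  obtain ⟨C, -, hcom, hcc, -, -⟩ := zfacts h.cc hq M
  have hsC : s ∈ C := by
    have h1 : ⁅r, s⁆ ∈ Subgroup.zpowers s := by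
      rw [commutatorElement_def]
      exact Subgroup.mul_mem _ hrs (Subgroup.inv_mem _ (Subgroup.mem_zpowers s))
    have h2 := mem_zpowers_of_prime h1 hs
      (fun h3 => hns (commutatorElement_eq_one_iff_commute.1 h3))
    exact (Subgroup.zpowers_le.2 (hcom r hrM s (hLM hsL))) h2
  have htC : t ∈ C := by
    have h1 : ⁅r, t⁆ ∈ Subgroup.zpowers t := by
      rw [commutatorElement_def]
      exact Subgroup.mul_mem _ hrt (Subgroup.inv_mem _ (Subgroup.mem_zpowers t))
    have h2 := mem_zpowers_of_prime h1 (hst ▸ hs)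
      (fun h3 => hnt (commutatorElement_eq_one_iff_commute.1 h3))
    exact (Subgroup.zpowers_le.2 (hcom r hrM t (hLM htL))) h2
  exact h.mem_zpowers (hcc t htC s hsC) hst.symm hs.ne_zero

omit h hq ht in
theorem zpowers_conj_mem {r s g : G} (hrs : r * s * r⁻¹ ∈ Subgroup.zpowers s)
    (hg : g ∈ Subgroup.zpowers s) : r * g * r⁻¹ ∈ Subgroup.zpowers s := by
  obtain ⟨k, rfl⟩ := hg
  simp only
  rw [← conj_zpow]
  exact Subgroup.zpow_mem _ hrs k

theorem per_normal {x s : G} (hs : (orderOf s).Prime) (hxs : x * s * x⁻¹ ∈ Subgroup.zpowers s)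
    (hns : ¬ Commute x s) (g : G) : g * s * g⁻¹ ∈ Subgroup.zpowers s := by
  have hconjo : ∀ g s : G, orderOf (g * s * g⁻¹) = orderOf s := by
    intro g s
    have := orderOf_injective (MulAut.conj g).toMonoidHom (MulAut.conj g).injective s
    simpa using this
  set H := Subgroup.closure ({s, g} : Set G) with hH
  have hfin : Finite H := finite_closure_pair h ht s g
  have hsH : s ∈ H := Subgroup.subset_closure (by simp)
  have hgH : g ∈ H := Subgroup.subset_closure (by simp)
  obtain ⟨C, hCH, hcom, hcc, hcn, I, N, hco, hI, hN⟩ := zfacts h.cc hq H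
  by_cases hall : ∀ c ∈ C, Commute c s
  · have h1 : g * s * g⁻¹ = ⁅g, s⁆ * s := by
      rw [commutatorElement_def]; group
    apply h.mem_zpowers _ (hconjo g s) hs.ne_zero
    rw [h1]
    exact (hall _ (hcom g hgH s hsH)).mul_left (Commute.refl s)
  · exfalso
    push Not at hall
    obtain ⟨c, hc, hcs⟩ := hall
    have hc1 : ⁅c, s⁆ ≠ 1 := fun h1 => hcs (commutatorElement_eq_one_iff_commute.1 h1)
    have hcC : ⁅c, s⁆ ∈ C := hcom c (hCH hc) s hsH
    obtain ⟨p, hp, hpd⟩ := Nat.exists_prime_and_dvd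
      (fun h1 : orderOf ⁅c, s⁆ = 1 => hc1 (orderOf_eq_one_iff.1 h1))
    set m := orderOf ⁅c, s⁆ / p with hm
    have hto : orderOf (⁅c, s⁆ ^ m) = p :=
      orderOf_pow_orderOf_div (ht _).orderOf_pos.ne' hpd
    have htc : ⁅c ^ m, s⁆ = ⁅c, s⁆ ^ m := commutator_pow_left c s (hcc _ hcC c hc) m
    set t := ⁅c ^ m, s⁆ with htdef
    rw [← htc] at hto
    have htC : t ∈ C := hcom _ (hCH (C.pow_mem hc m)) s hsH
    have ht1 : t ≠ 1 := by
      intro h1
      rw [h1, orderOf_one] at hto
      exact hp.one_lt.ne hto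
    have htp : (orderOf t).Prime := by rw [hto]; exact hp
    have hts : ¬ Commute t s := by
      intro h1
      exact ht1 (commutator_eq_one_of hco (hI s hsH) hN hcc (C.pow_mem hc m) htC h1)
    have hst : s * t * s⁻¹ ∈ Subgroup.zpowers t :=
      h.mem_zpowers (hcc _ (hcn s hsH t htC) t htC) (hconjo s t) htp.ne_zero
    -- `x⁻¹ * s * x` is a power of `s`
    have hgen : s ∈ Subgroup.zpowers (x * s * x⁻¹) :=
      mem_zpowers_of_prime hxs hs (by
        intro h1
        have := hconjo x s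
        rw [h1, orderOf_one] at this
        exact hs.one_lt.ne this)
    obtain ⟨k, hk⟩ := hgen
    simp only at hk
    have hk' : x⁻¹ * s * x = s ^ k := by
      have h1 : x⁻¹ * (x * s * x⁻¹) ^ k * x = s ^ k := by
        rw [conj_zpow]; group
      rw [hk] at h1
      exact h1
    have hnorm : ∀ k : ℤ, s ^ k * t * (s ^ k)⁻¹ ∈ Subgroup.zpowers t := by
      have hpos : ∀ n : ℕ, s ^ n * t * (s ^ n)⁻¹ ∈ Subgroup.zpowers t := by
        intro n
        induction n with
        | zero => simp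
        | succ n ihn =>
          have h1 : s ^ (n + 1) * t * (s ^ (n + 1))⁻¹ = s * (s ^ n * t * (s ^ n)⁻¹) * s⁻¹ := by
            rw [pow_succ']; group
          rw [h1]
          exact zpowers_conj_mem hst ihn
      intro k
      have h1 : s ^ k = s ^ ((k % (orderOf s : ℤ)).toNat) := by
        have h2 : 0 ≤ k % (orderOf s : ℤ) :=
          Int.emod_nonneg _ (by exact_mod_cast hs.ne_zero)
        rw [← zpow_natCast, Int.toNat_of_nonneg h2, zpow_mod_orderOf]
      rw [h1]
      exact hpos _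
    have hxt : x * t * x⁻¹ ∈ Subgroup.zpowers t := by
      apply per_unique h hq ht htp (hconjo x t).symm hst _ (fun h1 => hts h1.symm) _
      · have h1 : s * (x * t * x⁻¹) * s⁻¹ = x * ((x⁻¹ * s * x) * t * (x⁻¹ * s * x)⁻¹) * x⁻¹ := by
          group
        rw [h1, hk']
        obtain ⟨j, hj⟩ := hnorm k
        simp only at hj
        rw [← hj, ← conj_zpow]
        exact Subgroup.zpow_mem _ (Subgroup.mem_zpowers _) j
      · intro h1
        apply hts
        have h2 : Commute t (x⁻¹ * s * x) := (commute_conj_iff x t s).1 h1.symm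
        rw [hk'] at h2
        have h3 : s ∈ Subgroup.zpowers (s ^ k) := by
          apply mem_zpowers_of_prime (Subgroup.zpow_mem _ (Subgroup.mem_zpowers s) k) hs
          intro h4
          rw [h4] at hk'
          have h5 : s = 1 := by
            have : s = x * (x⁻¹ * s * x) * x⁻¹ := by group
            rw [this, hk']; group
          rw [h5, orderOf_one] at hs
          exact Nat.not_prime_one hs
        obtain ⟨l, hl⟩ := h3
        simp only at hl
        rw [← hl]
        exact h2.zpow_right l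
    -- now `x` and `s` both act on `zpowers t`
    obtain ⟨i, hi⟩ := hxt
    obtain ⟨j, hj⟩ := hst
    simp only at hi hj
    have h1 : x * s * t * (x * s)⁻¹ = t ^ (i * j) := by
      have : x * s * t * (x * s)⁻¹ = x * (s * t * s⁻¹) * x⁻¹ := by group
      rw [this, ← hj, ← conj_zpow, ← hi, zpow_mul]
    have h2 : s * x * t * (s * x)⁻¹ = t ^ (i * j) := by
      have : s * x * t * (s * x)⁻¹ = s * (x * t * x⁻¹) * s⁻¹ := by group
      rw [this, ← hi, ← conj_zpow, ← hj, mul_comm i j, zpow_mul]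
    have h3 : Commute ⁅x, s⁆ (t ^ (i * j)) := by
      have h4 : ⁅x, s⁆ * (s * x * t * (s * x)⁻¹) * ⁅x, s⁆⁻¹ = x * s * t * (x * s)⁻¹ := by
        rw [commutatorElement_def]; group
      rw [h1, h2] at h4
      exact mul_inv_eq_iff_eq_mul.1 h4
    have h4 : t ∈ Subgroup.zpowers (t ^ (i * j)) := by
      apply mem_zpowers_of_prime (Subgroup.zpow_mem _ (Subgroup.mem_zpowers t) _) htp
      intro h5
      rw [h5] at h1
      apply ht1
      have : t = (x * s)⁻¹ * (x * s * t * (x * s)⁻¹) * (x * s) := by group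
      rw [this, h1]; group
    obtain ⟨l, hl⟩ := h4
    simp only at hl
    have h5 : Commute ⁅x, s⁆ t := by
      rw [← hl]; exact h3.zpow_right l
    have h6 : ⁅x, s⁆ ∈ Subgroup.zpowers s := by
      rw [commutatorElement_def]
      exact Subgroup.mul_mem _ hxs (Subgroup.inv_mem _ (Subgroup.mem_zpowers s))
    have h7 : s ∈ Subgroup.zpowers ⁅x, s⁆ := mem_zpowers_of_prime h6 hs
      (fun h8 => hns (commutatorElement_eq_one_iff_commute.1 h8))
    obtain ⟨l', hl'⟩ := h7
    simp only at hl'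
    apply hts
    rw [← hl']
    exact (h5.symm).zpow_right l'

theorem metabelian_of_torsion (x y z w : G) : Commute ⁅x, y⁆ ⁅z, w⁆ := by
  have hconjo : ∀ g s : G, orderOf (g * s * g⁻¹) = orderOf s := by
    intro g s
    have := orderOf_injective (MulAut.conj g).toMonoidHom (MulAut.conj g).injective s
    simpa using this
  set E : Set G := {s | (orderOf s).Prime ∧ ∀ g : G, g * s * g⁻¹ ∈ Subgroup.zpowers s} with hE
  set D := Subgroup.centralizer E with hD
  have hcomD : ∀ x y : G, ⁅x, y⁆ ∈ D := by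
    intro x y
    rw [hD, Subgroup.mem_centralizer_iff]
    rintro t ⟨htp, hn⟩
    obtain ⟨i, hi⟩ := hn x
    obtain ⟨j, hj⟩ := hn y
    simp only at hi hj
    have ht1 : t ≠ 1 := by
      rintro rfl
      rw [orderOf_one] at htp
      exact Nat.not_prime_one htp
    have h1 : x * y * t * (x * y)⁻¹ = t ^ (i * j) := by
      have : x * y * t * (x * y)⁻¹ = x * (y * t * y⁻¹) * x⁻¹ := by group
      rw [this, ← hj, ← conj_zpow, ← hi, zpow_mul]
    have h2 : y * x * t * (y * x)⁻¹ = t ^ (i * j) := by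
      have : y * x * t * (y * x)⁻¹ = y * (x * t * x⁻¹) * y⁻¹ := by group
      rw [this, ← hi, ← conj_zpow, ← hj, mul_comm i j, zpow_mul]
    have h3 : Commute ⁅x, y⁆ (t ^ (i * j)) := by
      have h4 : ⁅x, y⁆ * (y * x * t * (y * x)⁻¹) * ⁅x, y⁆⁻¹ = x * y * t * (x * y)⁻¹ := by
        rw [commutatorElement_def]; group
      rw [h1, h2] at h4
      exact mul_inv_eq_iff_eq_mul.1 h4
    have h4 : t ∈ Subgroup.zpowers (t ^ (i * j)) := by
      apply mem_zpowers_of_prime (Subgroup.zpow_mem _ (Subgroup.mem_zpowers t) _) htp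
      intro h5
      rw [h5] at h1
      apply ht1
      have : t = (x * y)⁻¹ * (x * y * t * (x * y)⁻¹) * (x * y) := by group
      rw [this, h1]; group
    obtain ⟨l, hl⟩ := h4
    simp only at hl
    have h5 : Commute ⁅x, y⁆ t := by
      rw [← hl]; exact h3.zpow_right l
    exact h5.eq.symm
  have hDc : ∀ x ∈ D, ∀ y ∈ D, Commute x y := by
    intro x hx y hy
    by_contra hxy
    set H := Subgroup.closure ({x, y} : Set G) with hH
    have hfin : Finite H := finite_closure_pair h ht x y
    have hxH : x ∈ H := Subgroup.subset_closure (by simp)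
    have hyH : y ∈ H := Subgroup.subset_closure (by simp)
    have hHD : H ≤ D := by
      rw [hH, Subgroup.closure_le]
      intro g hg
      rcases hg with rfl | hg
      · exact hx
      · rw [Set.mem_singleton_iff] at hg
        rw [hg]; exact hy
    obtain ⟨C, hCH, hcom, hcc, hcn, I, N, hco, hI, hN⟩ := zfacts h.cc hq H
    have hex : ∃ g ∈ H, ∃ c ∈ C, ¬ Commute c g := by
      by_contra hcon
      push Not at hcon
      apply hxy
      have h1 : ⁅x, y⁆ ∈ C := hcom x hxH y hyH
      have h2 := commutator_pow_left x y (hcon x hxH _ h1) I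
      have h3 : Commute (x ^ I) y := hcon y hyH _ (hI x hxH)
      rw [commutatorElement_eq_one_iff_commute.2 h3] at h2
      have h5 : orderOf ⁅x, y⁆ ∣ Nat.gcd N I :=
        Nat.dvd_gcd (orderOf_dvd_of_pow_eq_one (hN _ h1)) (orderOf_dvd_of_pow_eq_one h2.symm)
      rw [hco] at h5
      exact commutatorElement_eq_one_iff_commute.1 (orderOf_eq_one_iff.1 (Nat.dvd_one.1 h5))
    obtain ⟨g, hg, c, hc, hcg⟩ := hex
    have hc1 : ⁅c, g⁆ ≠ 1 := fun h1 => hcg (commutatorElement_eq_one_iff_commute.1 h1)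
    have hcC : ⁅c, g⁆ ∈ C := hcom c (hCH hc) g hg
    obtain ⟨p, hp, hpd⟩ := Nat.exists_prime_and_dvd
      (fun h1 : orderOf ⁅c, g⁆ = 1 => hc1 (orderOf_eq_one_iff.1 h1))
    set m := orderOf ⁅c, g⁆ / p with hm
    have hto : orderOf (⁅c, g⁆ ^ m) = p :=
      orderOf_pow_orderOf_div (ht _).orderOf_pos.ne' hpd
    have htc : ⁅c ^ m, g⁆ = ⁅c, g⁆ ^ m := commutator_pow_left c g (hcc _ hcC c hc) m
    set t := ⁅c ^ m, g⁆ with htdef
    rw [← htc] at hto
    have htC : t ∈ C := hcom _ (hCH (C.pow_mem hc m)) g hg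
    have ht1 : t ≠ 1 := by
      intro h1
      rw [h1, orderOf_one] at hto
      exact hp.one_lt.ne hto
    have htp : (orderOf t).Prime := by rw [hto]; exact hp
    have htg : ¬ Commute t g := by
      intro h1
      exact ht1 (commutator_eq_one_of hco (hI g hg) hN hcc (C.pow_mem hc m) htC h1)
    have hgt : g * t * g⁻¹ ∈ Subgroup.zpowers t :=
      h.mem_zpowers (hcc _ (hcn g hg t htC) t htC) (hconjo g t) htp.ne_zero
    have hnorm := per_normal h hq ht htp hgt (fun h1 => htg h1.symm)
    have htE : t ∈ E := ⟨htp, hnorm⟩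
    exact htg (Subgroup.mem_centralizer_iff.1 (hHD hg) t htE)
  exact hDc _ (hcomD x y) _ (hcomD z w)

omit ht in
/-- Binary soluble groups with locally cyclic abelian subgroups and no quaternion subgroup of
order eight are metabelian. -/
theorem RC.metabelian (x y z w : G) : Commute ⁅x, y⁆ ⁅z, w⁆ := by
  by_cases hinf : ∃ a : G, Inf a
  · obtain ⟨a, ha⟩ := hinf
    exact h.metabelian_of_inf ha x y z w
  · push Not at hinf
    refine metabelian_of_torsion h hq ?_ x y z w
    intro g
    by_contra hg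
    exact hinf g ((Inf.iff_not_isOfFinOrder g).2 hg)

end

end Pool.Agent.Lib.MP_544a1b_al
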