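import Pool.Agent.Lib.MP_544a1b_al.Tri

/-! Binary soluble groups all of whose abelian subgroups are locally cyclic are soluble. -/

set_option autoImplicit false

universe u

namespace Pool.Agent.Lib.MP_544a1b_al

open Subgroup
open scoped commutatorElement

theorem conj_closure_pair {G : Type*} [Group G] {x y g : G}
    (h1 : g * x * g⁻¹ ∈ Subgroup.closure ({x, y} : Set G))
    (h2 : g * y * g⁻¹ ∈ Subgroup.closure ({x, y} : Set G)) {q : G}
    (hq : q ∈ Subgroup.closure ({x, y} : Set G)) :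
    g * q * g⁻¹ ∈ Subgroup.closure ({x, y} : Set G) := by
  have h3 : Subgroup.closure ({x, y} : Set G) ≤
      (Subgroup.closure ({x, y} : Set G)).comap (MulAut.conj g).toMonoidHom := by
    rw [Subgroup.closure_le]
    intro u hu
    rcases hu with rfl | hu
    · exact h1
    · rw [Set.mem_singleton_iff] at hu
      rw [hu]; exact h2
  exact h3 hq

theorem mem_nz_of_conj {G : Type*} [Group G] {x y g : G} (hg : IsOfFinOrder g)
    (h1 : g * x * g⁻¹ ∈ Subgroup.closure ({x, y} : Set G))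
    (h2 : g * y * g⁻¹ ∈ Subgroup.closure ({x, y} : Set G)) : g ∈ Nz x y := by
  have hpow : ∀ n : ℕ, ∀ q ∈ Subgroup.closure ({x, y} : Set G),
      g ^ n * q * (g ^ n)⁻¹ ∈ Subgroup.closure ({x, y} : Set G) := by
    intro n
    induction n with
    | zero => intro q hq; simpa using hq
    | succ n ih =>
      intro q hq
      have h3 : g ^ (n + 1) * q * (g ^ (n + 1))⁻¹ = g * (g ^ n * q * (g ^ n)⁻¹) * g⁻¹ := by
        rw [pow_succ']; group
      rw [h3]
      exact conj_closure_pair h1 h2 (ih q hq)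
  have hinv : g⁻¹ = g ^ (orderOf g - 1) := by
    symm
    apply eq_inv_of_mul_eq_one_left
    rw [← pow_succ]
    have : orderOf g - 1 + 1 = orderOf g := Nat.sub_add_cancel hg.orderOf_pos
    rw [this, pow_orderOf_eq_one]
  rw [Subgroup.mem_normalizer_iff]
  intro q
  constructor
  · intro hq
    exact conj_closure_pair h1 h2 hq
  · intro hq
    have h3 := hpow (orderOf g - 1) _ hq
    rw [← hinv] at h3
    have h4 : g⁻¹ * (g * q * g⁻¹) * g⁻¹⁻¹ = q := by group
    rw [h4] at h3
    exact h3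

theorem perm_three_dl : derivedSeries (Equiv.Perm (Fin 3)) 2 = ⊥ :=
  derivedSeries_two_eq_bot (fun x y z w =>
    perm_abel _ _ (perm_comm x y) (perm_comm z w))

section

variable {G : Type u} [Group G] (h : RC G) (ht : ∀ g : G, IsOfFinOrder g) {z : G} (hz : UI z)
  (h23 : ∀ g : G, ∀ p : ℕ, p.Prime → p ∣ orderOf g → p < 5)

include h ht hz h23

omit h ht h23 in
theorem tri_exists {x x' y q : G} (hQ : IsQ x x') (hyN : y ∈ Nz x x') (hy : Is3 y)
    (hne : ¬ (Commute y x ∧ Commute y x')) (hq : q ∈ Subgroup.closure ({x, x'} : Set G))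
    (hq2 : q ^ 2 ≠ 1) : Tri z y q ∨ Tri z y q⁻¹ := by
  have hzx : x ^ 2 = z := by
    rcases hz.uni _ hQ.z2 with h4 | h4
    · exact absurd h4 hQ.2.2
    · exact h4
  set Y : Nz x x' := ⟨y, hyN⟩ with hY
  have hσ1 : hQ.phi Y ≠ 1 := fun h1 => hne (hy.commute_of_phi hQ (g := Y) h1)
  have hσ3 : hQ.phi Y ^ 3 = 1 := hy.phi_cube hQ (g := Y)
  obtain ⟨i, hqi⟩ := hQ.exists_cl hq hq2
  obtain ⟨d1, d2, d3⟩ := perm_fix _ hσ3 hσ1 i
  set σ := hQ.phi Y with hσ
  have c1 : Cl x x' (y * q * y⁻¹) (σ i) := hQ.phi_conj Y hqi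
  have c2 : Cl x x' (y ^ 2 * q * (y ^ 2)⁻¹) (σ (σ i)) := by
    have h1 := hQ.phi_conj Y c1
    have h2 : y ^ 2 * q * (y ^ 2)⁻¹ = y * (y * q * y⁻¹) * y⁻¹ := by rw [sq]; group
    rw [h2]; exact h1
  set q1 := y * q * y⁻¹ with hq1
  have hqz : q ^ 2 = z := by rw [hQ.cl_sq hqi, hzx]
  have hq1z : q1 ^ 2 = z := by rw [hQ.cl_sq c1, hzx]
  have hinvz : ∀ a : G, a ^ 2 = z → a⁻¹ = z * a := by
    intro a ha
    apply inv_eq_of_mul_eq_one_left
    rw [mul_assoc, ← sq, ha, ← sq, hz.sq]
  have hnc : ¬ Commute q q1 := hQ.cl_not_commute hqi c1 (Ne.symm d1)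
  set p := q * q1 with hp
  have hpQ : p ∈ Subgroup.closure ({x, x'} : Set G) := Subgroup.mul_mem _ hq c1.mem
  have hp2 : p ^ 2 ≠ 1 := by
    intro h1
    apply hnc
    have h2 : q1 = q⁻¹ * p := by rw [hp]; group
    rw [h2]
    apply Commute.mul_right (Commute.refl q).inv_right
    rcases hz.uni _ h1 with h3 | h3
    · rw [h3]; exact Commute.one_right q
    · rw [h3]; exact hz.cen q
  obtain ⟨j, hpj⟩ := hQ.exists_cl hpQ hp2
  have hji : j ≠ i := by
    rintro rfl
    have h1 : Commute p q := hpj.commute hqi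
    apply hnc
    have h2 : q1 = q⁻¹ * p := by rw [hp]; group
    rw [h2]
    exact (Commute.refl q).inv_right.mul_right h1.symm
  have hjs : j ≠ σ i := by
    rintro rfl
    have h1 : Commute p q1 := hpj.commute c1
    apply hnc
    have h2 : q = p * q1⁻¹ := by rw [hp]; group
    rw [h2]
    exact h1.mul_left (Commute.refl q1).inv_left
  have hj : j = σ (σ i) := fin3_eq i (σ i) j (σ (σ i)) (Ne.symm d1) hji hjs d2 d3
  rw [hj] at hpj
  have hcube : Commute (y ^ 3) q := by
    have h1 : Is3 ((Y ^ 3 : Nz x x') : G) := by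
      rw [Subgroup.coe_pow]
      exact hy.pow 3
    have h2 : hQ.phi (Y ^ 3) = 1 := by rw [map_pow]; exact hσ3
    obtain ⟨h3, h4⟩ := h1.commute_of_phi hQ h2
    exact commute_closure h3 h4 hq
  rcases hpj.eq_or c2 with h1 | h1
  · left
    exact ⟨hqz, h1, hcube⟩
  · right
    refine ⟨?_, ?_, hcube.inv_right⟩
    · rw [inv_pow, hqz]; exact hz.inv
    · have h2 : y * q⁻¹ * y⁻¹ = q1⁻¹ := by rw [hq1]; group
      have h3 : y ^ 2 * q⁻¹ * (y ^ 2)⁻¹ = (y ^ 2 * q * (y ^ 2)⁻¹)⁻¹ := by group
      have hgen : ∀ a b : G, z * a * (z * b) = a * b := by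
        intro a b
        have h4 : a * z = z * a := (hz.cen a).eq
        calc z * a * (z * b) = z * (a * z) * b := by group
          _ = (z * z) * (a * b) := by rw [h4]; group
          _ = a * b := by rw [← sq, hz.sq, one_mul]
      rw [h2, h3, ← h1, hinvz q hqz, hinvz q1 hq1z]
      exact hgen q q1

omit h ht h23 in
theorem Tri.conj_all {y v : G} (hT : Tri z y v) (g : G) : Tri z (g * y * g⁻¹) (g * v * g⁻¹) := by
  refine ⟨?_, ?_, ?_⟩
  · rw [conj_pow, hT.sqz, (hz.cen g).eq, mul_inv_cancel_right]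
  · have h1 : g * v * g⁻¹ * (g * y * g⁻¹ * (g * v * g⁻¹) * (g * y * g⁻¹)⁻¹) =
        g * (v * (y * v * y⁻¹)) * g⁻¹ := by group
    rw [h1, hT.mul, conj_pow]; group
  · rw [conj_pow]
    have h1 : g * y ^ 3 * g⁻¹ * (g * v * g⁻¹) = g * (y ^ 3 * v) * g⁻¹ := by group
    have h2 : g * v * g⁻¹ * (g * y ^ 3 * g⁻¹) = g * (v * y ^ 3) * g⁻¹ := by group
    change g * y ^ 3 * g⁻¹ * (g * v * g⁻¹) = g * v * g⁻¹ * (g * y ^ 3 * g⁻¹)
    rw [h1, h2, hT.cube.eq]

theorem claimB {y v : G} (hy : Is3 y) (hv : Tri z y v) (g : G) :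
    g * v * g⁻¹ ∈ Subgroup.closure ({v, y * v * y⁻¹} : Set G) := by
  have hv' := hv.conj_all hz g
  have hy' : Is3 (g * y * g⁻¹) := hy.conj g
  have ho : orderOf (g * y * g⁻¹) = orderOf y := orderOf_conj' g y
  set y' := g * y * g⁻¹ with hy'd
  set v' := g * v * g⁻¹ with hv'd
  have hK : Tri z y v' ∨ Tri z y v'⁻¹ := by
    by_cases hc : Commute y y'
    · have h1 : y' ∈ Subgroup.zpowers y := h.mem_zpowers hc.symm ho hy.ne_zero
      have h2 : y ∈ Subgroup.zpowers y' := h.mem_zpowers hc ho.symm hy'.ne_zero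
      have hQ := hv'.isQ hz
      have hy'N : y' ∈ Nz v' (y' * v' * y'⁻¹) := by
        apply mem_nz_of_conj (ht y')
        · exact y_mem_closure _ _
        · have h3 : y' * (y' * v' * y'⁻¹) * y'⁻¹ = v' * (y' * v' * y'⁻¹) := by
            rw [hv'.mul, sq]; group
          rw [h3]
          exact Subgroup.mul_mem _ (x_mem_closure _ _) (y_mem_closure _ _)
      have hyN : y ∈ Nz v' (y' * v' * y'⁻¹) := (Subgroup.zpowers_le.2 hy'N) h2
      apply tri_exists hz hQ hyN hy
      · rintro ⟨h3, -⟩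
        obtain ⟨j, hj⟩ := h1
        simp only at hj
        have h4 : Commute y' v' := by rw [← hj]; exact h3.zpow_left j
        apply hQ.not_commute
        rw [h4.eq, mul_inv_cancel_right]
      · exact x_mem_closure _ _
      · rw [hv'.sqz]; exact hz.ne
    · obtain ⟨x, x', hQ, hle, -, -, hn1, hn2⟩ := pair h ht hz h23 hy hy' hc
      have hyN : y ∈ Nz x x' := hle (x_mem_closure _ _)
      have hy'N : y' ∈ Nz x x' := hle (y_mem_closure _ _)
      have hv'Q : v' ∈ Subgroup.closure ({x, x'} : Set G) := by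
        have key : ∀ u ∈ Subgroup.closure ({x, x'} : Set G), Tri z y' u →
            v' ∈ Subgroup.closure ({x, x'} : Set G) := by
          intro u hu hTu
          have h1 := claimA hz h ht h23 hy' hTu hv'
          have h2 : Subgroup.closure ({u, y' * u * y'⁻¹} : Set G) ≤
              Subgroup.closure ({x, x'} : Set G) := by
            rw [Subgroup.closure_le]
            intro a ha
            rcases ha with rfl | ha
            · exact hu
            · rw [Set.mem_singleton_iff] at ha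
              rw [ha]
              exact nz_conj hy'N hu
          exact h2 h1
        rcases tri_exists hz hQ hy'N hy' hn2 (x_mem_closure x x') hQ.2.2 with h1 | h1
        · exact key _ (x_mem_closure x x') h1
        · exact key _ (Subgroup.inv_mem _ (x_mem_closure x x')) h1
      exact tri_exists hz hQ hyN hy hn1 hv'Q (by rw [hv'.sqz]; exact hz.ne)
  rcases hK with h1 | h1
  · exact claimA hz h ht h23 hy hv h1
  · exact (Subgroup.inv_mem_iff _).1 (claimA hz h ht h23 hy hv h1)

theorem dl_of_tri {y v : G} (hy : Is3 y) (hv : Tri z y v) : derivedSeries G 5 = ⊥ := by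
  have hQ := hv.isQ hz
  have hB : ∀ g : G, g * v * g⁻¹ ∈ Subgroup.closure ({v, y * v * y⁻¹} : Set G) :=
    claimB h ht hz h23 hy hv
  have hB' : ∀ g : G, g * (y * v * y⁻¹) * g⁻¹ ∈
      Subgroup.closure ({v, y * v * y⁻¹} : Set G) := by
    intro g
    have h1 : g * (y * v * y⁻¹) * g⁻¹ = (g * y) * v * (g * y)⁻¹ := by group
    rw [h1]; exact hB _
  set v1 := y * v * y⁻¹ with hv1
  have hN : ∀ g : G, g ∈ Nz v v1 := fun g => mem_nz_of_conj (ht g) (hB g) (hB' g)
  let ψ : G →* Equiv.Perm (Fin 3) :=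
    hQ.phi.comp ((MonoidHom.id G).codRestrict (Nz v v1) hN)
  have hψ : ∀ g, ψ g = 1 → hQ.phi ⟨g, hN g⟩ = 1 := fun g hg => hg
  set C := Subgroup.centralizer (Subgroup.closure ({v, v1} : Set G) : Set G) with hC
  have hCq : NoQ C := noQ_of_central_four h.cc hQ.orderOf_x C (fun w hw =>
    (Subgroup.mem_centralizer_iff.1 hw v (x_mem_closure _ _)).symm)
  have hCs : derivedSeries C 2 = ⊥ := dl_of_noQ (h.subgroup C) hCq
  have hcomC : ∀ g ∈ ψ.ker, ∀ k ∈ ψ.ker, ⁅g, k⁆ ∈ C := by
    intro g hg k hk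
    have hact : ∀ a : G, ∀ i : Fin 3, Cl v v1 a i → ∀ m ∈ ψ.ker, m * a * m⁻¹ ∈
        Subgroup.zpowers a := by
      intro a i ha m hm
      rcases hQ.phi_eq_one (hψ m hm) ha with h1 | h1
      · have h2 : m * a * m⁻¹ = a := h1
        rw [h2]; exact Subgroup.mem_zpowers a
      · have h2 : m * a * m⁻¹ = a⁻¹ := h1
        rw [h2]; exact Subgroup.inv_mem _ (Subgroup.mem_zpowers a)
    rw [hC, Subgroup.mem_centralizer_iff]
    intro q hq
    have h1 : Commute ⁅g, k⁆ v := comm_act (ht v) (hact v 0 (Or.inl rfl) g hg)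
      (hact v 0 (Or.inl rfl) k hk)
    have h2 : Commute ⁅g, k⁆ v1 := comm_act (ht v1) (hact v1 1 (Or.inl rfl) g hg)
      (hact v1 1 (Or.inl rfl) k hk)
    exact (commute_closure h1 h2 hq).eq.symm
  have hK : derivedSeries ψ.ker 3 = ⊥ := by
    set K := ψ.ker with hKd
    have hCK : derivedSeries (C.subgroupOf K) 2 = ⊥ := by
      let f : C.subgroupOf K →* C :=
        { toFun := fun a => ⟨(a : K), a.2⟩
          map_one' := rfl
          map_mul' := fun _ _ => rfl }
      have hf : Function.Injective f := by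
        intro a b hab
        have h1 := congrArg (fun c : C => (c : G)) hab
        exact Subtype.ext (Subtype.ext h1)
      exact dl_of_injective f hf hCs
    apply dl_of_commutator (C.subgroupOf K) hCK
    intro g k
    rw [Subgroup.mem_subgroupOf]
    exact hcomC g g.2 k k.2
  exact dl_of_ker ψ perm_three_dl hK

/-- The case of `{2, 3}`-groups with a unique involution. -/
theorem dl_23 : derivedSeries G 5 = ⊥ := by
  by_cases hall : ∀ s t : G, Is3 s → Is3 t → Commute s t
  · set T : Set G := {s | Is3 s} with hT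
    have hTn : ∀ s ∈ T, ∀ g : G, g * s * g⁻¹ ∈ Subgroup.zpowers s := by
      intro s hs g
      exact h.mem_zpowers (hall _ _ (hs.conj g) hs) (orderOf_conj' g s) hs.ne_zero
    set Y := Subgroup.centralizer T with hY
    have hcomY : ∀ g k : G, ⁅g, k⁆ ∈ Y := by
      intro g k
      rw [hY, Subgroup.mem_centralizer_iff]
      intro s hs
      exact (comm_act (ht s) (hTn s hs g) (hTn s hs k)).eq.symm
    apply dl_of_commutator Y (n := 4) _ hcomY
    have hfin : ∀ g ∈ Y, ∀ k ∈ Y, Finite (Subgroup.closure ({g, k} : Set G)) :=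
      fun g _ k _ => finite_closure_pair h ht g k
    have hcen : ∀ g ∈ Y, Pi (fun p => ¬ p ≠ 3) g → ∀ y ∈ Y, Commute g y := by
      intro g _ hgp y hy
      have h1 : Is3 g := by
        refine ⟨_, Nat.eq_prime_pow_of_unique_prime_dvd (ht g).orderOf_pos.ne' ?_⟩
        intro d hd hdg
        exact not_not.1 (hgp d hd hdg)
      exact Subgroup.mem_centralizer_iff.1 hy g h1
    apply dl_of_hallSub Y (fun p => p ≠ 3) hfin hcen
    apply solvable_two (h.subgroup _)
    intro g
    refine ⟨_, Nat.eq_prime_pow_of_unique_prime_dvd ?_ ?_⟩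
    · rw [← Subgroup.orderOf_coe]
      exact (ht (g : G)).orderOf_pos.ne'
    · intro d hd hdg
      rw [← Subgroup.orderOf_coe] at hdg
      have h1 : d < 5 := h23 _ d hd hdg
      have h2 : d ≠ 3 := g.2.2 d hd hdg
      have h3 : d ≠ 4 := by
        rintro rfl
        exact absurd hd (by norm_num)
      have := hd.two_le
      omega
  · push Not at hall
    obtain ⟨α, β, hα, hβ, hn⟩ := hall
    obtain ⟨x, x', hQ, hle, -, -, hn1, -⟩ := pair h ht hz h23 hα hβ hn
    have hαN : α ∈ Nz x x' := hle (x_mem_closure _ _)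
    rcases tri_exists hz hQ hαN hα hn1 (x_mem_closure x x') hQ.2.2 with h1 | h1
    · exact dl_of_tri h ht hz h23 hα h1
    · exact dl_of_tri h ht hz h23 hα h1

end

/-- Binary soluble groups all of whose abelian subgroups are locally cyclic are soluble, of
derived length at most seven. -/
theorem RC.dl_seven {G : Type u} [Group G] (h : RC G) : derivedSeries G 7 = ⊥ := by
  by_cases hinf : ∃ a : G, Inf a
  · obtain ⟨a, ha⟩ := hinf
    exact dl_mono (n := 2) (by norm_num)
      (derivedSeries_two_eq_bot (fun x y z w => h.metabelian_of_inf ha x y z w))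
  · push Not at hinf
    have ht : ∀ g : G, IsOfFinOrder g := by
      intro g
      by_contra hg
      exact hinf g ((Inf.iff_not_isOfFinOrder g).2 hg)
    by_cases hq : NoQ G
    · exact dl_mono (by norm_num) (dl_of_noQ h hq)
    obtain ⟨x, y, hQ⟩ := not_noQ_iff.1 hq
    have hz := hQ.ui h ht
    apply reduce23 (n := 5) h ht hz
    intro X hX
    have hX' : ∀ g : X, ∀ p : ℕ, p.Prime → p ∣ orderOf g → p < 5 := by
      intro g p hp hpd
      exact hX g g.2 p hp (by rw [Subgroup.orderOf_coe]; exact hpd)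
    have hXr := h.subgroup X
    have hXt := finOrder_subgroup ht X
    by_cases hqX : NoQ X
    · exact dl_mono (by norm_num) (dl_of_noQ hXr hqX)
    obtain ⟨x', y', hQ'⟩ := not_noQ_iff.1 hqX
    exact dl_23 hXr hXt (hQ'.ui hXr hXt) hX'

end Pool.Agent.Lib.MP_544a1b_al
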