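import Pool.Agent.Lib.MP_544a1b_al.Norm5

/-! Groups whose elements of order prime to a set of primes are central. -/

set_option autoImplicit false

universe u

namespace Pool.Agent.Lib.MP_544a1b_al

open Subgroup
open scoped commutatorElement

/-- All prime divisors of the order satisfy `P`. -/
def Pi {G : Type*} [Group G] (P : ℕ → Prop) (g : G) : Prop :=
  ∀ p : ℕ, p.Prime → p ∣ orderOf g → P p

theorem hall_index {M : Type*} [Group M] [Finite M] (P : ℕ → Prop)
    (hcen : ∀ g : M, Pi (fun p => ¬ P p) g → ∀ y, Commute g y) {q : ℕ} (hq : q.Prime)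
    (hqn : q ∣ (Subgroup.center M).index) : P q := by
  by_contra hPq
  have : Fact q.Prime := ⟨hq⟩
  have h1 : q ∣ Nat.card (M ⧸ Subgroup.center M) := by
    rw [← Subgroup.index_eq_card]; exact hqn
  obtain ⟨u, hu⟩ := exists_prime_orderOf_dvd_card' q h1
  obtain ⟨m, rfl⟩ := QuotientGroup.mk_surjective u
  have hmq : m ^ q ∈ Subgroup.center M := by
    rw [← QuotientGroup.eq_one_iff, QuotientGroup.mk_pow, ← hu]
    exact pow_orderOf_eq_one _
  have hm : m ∈ Subgroup.center M := by
    apply mem_of_primary _ (orderOf m) m rfl (isOfFinOrder_of_finite m).orderOf_pos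
    rintro j ⟨r, k, hr, hrk⟩
    by_cases hPr : P r
    · have hne : q ≠ r := fun h2 => hPq (h2 ▸ hPr)
      have h2 : m ^ j ∈ Subgroup.zpowers ((m ^ j) ^ q) := by
        apply mem_zpowers_pow_of_coprime
        rw [hrk]
        exact Nat.Coprime.pow_right _ ((Nat.coprime_primes hq hr).2 hne)
      have h3 : (m ^ j) ^ q ∈ Subgroup.center M := by
        rw [← pow_mul, mul_comm, pow_mul]
        exact Subgroup.pow_mem _ hmq j
      exact (Subgroup.zpowers_le.2 h3) h2
    · rw [Subgroup.mem_center_iff]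
      intro y
      apply (hcen (m ^ j) _ y).symm.eq
      intro p hp hpd
      rw [hrk] at hpd
      have := (Nat.prime_dvd_prime_iff_eq hp hr).1 (hp.dvd_of_dvd_pow hpd)
      rw [this]; exact hPr
  rw [(QuotientGroup.eq_one_iff m).2 hm, orderOf_one] at hu
  exact hq.one_lt.ne hu

theorem hall_mul_aux {M : Type*} [Group M] [Finite M] (P : ℕ → Prop)
    (hcen : ∀ g : M, Pi (fun p => ¬ P p) g → ∀ y, Commute g y) {g h : M} (hg : Pi P g)
    (hh : Pi P h) : Pi P (g * h) := by
  intro p hp hpd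
  set n := (Subgroup.center M).index with hn
  have h1 : (g * h) ^ n = g ^ n * h ^ n := by
    have h2 := map_mul (MonoidHom.transferCenterPow M) g h
    exact congrArg Subtype.val h2
  have hgn : g ^ n ∈ Subgroup.center M := (Subgroup.center M).pow_index_mem g
  have h2 : Commute (g ^ n) (h ^ n) := (Subgroup.mem_center_iff.1 hgn (h ^ n)).symm
  have h3 : (g * h) ^ (n * (orderOf g * orderOf h)) = 1 := by
    rw [pow_mul, h1, h2.mul_pow, ← pow_mul, ← pow_mul]
    have e1 : n * (orderOf g * orderOf h) = orderOf g * (n * orderOf h) := by ring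
    have e2 : n * (orderOf g * orderOf h) = orderOf h * (n * orderOf g) := by ring
    rw [show g ^ (n * (orderOf g * orderOf h)) = 1 by
        rw [e1, pow_mul, pow_orderOf_eq_one, one_pow],
      show h ^ (n * (orderOf g * orderOf h)) = 1 by
        rw [e2, pow_mul, pow_orderOf_eq_one, one_pow], one_mul]
  have h4 := hpd.trans (orderOf_dvd_of_pow_eq_one h3)
  rcases (Nat.Prime.dvd_mul hp).1 h4 with h5 | h5
  · exact hall_index P hcen hp h5
  · rcases (Nat.Prime.dvd_mul hp).1 h5 with h6 | h6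
    · exact hg p hp h6
    · exact hh p hp h6

theorem hall_comm_aux {M : Type*} [Group M] [Finite M] (P : ℕ → Prop)
    (hcen : ∀ g : M, Pi (fun p => ¬ P p) g → ∀ y, Commute g y) (g h : M) : Pi P ⁅g, h⁆ := by
  intro p hp hpd
  have h1 : ⁅g, h⁆ ^ (Subgroup.center M).index = 1 := by
    have h2 := map_commutatorElement (MonoidHom.transferCenterPow M) g h
    have h4 : ⁅MonoidHom.transferCenterPow M g, MonoidHom.transferCenterPow M h⁆ = 1 := by
      rw [commutatorElement_eq_one_iff_mul_comm]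
      apply Subtype.ext
      exact Subgroup.mem_center_iff.1 (MonoidHom.transferCenterPow M h).2 _
    rw [h4] at h2
    exact congrArg Subtype.val h2
  exact hall_index P hcen hp (hpd.trans (orderOf_dvd_of_pow_eq_one h1))

section

variable {G : Type*} [Group G] (Y : Subgroup G) (P : ℕ → Prop)
  (hfin : ∀ g ∈ Y, ∀ h ∈ Y, Finite (Subgroup.closure ({g, h} : Set G)))
  (hcen : ∀ g ∈ Y, Pi (fun p => ¬ P p) g → ∀ y ∈ Y, Commute g y)

include hfin hcen

theorem hall_aux {g h : G} (hg : g ∈ Y) (hh : h ∈ Y) :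
    (Pi P g → Pi P h → Pi P (g * h)) ∧ Pi P ⁅g, h⁆ := by
  set M := Subgroup.closure ({g, h} : Set G) with hM
  have hf : Finite M := hfin g hg h hh
  have hMY : M ≤ Y := by
    rw [hM, Subgroup.closure_le]
    intro k hk
    rcases hk with rfl | hk
    · exact hg
    · rw [Set.mem_singleton_iff] at hk
      rw [hk]; exact hh
  have hgM : g ∈ M := Subgroup.subset_closure (by simp)
  have hhM : h ∈ M := Subgroup.subset_closure (by simp)
  have hPi : ∀ (R : ℕ → Prop) (m : M), Pi R m ↔ Pi R (m : G) := by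
    intro R m
    unfold Pi
    rw [Subgroup.orderOf_coe]
  have hcM : ∀ m : M, Pi (fun p => ¬ P p) m → ∀ y, Commute m y := by
    intro m hm y
    apply Subtype.ext
    exact (hcen m (hMY m.2) ((hPi _ m).1 hm) y (hMY y.2)).eq
  constructor
  · intro h1 h2
    exact (hPi P _).1 (hall_mul_aux P hcM ((hPi P ⟨g, hgM⟩).2 h1) ((hPi P ⟨h, hhM⟩).2 h2))
  · exact (hPi P _).1 (hall_comm_aux P hcM ⟨g, hgM⟩ ⟨h, hhM⟩)

/-- The subgroup of `P`-elements of `Y`. -/
def hallSub : Subgroup G where
  carrier := {g | g ∈ Y ∧ Pi P g}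
  mul_mem' := by
    rintro a b ⟨ha, ha'⟩ ⟨hb, hb'⟩
    exact ⟨Y.mul_mem ha hb, (hall_aux Y P hfin hcen ha hb).1 ha' hb'⟩
  one_mem' := by
    refine ⟨Y.one_mem, ?_⟩
    intro p hp hpd
    rw [orderOf_one] at hpd
    exact absurd (Nat.dvd_one.1 hpd) hp.one_lt.ne'
  inv_mem' := by
    rintro a ⟨ha, ha'⟩
    refine ⟨Y.inv_mem ha, ?_⟩
    intro p hp hpd
    rw [orderOf_inv] at hpd
    exact ha' p hp hpd

theorem mem_hallSub {g : G} : g ∈ hallSub Y P hfin hcen ↔ g ∈ Y ∧ Pi P g := Iff.rfl

/-- Derived length of `Y` from the derived length of the subgroup of `P`-elements. -/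
theorem dl_of_hallSub {n : ℕ} (hs : derivedSeries (hallSub Y P hfin hcen) n = ⊥) :
    derivedSeries Y (n + 1) = ⊥ := by
  set X := hallSub Y P hfin hcen with hX
  have hXY : X ≤ Y := fun g hg => hg.1
  have h1 : derivedSeries (X.subgroupOf Y) n = ⊥ :=
    dl_of_injective (Subgroup.subgroupOfEquivOfLe hXY).toMonoidHom
      (Subgroup.subgroupOfEquivOfLe hXY).injective hs
  apply dl_of_commutator (X.subgroupOf Y) h1
  intro g h
  rw [Subgroup.mem_subgroupOf]
  exact ⟨(⁅g, h⁆ : Y).2, (hall_aux Y P hfin hcen g.2 h.2).2⟩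

end

end Pool.Agent.Lib.MP_544a1b_al
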