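import Pool.Agent.Lib.MP_544a1b_al.Basic

/-! Isolators of nilpotent subgroups of torsion-free binary nilpotent groups. -/

set_option autoImplicit false

universe u

namespace Pool.Agent.Lib.MP_544a1b_al

open Subgroup
open scoped commutatorElement

theorem TB.exists_isolator_comm {G : Type*} [Group G] (h : TB G) (A : Subgroup G)
    (hA : ∀ a ∈ A, ∀ b ∈ A, Commute a b) :
    ∃ I : Subgroup G, (∀ g, g ∈ I ↔ ∃ n, 0 < n ∧ g ^ n ∈ A) ∧
      ∀ a ∈ I, ∀ b ∈ I, Commute a b := by
  have hc : ∀ a b : G, (∃ n, 0 < n ∧ a ^ n ∈ A) → (∃ n, 0 < n ∧ b ^ n ∈ A) → Commute a b := by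
    rintro a b ⟨n, hn, h1⟩ ⟨m, hm, h2⟩
    exact h.commute_of_pow_pow hn hm (hA _ h1 _ h2)
  refine ⟨{ carrier := {g | ∃ n, 0 < n ∧ g ^ n ∈ A}, mul_mem' := ?_, one_mem' := ?_,
            inv_mem' := ?_ }, fun g => Iff.rfl, fun a ha b hb => hc a b ha hb⟩
  · intro a b ha hb
    have hab := hc a b ha hb
    obtain ⟨n, hn, h1⟩ := ha
    obtain ⟨m, hm, h2⟩ := hb
    refine ⟨n * m, Nat.mul_pos hn hm, ?_⟩
    rw [hab.mul_pow]
    apply A.mul_mem
    · rw [pow_mul]; exact A.pow_mem h1 _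
    · rw [mul_comm n m, pow_mul]; exact A.pow_mem h2 _
  · exact ⟨1, one_pos, by simp⟩
  · rintro a ⟨n, hn, h1⟩
    exact ⟨n, hn, by rw [inv_pow]; exact A.inv_mem h1⟩

theorem iso_of_isolator {G : Type*} [Group G] {A I : Subgroup G}
    (hI : ∀ g, g ∈ I ↔ ∃ n, 0 < n ∧ g ^ n ∈ A) : Iso I := by
  intro x n hn hx
  rw [hI] at hx ⊢
  obtain ⟨m, hm, h1⟩ := hx
  exact ⟨n * m, Nat.mul_pos hn hm, by rw [pow_mul]; exact h1⟩

theorem le_isolator {G : Type*} [Group G] {A I : Subgroup G}
    (hI : ∀ g, g ∈ I ↔ ∃ n, 0 < n ∧ g ^ n ∈ A) : A ≤ I := by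
  intro x hx
  rw [hI]
  exact ⟨1, one_pos, by simpa using hx⟩

theorem mk'_eq_one_iff {G : Type*} [Group G] (Z : Subgroup G) [Z.Normal] (g : G) :
    QuotientGroup.mk' Z g = 1 ↔ g ∈ Z := by
  rw [← MonoidHom.mem_ker, QuotientGroup.ker_mk']

theorem TB.exists_isolator_aux (c : ℕ) : ∀ (G : Type u) [Group G] (_ : TB G) (X : Subgroup G),
    X.lowerCentralSeries c = ⊥ →
      ∃ I : Subgroup G, (∀ g, g ∈ I ↔ ∃ n, 0 < n ∧ g ^ n ∈ X) ∧ I.lowerCentralSeries c = ⊥ := by
  induction c with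
  | zero =>
    intro G _ h X hX
    rw [Subgroup.lowerCentralSeries_zero] at hX
    refine ⟨⊥, ?_, rfl⟩
    intro g
    rw [hX]
    constructor
    · intro hg
      exact ⟨1, one_pos, by simpa using hg⟩
    · rintro ⟨n, hn, hg⟩
      exact h.tf.iso_bot g n hn hg
  | succ c ih =>
    intro G _ h X hX
    have hZcomm : ∀ a ∈ X ⊓ centralizer (X : Set G), ∀ b ∈ X ⊓ centralizer (X : Set G),
        Commute a b := by
      intro a ha b hb
      exact (mem_centralizer_iff.1 hb.2 a ha.1)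
    obtain ⟨Zh, hZ, hZc⟩ := h.exists_isolator_comm _ hZcomm
    set C : Subgroup G := centralizer (Zh : Set G) with hC
    have hCiso : Iso C := h.iso_centralizer _
    have hXC : X ≤ C := by
      intro x hx
      rw [hC, mem_centralizer_iff]
      intro z hz
      obtain ⟨n, hn, h1⟩ := (hZ z).1 hz
      exact (h.commute_of_pow hn (mem_centralizer_iff.1 h1.2 x hx).symm).eq
    have hZC : Zh ≤ C := by
      intro x hx
      rw [hC, mem_centralizer_iff]
      intro z hz
      exact (hZc z hz x hx).eq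
    set B : Subgroup C := Zh.subgroupOf C with hB
    have hBc : B ≤ center C := by
      intro b hb
      rw [mem_center_iff]
      intro g
      apply Subtype.ext
      have h1 : (b : G) ∈ Zh := hb
      exact (mem_centralizer_iff.1 g.2 _ h1).symm
    have hBn : B.Normal := by
      constructor
      intro b hb g
      have h1 := mem_center_iff.1 (hBc hb) g
      rw [h1]
      simpa using hb
    have hBiso : Iso B := (iso_of_isolator hZ).subgroupOf C
    have hTC : TB C := h.subgroup C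
    have hTQ : TB (C ⧸ B) := hTC.quotient B hBiso
    set X' : Subgroup C := X.subgroupOf C with hX'
    have hX'X : X'.map C.subtype = X := by
      rw [hX', map_subgroupOf_eq_of_le hXC]
    have h1 : X'.lowerCentralSeries c ≤ B := by
      intro y hy
      have h2 : (y : G) ∈ X.lowerCentralSeries c := by
        rw [← hX'X, ← map_lowerCentralSeries]
        exact ⟨y, hy, rfl⟩
      have h3 : X.lowerCentralSeries c ≤ centralizer (X : Set G) := by
        rw [← commutator_eq_bot_iff_le_centralizer]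
        exact hX
      exact le_isolator hZ ⟨X.lowerCentralSeries_le_self c h2, h3 h2⟩
    have h2 : (X'.map (QuotientGroup.mk' B)).lowerCentralSeries c = ⊥ := by
      rw [← map_lowerCentralSeries, Subgroup.map_eq_bot_iff, QuotientGroup.ker_mk']
      exact h1
    obtain ⟨J, hJ, hJc⟩ := ih (C ⧸ B) hTQ (X'.map (QuotientGroup.mk' B)) h2
    set I' : Subgroup C := J.comap (QuotientGroup.mk' B) with hI'
    refine ⟨I'.map C.subtype, ?_, ?_⟩
    · intro g
      constructor
      · rintro ⟨g', hg', rfl⟩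
        have h3 : QuotientGroup.mk' B g' ∈ J := hg'
        rw [hJ] at h3
        obtain ⟨n, hn, x, hx, hxg⟩ := h3
        have h4 : x⁻¹ * g' ^ n ∈ B := by
          rw [← mk'_eq_one_iff, map_mul, map_inv, hxg, map_pow]
          simp
        have h5 := (hZ _).1 h4
        obtain ⟨m, hm, h6⟩ := h5
        refine ⟨n * m, Nat.mul_pos hn hm, ?_⟩
        have h7 : Commute x (x⁻¹ * g' ^ n) := mem_center_iff.1 (hBc h4) x
        have h8 : (g' ^ n) ^ m = x ^ m * (x⁻¹ * g' ^ n) ^ m := by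
          rw [← h7.mul_pow]; simp
        have h9 : ((g' ^ (n * m) : C) : G) = (x : G) ^ m * ((x⁻¹ * g' ^ n : C) : G) ^ m := by
          rw [pow_mul, h8]; rfl
        have h10 : C.subtype g' ^ (n * m) = ((g' ^ (n * m) : C) : G) := rfl
        rw [h10, h9]
        exact X.mul_mem (X.pow_mem hx _) h6.1
      · rintro ⟨n, hn, hg⟩
        have hgC : g ∈ C := hCiso g n hn (hXC hg)
        refine ⟨⟨g, hgC⟩, ?_, rfl⟩
        change QuotientGroup.mk' B ⟨g, hgC⟩ ∈ J
        rw [hJ]
        exact ⟨n, hn, ⟨⟨g, hgC⟩ ^ n, hg, by rw [map_pow]⟩⟩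
    · rw [← map_lowerCentralSeries, Subgroup.lowerCentralSeries_succ_eq_bot, Subgroup.map_bot]
      refine le_trans ?_ hBc
      rw [← QuotientGroup.ker_mk' B, ← Subgroup.map_eq_bot_iff, map_lowerCentralSeries, hI',
        Subgroup.map_comap_eq_self_of_surjective (QuotientGroup.mk'_surjective B), hJc]

/-- Isolators of nilpotent subgroups exist and are nilpotent. -/
theorem TB.exists_isolator {G : Type u} [Group G] (h : TB G) (X : Subgroup G)
    (hX : Group.IsNilpotent X) :
    ∃ I : Subgroup G, (∀ g, g ∈ I ↔ ∃ n, 0 < n ∧ g ^ n ∈ X) ∧ Group.IsNilpotent I := by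
  rw [isNilpotent_iff_lowerCentralSeries] at hX
  obtain ⟨c, hc⟩ := hX
  obtain ⟨I, h1, h2⟩ := TB.exists_isolator_aux c G h X hc
  exact ⟨I, h1, Subgroup.isNilpotent_of_lowerCentralSeries_eq_bot h2⟩

end Pool.Agent.Lib.MP_544a1b_al
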