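import Pool.Agent.Lib.MP_544a1b_al.Isolator

/-! Chains of isolated subgroups. -/

set_option autoImplicit false

universe u

namespace Pool.Agent.Lib.MP_544a1b_al

open Subgroup
open scoped commutatorElement

/-- Every chain of isolated subgroups contained in `P` has at most `r` strict steps. -/
def Len {G : Type*} [Group G] (P : Subgroup G) (r : ℕ) : Prop :=
  ∀ f : ℕ → Subgroup G, Monotone f → (∀ i, Iso (f i)) → (∀ i, f i ≤ P) →
    ∀ S : Finset ℕ, (∀ i ∈ S, f i ≠ f (i + 1)) → S.card ≤ r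

/-- Bounded chains. -/
def FL {G : Type*} [Group G] (P : Subgroup G) : Prop := ∃ r, Len P r

theorem Len.mono {G : Type*} [Group G] {P Q : Subgroup G} {r : ℕ} (h : Len Q r) (hPQ : P ≤ Q) :
    Len P r := fun f h1 h2 h3 => h f h1 h2 (fun i => (h3 i).trans hPQ)

theorem FL.mono {G : Type*} [Group G] {P Q : Subgroup G} (h : FL Q) (hPQ : P ≤ Q) :
    FL P := by
  obtain ⟨r, hr⟩ := h
  exact ⟨r, hr.mono hPQ⟩

theorem Len.one_map {G G₁ : Type*} [Group G] [Group G₁] {P : Subgroup G} {P₁ : Subgroup G₁}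
    (Φ₁ : Subgroup G → Subgroup G₁)
    (mono₁ : ∀ D E, Iso D → Iso E → D ≤ E → E ≤ P → Φ₁ D ≤ Φ₁ E)
    (iso₁ : ∀ D, Iso D → D ≤ P → Iso (Φ₁ D))
    (le₁ : ∀ D, Iso D → D ≤ P → Φ₁ D ≤ P₁)
    (inj : ∀ D E, Iso D → Iso E → D ≤ E → E ≤ P → Φ₁ D = Φ₁ E → D = E)
    {a : ℕ} (ha : Len P₁ a) : Len P a := by
  intro f h1 h2 h3 S hS
  refine ha (fun i => Φ₁ (f i)) ?_ (fun i => iso₁ _ (h2 i) (h3 i))
    (fun i => le₁ _ (h2 i) (h3 i)) S ?_
  · intro i j hij
    exact mono₁ _ _ (h2 i) (h2 j) (h1 hij) (h3 j)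
  · intro i hi h4
    exact hS i hi (inj _ _ (h2 i) (h2 _) (h1 (Nat.le_succ i)) (h3 _) h4)

theorem Len.two_maps {G G₁ G₂ : Type*} [Group G] [Group G₁] [Group G₂]
    {P : Subgroup G} {P₁ : Subgroup G₁} {P₂ : Subgroup G₂}
    (Φ₁ : Subgroup G → Subgroup G₁) (Φ₂ : Subgroup G → Subgroup G₂)
    (mono₁ : ∀ D E, Iso D → Iso E → D ≤ E → E ≤ P → Φ₁ D ≤ Φ₁ E)
    (iso₁ : ∀ D, Iso D → D ≤ P → Iso (Φ₁ D))
    (le₁ : ∀ D, Iso D → D ≤ P → Φ₁ D ≤ P₁)
    (mono₂ : ∀ D E, Iso D → Iso E → D ≤ E → E ≤ P → Φ₂ D ≤ Φ₂ E)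
    (iso₂ : ∀ D, Iso D → D ≤ P → Iso (Φ₂ D))
    (le₂ : ∀ D, Iso D → D ≤ P → Φ₂ D ≤ P₂)
    (inj : ∀ D E, Iso D → Iso E → D ≤ E → E ≤ P → Φ₁ D = Φ₁ E → Φ₂ D = Φ₂ E → D = E)
    {a b : ℕ} (ha : Len P₁ a) (hb : Len P₂ b) : Len P (a + b) := by
  classical
  intro f h1 h2 h3 S hS
  have hA := ha (fun i => Φ₁ (f i)) (by
    intro i j hij
    exact mono₁ _ _ (h2 i) (h2 j) (h1 hij) (h3 j)) (fun i => iso₁ _ (h2 i) (h3 i))
    (fun i => le₁ _ (h2 i) (h3 i)) (S.filter (fun i => Φ₁ (f i) ≠ Φ₁ (f (i + 1)))) (by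
      intro i hi
      exact (Finset.mem_filter.1 hi).2)
  have hB := hb (fun i => Φ₂ (f i)) (by
    intro i j hij
    exact mono₂ _ _ (h2 i) (h2 j) (h1 hij) (h3 j)) (fun i => iso₂ _ (h2 i) (h3 i))
    (fun i => le₂ _ (h2 i) (h3 i)) (S.filter (fun i => Φ₂ (f i) ≠ Φ₂ (f (i + 1)))) (by
      intro i hi
      exact (Finset.mem_filter.1 hi).2)
  have hS2 : S ⊆ S.filter (fun i => Φ₁ (f i) ≠ Φ₁ (f (i + 1))) ∪
      S.filter (fun i => Φ₂ (f i) ≠ Φ₂ (f (i + 1))) := by
    intro i hi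
    rw [Finset.mem_union, Finset.mem_filter, Finset.mem_filter]
    by_contra hcon
    push Not at hcon
    exact hS i hi (inj _ _ (h2 i) (h2 _) (h1 (Nat.le_succ i)) (h3 _) (hcon.1 hi) (hcon.2 hi))
  calc S.card ≤ _ := Finset.card_le_card hS2
    _ ≤ _ := Finset.card_union_le _ _
    _ ≤ a + b := add_le_add hA hB

theorem FL.not_strictMono {G : Type*} [Group G] {P : Subgroup G} (h : FL P)
    (f : ℕ → Subgroup G) (hf : StrictMono f) (hi : ∀ i, Iso (f i)) (hP : ∀ i, f i ≤ P) : False := by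
  obtain ⟨r, hr⟩ := h
  have := hr f hf.monotone hi hP (Finset.range (r + 1)) (fun i _ => (hf (Nat.lt_succ_self i)).ne)
  rw [Finset.card_range] at this
  omega

theorem FL.exists_min {G : Type*} [Group G] {P : Subgroup G} (h : FL P)
    (p : Subgroup G → Prop) (hp : ∀ D, p D → Iso D ∧ D ≤ P) (D₀ : Subgroup G) (hD₀ : p D₀) :
    ∃ D, p D ∧ ∀ E, p E → E ≤ D → E = D := by
  by_contra hcon
  push Not at hcon
  obtain ⟨r, hr⟩ := h
  choose g hg1 hg2 hg3 using hcon
  let F : ℕ → {D : Subgroup G // p D} := fun n =>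
    Nat.rec ⟨D₀, hD₀⟩ (fun _ D => ⟨g D.1 D.2, hg1 D.1 D.2⟩) n
  have hF : ∀ n, (F (n + 1)).1 < (F n).1 := fun n =>
    lt_of_le_of_ne (hg2 (F n).1 (F n).2) (hg3 (F n).1 (F n).2)
  have hanti : StrictAnti (fun n => (F n).1) := strictAnti_nat_of_succ_lt hF
  have := hr (fun i => (F (r + 1 - i)).1) (by
    intro i j hij
    exact hanti.antitone (by omega)) (fun i => (hp _ (F _).2).1) (fun i => (hp _ (F _).2).2)
    (Finset.range (r + 1)) (by
      intro i hi
      rw [Finset.mem_range] at hi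
      exact (hanti (by omega : r + 1 - (i + 1) < r + 1 - i)).ne)
  rw [Finset.card_range] at this
  omega

theorem exists_max_of_no_chain {α : Type*} [PartialOrder α] (p : α → Prop)
    (hp : ∀ f : ℕ → α, StrictMono f → (∀ i, p (f i)) → False) (D : α) (hD : p D) :
    ∃ M, p M ∧ D ≤ M ∧ ∀ N, p N → M ≤ N → M = N := by
  by_contra hcon
  push Not at hcon
  choose g hg1 hg2 hg3 using hcon
  let F : ℕ → {M : α // p M ∧ D ≤ M} := fun n =>
    Nat.rec ⟨D, hD, le_rfl⟩ (fun _ M => ⟨g M.1 M.2.1 M.2.2, hg1 M.1 M.2.1 M.2.2,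
      M.2.2.trans (hg2 M.1 M.2.1 M.2.2)⟩) n
  have hF : ∀ n, (F n).1 < (F (n + 1)).1 := fun n =>
    lt_of_le_of_ne (hg2 (F n).1 (F n).2.1 (F n).2.2) (hg3 (F n).1 (F n).2.1 (F n).2.2)
  exact hp (fun n => (F n).1) (strictMono_nat_of_lt_succ hF) (fun i => (F i).2.1)

/-- Abelian subgroups of finite Pruefer rank have bounded chains of isolated subgroups. -/
theorem len_of_abelian {G : Type*} [Group G] (A : Subgroup G)
    (hA : ∀ a ∈ A, ∀ b ∈ A, a * b = b * a) (r : ℕ)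
    (hr : ∀ H : Subgroup G, H ≤ A → H.FG →
      ∃ s : Finset G, s.card ≤ r ∧ Subgroup.closure (s : Set G) = H) : Len A r := by
  classical
  intro f h1 h2 h3 S hS
  have hx : ∀ i : S, ∃ x : G, x ∈ f (i + 1) ∧ x ∉ f i := by
    intro i
    have h4 : f i < f (i + 1) := lt_of_le_of_ne (h1 (Nat.le_succ _)) (hS i i.2)
    exact SetLike.exists_of_lt h4
  choose x hx1 hx2 using hx
  have hxA : ∀ i, x i ∈ A := fun i => h3 _ (hx1 i)
  obtain ⟨s, hs1, hs2⟩ := hr (Subgroup.closure (Set.range x)) (by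
    rw [Subgroup.closure_le]
    rintro _ ⟨i, rfl⟩
    exact hxA i) (by
      refine ⟨(Finset.univ.image x), ?_⟩
      rw [Finset.coe_image, Finset.coe_univ, Set.image_univ])
  have hsA : ∀ g ∈ s, g ∈ A := by
    intro g hg
    have h4 : g ∈ Subgroup.closure (s : Set G) := Subgroup.subset_closure hg
    rw [hs2] at h4
    have h5 : Subgroup.closure (Set.range x) ≤ A := by
      rw [Subgroup.closure_le]
      rintro _ ⟨i, rfl⟩
      exact hxA i
    exact h5 h4
  let _ : CommGroup A := { (inferInstance : Group A) with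
    mul_comm := fun a b => Subtype.ext (hA _ a.2 _ b.2) }
  let v : S → Additive A := fun i => Additive.ofMul ⟨x i, hxA i⟩
  let w : Finset (Additive A) := s.attach.image (fun g => Additive.ofMul ⟨g.1, hsA g.1 g.2⟩)
  have hw : w.card ≤ r := (Finset.card_image_le.trans (by rw [Finset.card_attach])).trans hs1
  have hspan : ∀ g ∈ Subgroup.closure (s : Set G), ∃ hg : g ∈ A,
      (Additive.ofMul ⟨g, hg⟩ : Additive A) ∈ Submodule.span ℤ (w : Set (Additive A)) := by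
    intro g hg
    induction hg using Subgroup.closure_induction with
    | mem g hg =>
      refine ⟨hsA g hg, Submodule.subset_span ?_⟩
      rw [Finset.mem_coe, Finset.mem_image]
      exact ⟨⟨g, hg⟩, Finset.mem_attach _ _, rfl⟩
    | one => exact ⟨A.one_mem, Submodule.zero_mem _⟩
    | mul a b _ _ ha hb =>
      obtain ⟨ha1, ha2⟩ := ha
      obtain ⟨hb1, hb2⟩ := hb
      exact ⟨A.mul_mem ha1 hb1, Submodule.add_mem _ ha2 hb2⟩
    | inv a _ ha =>
      obtain ⟨ha1, ha2⟩ := ha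
      exact ⟨A.inv_mem ha1, Submodule.neg_mem _ ha2⟩
  have hrange : Set.range v ≤ Submodule.span ℤ (w : Set (Additive A)) := by
    rintro _ ⟨i, rfl⟩
    obtain ⟨_, h4⟩ := hspan (x i) (by
      rw [hs2]; exact Subgroup.subset_closure ⟨i, rfl⟩)
    exact h4
  have hlin : LinearIndependent ℤ v := by
    rw [Fintype.linearIndependent_iff]
    intro c hc i₀
    by_contra hi₀
    obtain ⟨m, hm1, hm2⟩ := Finset.exists_max_image (Finset.univ.filter (fun i : S => c i ≠ 0))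
      (fun i => (i : ℕ)) ⟨i₀, by simpa using hi₀⟩
    have hm1' : c m ≠ 0 := by simpa using hm1
    let F : AddSubgroup (Additive A) := Subgroup.toAddSubgroup ((f m).subgroupOf A)
    rw [← Finset.add_sum_erase _ _ (Finset.mem_univ m)] at hc
    have h4 : c m • v m ∈ F := by
      rw [eq_neg_of_add_eq_zero_left hc]
      apply AddSubgroup.neg_mem
      apply AddSubgroup.sum_mem
      intro i hi
      by_cases hci : c i = 0
      · rw [hci, zero_smul]; exact AddSubgroup.zero_mem _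
      · have h5 : (i : ℕ) ≤ m := hm2 i (by simpa using hci)
        have h6 : (i : ℕ) ≠ m := fun h => (Finset.ne_of_mem_erase hi) (Subtype.ext h)
        apply AddSubgroup.zsmul_mem
        change x i ∈ f m
        exact h1 (by omega : (i : ℕ) + 1 ≤ m) (hx1 i)
    have h5 : (x m) ^ (c m) ∈ f m := h4
    have h6 : (x m) ^ (c m).natAbs ∈ f m := by
      rcases Int.natAbs_eq (c m) with h | h
      · rw [h, zpow_natCast] at h5; exact h5
      · rw [h, zpow_neg, zpow_natCast, inv_mem_iff] at h5; exact h5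
    exact hx2 m (h2 _ _ _ (Int.natAbs_pos.2 hm1') h6)
  have h4 := linearIndependent_le_span' v hlin (w : Set (Additive A)) hrange
  have h5 : Fintype.card ((w : Set (Additive A)) : Type _) = w.card := by
    simp
  rw [h5, Cardinal.mk_fintype, Fintype.card_coe] at h4
  exact (Nat.cast_le.1 h4).trans hw

end Pool.Agent.Lib.MP_544a1b_al
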