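import Pool.Agent.Lib.MP_544a1b_al.Unip

/-! Torsion-free binary nilpotent groups whose abelian subgroups have bounded chains of isolated
subgroups are nilpotent. -/

set_option autoImplicit false

universe u

namespace Pool.Agent.Lib.MP_544a1b_al

open Subgroup
open scoped commutatorElement

theorem FL.of_map_subtype {G : Type*} [Group G] {U : Subgroup G} (hU : Iso U) (A : Subgroup U)
    (h : FL (A.map U.subtype)) : FL A := by
  obtain ⟨r, hr⟩ := h
  refine ⟨r, Len.one_map (fun E => E.map U.subtype) ?_ ?_ ?_ ?_ hr⟩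
  · intro E F _ _ hEF _
    exact Subgroup.map_mono hEF
  · intro E hE _
    exact hU.map_subtype' hE
  · intro E _ hED
    exact Subgroup.map_mono hED
  · intro E F _ _ _ _ hEF
    exact Subgroup.map_injective U.subtype_injective hEF

theorem TB.fl_of_LN {G : Type*} [Group G] (h : TB G)
    (hA : ∀ A : Subgroup G, (∀ a ∈ A, ∀ b ∈ A, Commute a b) → FL A)
    (U : Subgroup G) (hU : Iso U) (hl : LN U) : FL U := by
  apply FL.of_subgroup
  apply (h.subgroup U).fl_top hl
  intro A hAc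
  apply FL.of_map_subtype hU
  apply hA
  rintro _ ⟨a, ha, rfl⟩ _ ⟨b, hb, rfl⟩
  exact congrArg Subtype.val (hAc a ha b hb).eq

theorem LN.of_isNilpotent {G : Type*} [Group G] (h : Group.IsNilpotent G) : LN G :=
  fun _ => inferInstance

theorem LN.iSup {G : Type*} [Group G] (f : ℕ → Subgroup G) (hf : Monotone f)
    (hn : ∀ i, Group.IsNilpotent (f i)) : LN (⨆ i, f i : Subgroup G) := by
  intro s
  have hex : ∀ x : (⨆ i, f i : Subgroup G), ∃ i, (x : G) ∈ f i := by
    intro x
    have := x.2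
    rwa [Subgroup.mem_iSup_of_directed hf.directed_le] at this
  choose ix hix using hex
  apply isNilpotent_of_map (⨆ i, f i : Subgroup G).subtype (Subgroup.subtype_injective _)
  apply isNilpotent_mono _ (hn (s.sup ix))
  rw [MonoidHom.map_closure, Subgroup.closure_le]
  rintro _ ⟨x, hx, rfl⟩
  exact hf (Finset.le_sup hx) (hix x)

theorem exists_normalizing {G : Type*} [Group G] {L D : Subgroup G} (hL : Group.IsNilpotent L)
    (hD : D < L) : ∃ x ∈ L, x ∉ D ∧ ∀ g, g ∈ D ↔ x * g * x⁻¹ ∈ D := by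
  have h1 : D.subgroupOf L < ⊤ := by
    rw [lt_top_iff_ne_top]
    intro h2
    rw [Subgroup.subgroupOf_eq_top] at h2
    exact hD.not_ge h2
  have h2 := Group.normalizerCondition_of_isNilpotent (D.subgroupOf L) h1
  obtain ⟨x, hx1, hx2⟩ := SetLike.exists_of_lt h2
  refine ⟨x, x.2, hx2, ?_⟩
  intro g
  rw [Subgroup.mem_normalizer_iff] at hx1
  constructor
  · intro hg
    exact (hx1 ⟨g, hD.le hg⟩).1 hg
  · intro hg
    have h3 : g ∈ L := by
      have h4 := L.mul_mem (L.mul_mem (L.inv_mem x.2) (hD.le hg)) x.2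
      have h5 : (x : G)⁻¹ * (x * g * (x : G)⁻¹) * x = g := by group
      rwa [h5] at h4
    exact (hx1 ⟨g, h3⟩).2 hg

theorem TB.isNilpotent {G : Type u} [Group G] (h : TB G)
    (hA : ∀ A : Subgroup G, (∀ a ∈ A, ∀ b ∈ A, Commute a b) → FL A) : Group.IsNilpotent G := by
  by_contra hG
  have hchain : ∀ f : ℕ → Subgroup G, StrictMono f →
      (∀ i, Iso (f i) ∧ Group.IsNilpotent (f i)) → False := by
    intro f hf hp
    have hUi : Iso (⨆ i, f i) := iso_iSup_of_monotone f hf.monotone (fun i => (hp i).1)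
    have hUl := LN.iSup f hf.monotone (fun i => (hp i).2)
    exact (h.fl_of_LN hA _ hUi hUl).not_strictMono f hf (fun i => (hp i).1) (fun i => le_iSup f i)
  have hmaxex : ∀ D : Subgroup G, Iso D ∧ Group.IsNilpotent D →
      ∃ M, (Iso M ∧ Group.IsNilpotent M) ∧ D ≤ M ∧
        ∀ N, (Iso N ∧ Group.IsNilpotent N) → M ≤ N → M = N :=
    fun D hD => exists_max_of_no_chain (fun D : Subgroup G => Iso D ∧ Group.IsNilpotent D)
      hchain D hD
  -- two distinct maximal members
  obtain ⟨R, hR, -, hRmax⟩ := hmaxex ⊥ ⟨h.tf.iso_bot, inferInstance⟩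
  have hRt : R ≠ ⊤ := by
    intro hcon
    apply hG
    have := hR.2
    rw [hcon] at this
    exact Group.isNilpotent_top.1 this
  obtain ⟨g, hg⟩ : ∃ g, g ∉ R := by
    by_contra hcon
    push Not at hcon
    exact hRt ((Subgroup.eq_top_iff' R).2 hcon)
  have hcyc : Group.IsNilpotent (Subgroup.closure ({g, g} : Set G)) := h.bn g g
  obtain ⟨I, hI, hIn⟩ := h.exists_isolator _ hcyc
  obtain ⟨M, hM, hIM, hMmax⟩ := hmaxex I ⟨iso_of_isolator hI, hIn⟩
  have hgM : g ∈ M := hIM (le_isolator hI (Subgroup.subset_closure (by simp)))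
  have hRM : R ≠ M := by
    intro hcon
    rw [hcon] at hg
    exact hg hgM
  let Mx : Subgroup G → Prop := fun M => (Iso M ∧ Group.IsNilpotent M) ∧
    ∀ N, (Iso N ∧ Group.IsNilpotent N) → M ≤ N → M = N
  have hqp : ∀ D : Subgroup G, (∃ L M, Mx L ∧ Mx M ∧ L ≠ M ∧ D = L ⊓ M) →
      Iso D ∧ Group.IsNilpotent D := by
    rintro D ⟨L, M, hL, hM, _, rfl⟩
    exact ⟨hL.1.1.inf hM.1.1, isNilpotent_mono inf_le_left hL.1.2⟩
  obtain ⟨D, ⟨L, M, hL, hM, hLM, hD⟩, -, hDmax⟩ := exists_max_of_no_chain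
    (fun D : Subgroup G => ∃ L M, Mx L ∧ Mx M ∧ L ≠ M ∧ D = L ⊓ M)
    (fun f hf hp => hchain f hf (fun i => hqp _ (hp i))) (R ⊓ M)
    ⟨R, M, ⟨hR, hRmax⟩, ⟨hM, hMmax⟩, hRM, rfl⟩
  obtain ⟨hDi, hDn⟩ := hqp D ⟨L, M, hL, hM, hLM, hD⟩
  have hDL : D < L := by
    apply lt_of_le_of_ne (hD ▸ inf_le_left)
    intro hcon
    apply hLM
    exact hL.2 M hM.1 (by rw [← hcon, hD]; exact inf_le_right)
  have hDM : D < M := by
    apply lt_of_le_of_ne (hD ▸ inf_le_right)
    intro hcon
    apply hLM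
    exact (hM.2 L hL.1 (by rw [← hcon, hD]; exact inf_le_left)).symm
  obtain ⟨x, hxL, hxD, hxn⟩ := exists_normalizing hL.1.2 hDL
  obtain ⟨y, hyM, hyD, hyn⟩ := exists_normalizing hM.1.2 hDM
  set X : Subgroup G := D ⊔ Subgroup.closure ({x, y} : Set G) with hX
  have hDX : D ≤ X := le_sup_left
  have hNX : Subgroup.closure ({x, y} : Set G) ≤ X := le_sup_right
  have hxX : x ∈ X := hNX (Subgroup.subset_closure (by simp))
  have hyX : y ∈ X := hNX (Subgroup.subset_closure (by simp))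
  have hXn : X ≤ Subgroup.normalizer (D : Set G) := by
    apply sup_le Subgroup.le_normalizer
    rw [Subgroup.closure_le]
    intro z hz
    rw [SetLike.mem_coe, Subgroup.mem_normalizer_iff]
    rcases hz with rfl | hz
    · exact hxn
    · rw [Set.mem_singleton_iff] at hz
      rw [hz]; exact hyn
  have hDXn : (D.subgroupOf X).Normal := by
    constructor
    intro n hn g
    exact ((Subgroup.mem_normalizer_iff.1 (hXn g.2)) (n : G)).1 hn
  have hmapD : (D.subgroupOf X).map X.subtype = D := Subgroup.map_subgroupOf_eq_of_le hDX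
  have hmapN : ((Subgroup.closure ({x, y} : Set G)).subgroupOf X).map X.subtype =
      Subgroup.closure ({x, y} : Set G) := Subgroup.map_subgroupOf_eq_of_le hNX
  obtain ⟨r, hr⟩ := FL.subgroupOf hDi hDX
    (h.fl_of_LN hA D hDi (LN.of_isNilpotent hDn))
  have hXnil : Group.IsNilpotent X := by
    refine TB.nilpotent_of_sup r X (h.subgroup X) (D.subgroupOf X)
      ((Subgroup.closure ({x, y} : Set G)).subgroupOf X) hDXn (hDi.subgroupOf X) ?_ hr ?_ ?_
    · apply isNilpotent_of_map X.subtype X.subtype_injective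
      rw [hmapD]; exact hDn
    · apply isNilpotent_of_map X.subtype X.subtype_injective
      rw [hmapN]; exact h.bn x y
    · apply Subgroup.map_injective X.subtype_injective
      rw [Subgroup.map_sup, hmapD, hmapN, ← MonoidHom.range_eq_map, Subgroup.range_subtype]
  obtain ⟨J, hJ, hJn⟩ := h.exists_isolator X hXnil
  obtain ⟨T, hT, hJT, hTmax⟩ := hmaxex J ⟨iso_of_isolator hJ, hJn⟩
  have hXT : X ≤ T := (le_isolator hJ).trans hJT
  have hTL : T = L := by
    by_contra hne
    have h1 := hDmax (T ⊓ L) ⟨T, L, ⟨hT, hTmax⟩, hL, hne, rfl⟩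
      (le_inf (hDX.trans hXT) hDL.le)
    apply hxD
    rw [h1]
    exact ⟨hXT hxX, hxL⟩
  have hTM : T = M := by
    by_contra hne
    have h1 := hDmax (T ⊓ M) ⟨T, M, ⟨hT, hTmax⟩, hM, hne, rfl⟩
      (le_inf (hDX.trans hXT) hDM.le)
    apply hyD
    rw [h1]
    exact ⟨hXT hyX, hyM⟩
  exact hLM (hTL.symm.trans hTM)

end Pool.Agent.Lib.MP_544a1b_al
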