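import Pool.Agent.Lib.MP_544a1b_al.Act

/-! Elements of prime order at least five. -/

set_option autoImplicit false

universe u

namespace Pool.Agent.Lib.MP_544a1b_al

open Subgroup
open scoped commutatorElement

theorem mem_centralizer_singleton' {G : Type*} [Group G] (a b : G) :
    a ∈ Subgroup.centralizer ({b} : Set G) ↔ Commute a b := by
  rw [Subgroup.mem_centralizer_iff]
  constructor
  · intro h1
    exact (h1 b rfl).symm
  · rintro h1 _ rfl
    exact h1.eq.symm

theorem orderOf_conj' {G : Type*} [Group G] (g s : G) : orderOf (g * s * g⁻¹) = orderOf s :=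
  orderOf_injective (MulAut.conj g).toMonoidHom (MulAut.conj g).injective s

/-- In a normal abelian subgroup every cyclic subgroup is normal. -/
theorem CC.conj_mem {M : Type*} [Group M] (hc : CC M) {N : Subgroup M} (hN : N.Normal)
    (hNc : ∀ a ∈ N, ∀ b ∈ N, Commute a b) {f : M} (hf : f ∈ N) (hfo : IsOfFinOrder f) (m : M) :
    m * f * m⁻¹ ∈ Subgroup.zpowers f :=
  hc.mem_zpowers (hNc _ (hN.conj_mem f hf m) f hf) (orderOf_conj' m f) hfo.orderOf_pos.ne'

/-- A subgroup centralising an element of order four contains no quaternion group. -/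
theorem noQ_of_central_four {M : Type*} [Group M] (hc : CC M) {x : M} (hx : orderOf x = 4)
    (W : Subgroup M) (hWx : ∀ w ∈ W, Commute w x) : NoQ W := by
  intro a b h1 h2
  by_contra h3
  have hab : IsQ (a : M) (b : M) := by
    refine ⟨congrArg Subtype.val h1, congrArg Subtype.val h2, ?_⟩
    intro h4
    exact h3 (Subtype.ext h4)
  have ha : (a : M) ∈ Subgroup.zpowers x :=
    hc.mem_zpowers (hWx a a.2) (hab.orderOf_x.trans hx.symm) (by rw [hx]; norm_num)
  have hb : (b : M) ∈ Subgroup.zpowers x :=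
    hc.mem_zpowers (hWx b b.2) (hab.symm.orderOf_x.trans hx.symm) (by rw [hx]; norm_num)
  apply hab.not_commute
  obtain ⟨i, hi⟩ := ha
  obtain ⟨j, hj⟩ := hb
  simp only at hi hj
  rw [← hi, ← hj]
  exact ((Commute.refl x).zpow_left i).zpow_right j

/-- The centralizer of a quaternion group contains no quaternion group. -/
theorem IsQ.noQ_centralizer {M : Type*} [Group M] (hc : CC M) {x y : M} (hQ : IsQ x y)
    (W : Subgroup M) (hWx : ∀ w ∈ W, Commute w x) : NoQ W :=
  noQ_of_central_four hc hQ.orderOf_x W hWx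

theorem mem_zpowers_pow_of_coprime {G : Type*} [Group G] {s : G} {n : ℕ}
    (hcop : Nat.Coprime n (orderOf s)) : s ∈ Subgroup.zpowers (s ^ n) := by
  obtain ⟨u, v, huv⟩ := Nat.isCoprime_iff_coprime.2 hcop
  refine ⟨u, ?_⟩
  simp only
  rw [← zpow_natCast s n, ← zpow_mul]
  have : (n : ℤ) * u = 1 + (orderOf s : ℤ) * (-v) := by linear_combination huv
  rw [this, zpow_add, zpow_mul s (orderOf s : ℤ), zpow_natCast, pow_orderOf_eq_one, one_zpow,
    zpow_one, mul_one]

theorem Big.coprime_twelve {n : ℕ} (h : Big n) : Nat.Coprime 12 n := by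
  rw [Nat.coprime_iff_gcd_eq_one]
  by_contra hne
  obtain ⟨p, hp, hpd⟩ := Nat.exists_prime_and_dvd hne
  have h1 : p ∣ 12 := hpd.trans (Nat.gcd_dvd_left _ _)
  have h2 : 5 ≤ p := h p hp (hpd.trans (Nat.gcd_dvd_right _ _))
  have h3 : p ∣ 2 ^ 2 * 3 := h1
  rcases (Nat.Prime.dvd_mul hp).1 h3 with h4 | h4
  · have h5 := (Nat.prime_dvd_prime_iff_eq hp Nat.prime_two).1 (hp.dvd_of_dvd_pow h4)
    omega
  · have h5 := (Nat.prime_dvd_prime_iff_eq hp Nat.prime_three).1 h4
    omega

/-- An element of order prime to six which centralises every abelian normal subgroup lies in an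
abelian normal subgroup. -/
theorem exists_abelian_normal {M : Type u} [Group M] [Finite M] (hs : Group.IsSolvable M)
    (hc : CC M) {s : M} (hbig : Big (orderOf s))
    (hcen : ∀ N : Subgroup M, N.Normal → (∀ a ∈ N, ∀ b ∈ N, Commute a b) →
      ∀ n ∈ N, Commute s n) :
    ∃ A : Subgroup M, A.Normal ∧ (∀ a ∈ A, ∀ b ∈ A, Commute a b) ∧ s ∈ A := by
  rcases structure_lemma hs hc with ⟨F, hFn, hFc, hself, -⟩ | ⟨x, y, hQ, hN⟩
  · exact ⟨F, hFn, hFc, hself s (hcen F hFn hFc)⟩
  · set Q := Subgroup.closure ({x, y} : Set M) with hQdef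
    have hxQ : x ∈ Q := Subgroup.subset_closure (by simp)
    have hyQ : y ∈ Q := Subgroup.subset_closure (by simp)
    have hQn : Q.Normal := ⟨fun q hq m => hN m q hq⟩
    set W := Subgroup.centralizer (Q : Set M) with hW
    have hWn : W.Normal := inferInstance
    have hWx : ∀ w ∈ W, Commute w x := fun w hw => (Subgroup.mem_centralizer_iff.1 hw x hxQ).symm
    have hsW : s ∈ W := by
      have h1 : s ∈ Subgroup.zpowers (s ^ 12) := mem_zpowers_pow_of_coprime hbig.coprime_twelve
      obtain ⟨l, hl⟩ := h1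
      simp only at hl
      have hx : Commute s x := by
        rw [← hl]
        exact (hQ.pow_twelve (hN s) hxQ hQ.2.2).zpow_left l
      have hy : Commute s y := by
        rw [← hl]
        exact (hQ.pow_twelve (hN s) hyQ hQ.symm.2.2).zpow_left l
      rw [hW, Subgroup.mem_centralizer_iff]
      intro q hq
      have h2 : Q ≤ Subgroup.centralizer ({s} : Set M) := by
        rw [hQdef, Subgroup.closure_le]
        intro g hg
        rw [SetLike.mem_coe, mem_centralizer_singleton']
        rcases hg with rfl | hg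
        · exact hx.symm
        · rw [Set.mem_singleton_iff] at hg
          rw [hg]; exact hy.symm
      exact ((mem_centralizer_singleton' _ _).1 (h2 hq)).eq
    have hWq : NoQ W := hQ.noQ_centralizer hc W hWx
    have hWc : CC W := hc.subgroup W
    have hz : IsZGroup W := isZGroup_type hWc hWq
    have hcy : IsCyclic (commutator W) := IsZGroup.isCyclic_commutator W
    set D : Subgroup M := ⁅W, W⁆ with hD
    have hDn : D.Normal := inferInstance
    have hDW : D ≤ W := by
      rw [hD, Subgroup.commutator_le]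
      intro a ha b hb
      rw [commutatorElement_def]
      exact W.mul_mem (W.mul_mem (W.mul_mem ha hb) (W.inv_mem ha)) (W.inv_mem hb)
    have hDc : ∀ a ∈ D, ∀ b ∈ D, Commute a b := by
      have hmap : D = (commutator W).map W.subtype := by
        rw [hD, commutator_def, Subgroup.map_commutator, ← MonoidHom.range_eq_map,
          Subgroup.range_subtype]
      let _ := IsCyclic.commGroup (α := commutator W)
      intro a ha b hb
      rw [hmap] at ha hb
      obtain ⟨a', ha', rfl⟩ := ha
      obtain ⟨b', hb', rfl⟩ := hb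
      have h1 : (⟨a', ha'⟩ : commutator W) * ⟨b', hb'⟩ = ⟨b', hb'⟩ * ⟨a', ha'⟩ := mul_comm _ _
      exact congrArg (fun z : commutator W => ((z : W) : M)) h1
    set B := W ⊓ Subgroup.centralizer (D : Set M) with hB
    have hBn : B.Normal := inferInstance
    have hBc : ∀ a ∈ B, ∀ b ∈ B, Commute a b := by
      have hBq : NoQ B := hQ.noQ_centralizer hc B (fun w hw => hWx w hw.1)
      have h1 := comm_of_class_two (hc.subgroup B) hBq (by
        intro a b c
        apply Subtype.ext
        have h2 : ⁅(a : M), (b : M)⁆ ∈ D := Subgroup.commutator_mem_commutator a.2.1 b.2.1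
        have h3 := Subgroup.mem_centralizer_iff.1 c.2.2 _ h2
        exact h3)
      intro a ha b hb
      exact congrArg Subtype.val (h1 ⟨a, ha⟩ ⟨b, hb⟩).eq
    refine ⟨B, hBn, hBc, Subgroup.mem_inf.2 ⟨hsW, ?_⟩⟩
    rw [Subgroup.mem_centralizer_iff]
    intro d hd
    exact (hcen D hDn hDc d hd).eq.symm

section

variable {G : Type u} [Group G] (h : RC G) (ht : ∀ g : G, IsOfFinOrder g)

include h ht

theorem per_unique5 {r s t : G} (hs : (orderOf s).Prime) (h5 : 5 ≤ orderOf s)
    (hst : orderOf s = orderOf t)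
    (hrs : r * s * r⁻¹ ∈ Subgroup.zpowers s) (hrt : r * t * r⁻¹ ∈ Subgroup.zpowers t)
    (hns : ¬ Commute r s) (hnt : ¬ Commute r t) : t ∈ Subgroup.zpowers s := by
  set L := Subgroup.closure ({s, t} : Set G) with hL
  have hfin : Finite L := finite_closure_pair h ht s t
  have hsL : s ∈ L := Subgroup.subset_closure (by simp)
  have htL : t ∈ L := Subgroup.subset_closure (by simp)
  have hn : ∀ l ∈ L, r * l * r⁻¹ ∈ L := by
    intro l hl
    have h1 : L ≤ L.comap (MulAut.conj r).toMonoidHom := by
      conv_lhs => rw [hL]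
      rw [Subgroup.closure_le]
      intro g hg
      rcases hg with rfl | hg
      · exact (Subgroup.zpowers_le.2 hsL) hrs
      · rw [Set.mem_singleton_iff] at hg
        rw [hg]
        exact (Subgroup.zpowers_le.2 htL) hrt
    exact h1 hl
  obtain ⟨M, hM, hMs, hLM, hrM⟩ := exists_finite_soluble_sup L (h.bs s t) r (ht r) hn
  have hcM : CC M := CC.subgroup h.cc M
  -- both elements centralise all abelian normal subgroups of `M`
  have key : ∀ u : G, (orderOf u).Prime → r * u * r⁻¹ ∈ Subgroup.zpowers u → ¬ Commute r u →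
      ∀ (huM : u ∈ M) (N : Subgroup M), N.Normal → (∀ a ∈ N, ∀ b ∈ N, Commute a b) →
        ∀ n ∈ N, Commute (⟨u, huM⟩ : M) n := by
    intro u hu hru hnu huM N hNn hNc n hn'
    have h1 : Commute ⁅(⟨r, hrM⟩ : M), (⟨u, huM⟩ : M)⁆ n :=
      comm_act (isOfFinOrder_of_finite n)
        (hcM.conj_mem hNn hNc hn' (isOfFinOrder_of_finite n) _)
        (hcM.conj_mem hNn hNc hn' (isOfFinOrder_of_finite n) _)
    have h2 : ⁅r, u⁆ ∈ Subgroup.zpowers u := by
      rw [commutatorElement_def]
      exact Subgroup.mul_mem _ hru (Subgroup.inv_mem _ (Subgroup.mem_zpowers u))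
    have h3 := mem_zpowers_of_prime h2 hu
      (fun h4 => hnu (commutatorElement_eq_one_iff_commute.1 h4))
    obtain ⟨l, hl⟩ := h3
    simp only at hl
    have h4 : (⟨u, huM⟩ : M) = ⁅(⟨r, hrM⟩ : M), (⟨u, huM⟩ : M)⁆ ^ l := by
      apply Subtype.ext
      exact hl.symm
    rw [h4]
    exact h1.zpow_left l
  have hs1 := key s hs hrs hns (hLM hsL)
  have ht1 := key t (hst ▸ hs) hrt hnt (hLM htL)
  have hbig : Big (orderOf (⟨s, hLM hsL⟩ : M)) := by
    rw [Subgroup.orderOf_mk]
    exact Big.of_prime hs h5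
  obtain ⟨A, hAn, hAc, hsA⟩ := exists_abelian_normal hMs hcM hbig hs1
  have h1 := ht1 A hAn hAc _ hsA
  have h2 : Commute t s := congrArg Subtype.val h1.eq
  exact h.mem_zpowers h2 hst.symm hs.ne_zero

variable {z : G} (hz : UI z)

include hz

theorem per_normal5 {x s : G} (hs : (orderOf s).Prime) (h5 : 5 ≤ orderOf s)
    (hxs : x * s * x⁻¹ ∈ Subgroup.zpowers s)
    (hns : ¬ Commute x s) (g : G) : g * s * g⁻¹ ∈ Subgroup.zpowers s := by
  set H := Subgroup.closure ({s, g} : Set G) with hH
  have hfin : Finite H := finite_closure_pair h ht s g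
  have hsol : Group.IsSolvable H := h.bs s g
  have hsH : s ∈ H := Subgroup.subset_closure (by simp)
  have hgH : g ∈ H := Subgroup.subset_closure (by simp)
  have hcH : CC H := CC.subgroup h.cc H
  have hbig : Big (orderOf s) := Big.of_prime hs h5
  by_cases hall : ∀ N : Subgroup H, N.Normal → (∀ a ∈ N, ∀ b ∈ N, Commute a b) →
      ∀ n ∈ N, Commute (⟨s, hsH⟩ : H) n
  · have hbig' : Big (orderOf (⟨s, hsH⟩ : H)) := by
      rw [Subgroup.orderOf_mk]
      exact hbig
    obtain ⟨A, hAn, hAc, hsA⟩ := exists_abelian_normal hsol hcH hbig' hall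
    have h1 := hAc _ (hAn.conj_mem _ hsA ⟨g, hgH⟩) _ hsA
    have h2 : Commute (g * s * g⁻¹) s := congrArg Subtype.val h1.eq
    exact h.mem_zpowers h2 (orderOf_conj' g s) hs.ne_zero
  · exfalso
    push Not at hall
    obtain ⟨N, hNn, hNc, f, hfN, hsf⟩ := hall
    have hsf' : ¬ Commute s (f : G) := fun h1 => hsf (Subtype.ext h1.eq)
    have hcon : ∀ t ∈ Subgroup.zpowers (f : G), s * t * s⁻¹ ∈ Subgroup.zpowers t := by
      intro t htf
      obtain ⟨j, rfl⟩ := htf
      have h1 := hcH.conj_mem hNn hNc (N.zpow_mem hfN j) (isOfFinOrder_of_finite _) ⟨s, hsH⟩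
      obtain ⟨i, hi⟩ := h1
      refine ⟨i, ?_⟩
      have := congrArg Subtype.val hi
      simpa using this
    have hex : ∃ t ∈ Subgroup.zpowers (f : G), (orderOf t).Prime ∧ 5 ≤ orderOf t ∧
        ¬ Commute s t := by
      by_contra hno
      push Not at hno
      exact hsf' (commute_of_five h ht hz hbig (hcon f (Subgroup.mem_zpowers _)) hno)
    obtain ⟨t, htf, htp, ht5, hst'⟩ := hex
    have hst : s * t * s⁻¹ ∈ Subgroup.zpowers t := hcon t htf
    have ht1 : t ≠ 1 := by
      rintro rfl
      exact hst' (Commute.one_right s)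
    -- `x⁻¹ * s * x` is a power of `s`
    have hgen : s ∈ Subgroup.zpowers (x * s * x⁻¹) :=
      mem_zpowers_of_prime hxs hs (by
        intro h1
        have := orderOf_conj' x s
        rw [h1, orderOf_one] at this
        exact hs.one_lt.ne this)
    obtain ⟨k, hk⟩ := hgen
    simp only at hk
    have hk' : x⁻¹ * s * x = s ^ k := by
      have h1 : x⁻¹ * (x * s * x⁻¹) ^ k * x = s ^ k := by
        rw [conj_zpow]; group
      rw [hk] at h1
      exact h1
    have hnorm : ∀ k : ℤ, s ^ k * t * (s ^ k)⁻¹ ∈ Subgroup.zpowers t := by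
      intro k
      have h1 : s ^ k = s ^ ((k % (orderOf s : ℤ)).toNat) := by
        have h2 : 0 ≤ k % (orderOf s : ℤ) :=
          Int.emod_nonneg _ (by exact_mod_cast hs.ne_zero)
        rw [← zpow_natCast, Int.toNat_of_nonneg h2, zpow_mod_orderOf]
      rw [h1]
      exact pow_conj_mem hst _
    have hxt : x * t * x⁻¹ ∈ Subgroup.zpowers t := by
      apply per_unique5 h ht htp ht5 (orderOf_conj' x t).symm hst _ hst' _
      · have h1 : s * (x * t * x⁻¹) * s⁻¹ = x * ((x⁻¹ * s * x) * t * (x⁻¹ * s * x)⁻¹) * x⁻¹ := by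
          group
        rw [h1, hk']
        obtain ⟨j, hj⟩ := hnorm k
        simp only at hj
        rw [← hj, ← conj_zpow]
        exact Subgroup.zpow_mem _ (Subgroup.mem_zpowers _) j
      · intro h1
        apply hst'
        have h2 : Commute t (x⁻¹ * s * x) := (commute_conj_iff x t s).1 h1.symm
        rw [hk'] at h2
        have h3 : s ∈ Subgroup.zpowers (s ^ k) := by
          apply mem_zpowers_of_prime (Subgroup.zpow_mem _ (Subgroup.mem_zpowers s) k) hs
          intro h4
          rw [h4] at hk'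
          have h6 : s = 1 := by
            have : s = x * (x⁻¹ * s * x) * x⁻¹ := by group
            rw [this, hk']; group
          rw [h6, orderOf_one] at hs
          exact Nat.not_prime_one hs
        obtain ⟨l, hl⟩ := h3
        simp only at hl
        rw [← hl]
        exact (h2.zpow_right l).symm
    have h6 := comm_act (ht t) hxt hst
    have h7 : ⁅x, s⁆ ∈ Subgroup.zpowers s := by
      rw [commutatorElement_def]
      exact Subgroup.mul_mem _ hxs (Subgroup.inv_mem _ (Subgroup.mem_zpowers s))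
    have h8 : s ∈ Subgroup.zpowers ⁅x, s⁆ := mem_zpowers_of_prime h7 hs
      (fun h9 => hns (commutatorElement_eq_one_iff_commute.1 h9))
    obtain ⟨l', hl'⟩ := h8
    simp only at hl'
    apply hst'
    rw [← hl']
    exact h6.zpow_left l'

end

end Pool.Agent.Lib.MP_544a1b_al
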