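import Mathlib

/-! Binary soluble groups all of whose abelian subgroups are locally cyclic: elements of infinite
order. -/

set_option autoImplicit false

universe u

namespace Pool.Agent.Lib.MP_544a1b_al

open Subgroup
open scoped commutatorElement

/-- Two-generator subgroups are soluble and commuting elements generate cyclic subgroups. -/
structure RC (G : Type*) [Group G] : Prop where
  bs : ∀ x y : G, Group.IsSolvable (Subgroup.closure ({x, y} : Set G))
  cc : ∀ x y : G, Commute x y → ∃ z ∈ Subgroup.closure ({x, y} : Set G),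
    x ∈ Subgroup.zpowers z ∧ y ∈ Subgroup.zpowers z

/-- Infinite order. -/
def Inf {G : Type*} [Group G] (b : G) : Prop := ∀ n : ℕ, 0 < n → b ^ n ≠ 1

theorem Inf.zpow_ne {G : Type*} [Group G] {b : G} (h : Inf b) {j : ℤ} (hj : j ≠ 0) :
    b ^ j ≠ 1 := by
  intro hb
  apply h j.natAbs (Int.natAbs_pos.2 hj)
  rcases Int.natAbs_eq j with h1 | h1
  · rw [h1, zpow_natCast] at hb; exact hb
  · rw [h1, zpow_neg, zpow_natCast, inv_eq_one] at hb; exact hb

theorem Inf.zpow {G : Type*} [Group G] {b : G} (h : Inf b) {j : ℤ} (hj : j ≠ 0) :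
    Inf (b ^ j) := by
  intro n hn
  rw [← zpow_natCast, ← zpow_mul]
  exact h.zpow_ne (mul_ne_zero hj (by exact_mod_cast hn.ne'))

theorem Inf.ne_one {G : Type*} [Group G] {b : G} (h : Inf b) : b ≠ 1 := by
  have := h 1 one_pos
  simpa using this

theorem Inf.of_zpow {G : Type*} [Group G] {z : G} {k : ℤ} (h : Inf (z ^ k)) : Inf z ∧ k ≠ 0 := by
  constructor
  · intro n hn hz
    apply h n hn
    rw [← zpow_natCast, ← zpow_mul, mul_comm, zpow_mul, zpow_natCast, hz, one_zpow]
  · rintro rfl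
    exact h.ne_one (zpow_zero z)

/-- Conjugation. -/
theorem Inf.conj {G : Type*} [Group G] {b : G} (h : Inf b) (g : G) : Inf (g * b * g⁻¹) := by
  intro n hn hb
  apply h n hn
  rw [conj_pow] at hb
  have h1 : b ^ n = g⁻¹ * (g * b ^ n * g⁻¹) * g := by group
  rw [h1, hb]; group

theorem Inf.zpow_inj {G : Type*} [Group G] {b : G} (h : Inf b) {i j : ℤ} (hij : b ^ i = b ^ j) :
    i = j := by
  by_contra hne
  apply h.zpow_ne (sub_ne_zero.2 hne)
  rw [zpow_sub, hij, mul_inv_cancel]

/-- A soluble torsion-free group in which every element has a power in the centre is abelian. -/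
theorem comm_of_pow_center {H : Type*} [Group H] [hs : Group.IsSolvable H]
    (htf : ∀ (g : H) (n : ℕ), 0 < n → g ^ n = 1 → g = 1)
    (hc : ∀ g : H, ∃ n : ℕ, 0 < n ∧ g ^ n ∈ Subgroup.center H) : ∀ a b : H, Commute a b := by
  obtain ⟨n, hn⟩ := hs.solvable
  have key : ∀ k i : ℕ, k + i = n → ∀ a ∈ derivedSeries H i, ∀ b ∈ derivedSeries H i,
      Commute a b := by
    intro k
    induction k with
    | zero =>
      intro i hi a ha b _
      have : i = n := by omega
      rw [this, hn, Subgroup.mem_bot] at ha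
      rw [ha]; exact Commute.one_left b
    | succ k ih =>
      intro i hi a ha b hb
      have hcomm := ih (i + 1) (by omega)
      have hcen : ∀ h ∈ derivedSeries H (i + 1), ∀ x : H, Commute x h := by
        intro h hh x
        have h1 : x * h * x⁻¹ ∈ derivedSeries H (i + 1) :=
          (derivedSeries_normal H (i + 1)).conj_mem h hh x
        have h2 : Commute (x * h * x⁻¹) h⁻¹ := (hcomm _ h1 _ hh).inv_right
        obtain ⟨m, hm, h3⟩ := hc h
        have h4 : (x * h * x⁻¹) ^ m = h ^ m := by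
          rw [conj_pow, Subgroup.mem_center_iff.1 h3 x]
          group
        have h5 : (x * h * x⁻¹ * h⁻¹) ^ m = 1 := by
          rw [h2.mul_pow, h4, inv_pow, mul_inv_cancel]
        have h6 := htf _ m hm h5
        have h7 : x * h * x⁻¹ = h := mul_inv_eq_one.1 h6
        exact mul_inv_eq_iff_eq_mul.1 h7
      have h1 : ⁅a, b⁆ ∈ derivedSeries H (i + 1) := by
        rw [derivedSeries_succ]
        exact Subgroup.commutator_mem_commutator ha hb
      obtain ⟨m, hm, h3⟩ := hc a
      have h4 : ∀ j : ℕ, a ^ j * b * (a ^ j)⁻¹ = ⁅a, b⁆ ^ j * b := by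
        intro j
        induction j with
        | zero => simp
        | succ j ihj =>
          have h5 : a ^ (j + 1) * b * (a ^ (j + 1))⁻¹ = a * (a ^ j * b * (a ^ j)⁻¹) * a⁻¹ := by
            rw [pow_succ']; group
          have h6 : a * (⁅a, b⁆ ^ j * b) * a⁻¹ = ⁅a, b⁆ ^ j * (a * b * a⁻¹) := by
            rw [← mul_assoc a, ((hcen _ h1 a).pow_right j).eq]
            group
          have h7 : a * b * a⁻¹ = ⁅a, b⁆ * b := by
            rw [commutatorElement_def]; group
          rw [h5, ihj, h6, h7, ← mul_assoc, ← pow_succ]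
      have h5 := h4 m
      rw [← Subgroup.mem_center_iff.1 h3 b, mul_inv_cancel_right] at h5
      have h6 : ⁅a, b⁆ ^ m = 1 := by
        have : ⁅a, b⁆ ^ m * b = 1 * b := by rw [← h5, one_mul]
        exact mul_right_cancel this
      exact commutatorElement_eq_one_iff_commute.1 (htf _ m hm h6)
  intro a b
  exact key n 0 (by omega) a (by simp) b (by simp)

section

variable {G : Type*} [Group G] (h : RC G)

include h

theorem RC.common_power {x b : G} (hb : Inf b) (hc : Commute x b) (hx : x ≠ 1) :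
    Inf x ∧ ∃ i j : ℤ, i ≠ 0 ∧ j ≠ 0 ∧ x ^ i = b ^ j := by
  obtain ⟨z, -, ⟨k, hk⟩, ⟨l, hl⟩⟩ := h.cc x b hc
  simp only at hk hl
  have h1 : Inf (z ^ l) := by rw [hl]; exact hb
  obtain ⟨hz, hl0⟩ := h1.of_zpow
  have hk0 : k ≠ 0 := by
    rintro rfl
    apply hx
    rw [← hk, zpow_zero]
  refine ⟨by rw [← hk]; exact hz.zpow hk0, l, k, hl0, hk0, ?_⟩
  rw [← hk, ← hl, ← zpow_mul, ← zpow_mul, mul_comm]

/-- The centralizer of an element of infinite order is abelian. -/
theorem RC.centralizer_comm {x y b : G} (hb : Inf b) (hx : Commute x b) (hy : Commute y b) :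
    Commute x y := by
  set H := Subgroup.closure ({x, y} : Set G) with hH
  have hxH : x ∈ H := Subgroup.subset_closure (by simp)
  have hyH : y ∈ H := Subgroup.subset_closure (by simp)
  have hHb : ∀ g ∈ H, Commute g b := by
    intro g hg
    have h1 : H ≤ Subgroup.centralizer ({b} : Set G) := by
      rw [hH, Subgroup.closure_le]
      intro g hg
      rw [SetLike.mem_coe, Subgroup.mem_centralizer_iff]
      rintro _ rfl
      rcases hg with rfl | hg
      · exact hx.eq.symm
      · rw [Set.mem_singleton_iff] at hg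
        rw [hg]; exact hy.eq.symm
    exact (Subgroup.mem_centralizer_iff.1 (h1 hg) b rfl).symm
  have : Group.IsSolvable H := h.bs x y
  have key : ∀ a b : H, Commute a b := by
    apply comm_of_pow_center
    · intro g n hn hg
      by_contra hne
      have h1 : (g : G) ≠ 1 := fun h => hne (Subtype.ext h)
      have h2 := (h.common_power hb (hHb g g.2) h1).1 n hn
      apply h2
      have := congrArg Subtype.val hg
      simpa using this
    · intro g
      by_cases hg : (g : G) = 1
      · refine ⟨1, one_pos, ?_⟩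
        have : g = 1 := Subtype.ext hg
        rw [this, one_pow]
        exact Subgroup.one_mem _
      · obtain ⟨-, i, j, hi, hj, hij⟩ := h.common_power hb (hHb g g.2) hg
        refine ⟨i.natAbs, Int.natAbs_pos.2 hi, ?_⟩
        rw [Subgroup.mem_center_iff]
        intro k
        apply Subtype.ext
        have h1 : Commute (k : G) ((g : G) ^ i) := by
          rw [hij]; exact (hHb k k.2).zpow_right j
        have h2 : Commute (k : G) ((g : G) ^ i.natAbs) := by
          rcases Int.natAbs_eq i with h3 | h3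
          · rw [h3, zpow_natCast] at h1; exact h1
          · rw [h3, zpow_neg, zpow_natCast] at h1; exact Commute.inv_right_iff.1 h1
        simpa using h2.eq
  exact congrArg Subtype.val (key ⟨x, hxH⟩ ⟨y, hyH⟩).eq

/-- `c` in the centralizer of `b` has the same centralizer. -/
theorem RC.centralizer_eq {b c : G} (hb : Inf b) (hc : Commute c b) (hc1 : c ≠ 1) (x : G) :
    Commute x b ↔ Commute x c := by
  have hci := (h.common_power hb hc hc1).1
  constructor
  · intro hx
    exact h.centralizer_comm hb hx hc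
  · intro hx
    exact h.centralizer_comm hci hx hc.symm

/-- `g` normalises the centralizer of `b`. -/
def Nm {G : Type*} [Group G] (b g : G) : Prop := Commute (g * b * g⁻¹) b

omit h in
theorem commute_conj_iff {G : Type*} [Group G] (g x y : G) :
    Commute (g * x * g⁻¹) y ↔ Commute x (g⁻¹ * y * g) := by
  constructor
  · intro hc
    have h1 : g⁻¹ * (g * x * g⁻¹ * y) * g = g⁻¹ * (y * (g * x * g⁻¹)) * g := by rw [hc.eq]
    have h2 : g⁻¹ * (g * x * g⁻¹ * y) * g = x * (g⁻¹ * y * g) := by group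
    have h3 : g⁻¹ * (y * (g * x * g⁻¹)) * g = (g⁻¹ * y * g) * x := by group
    rw [h2, h3] at h1
    exact h1
  · intro hc
    have h1 : g * (x * (g⁻¹ * y * g)) * g⁻¹ = g * ((g⁻¹ * y * g) * x) * g⁻¹ := by rw [hc.eq]
    have h2 : g * (x * (g⁻¹ * y * g)) * g⁻¹ = g * x * g⁻¹ * y := by group
    have h3 : g * ((g⁻¹ * y * g) * x) * g⁻¹ = y * (g * x * g⁻¹) := by group
    rw [h2, h3] at h1
    exact h1

theorem RC.nm_pow {b g : G} (hb : Inf b) (hg : Nm b g) :
    ∃ i j : ℤ, i ≠ 0 ∧ j ≠ 0 ∧ g * b ^ i * g⁻¹ = b ^ j := by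
  obtain ⟨-, i, j, hi, hj, hij⟩ := h.common_power hb hg (hb.conj g).ne_one
  refine ⟨i, j, hi, hj, ?_⟩
  rw [← hij, conj_zpow]

theorem RC.nm_of_pow {b g : G} (hb : Inf b) {i j : ℤ} (hi : i ≠ 0) (hj : j ≠ 0)
    (hij : g * b ^ i * g⁻¹ = b ^ j) : Nm b g := by
  have h1 : Commute ((g * b * g⁻¹) ^ i) b := by
    rw [conj_zpow, hij]
    exact (Commute.refl b).zpow_left j
  have h2 : Commute b (g * b * g⁻¹) := by
    refine (h.centralizer_eq ((hb.conj g).zpow hi) (c := g * b * g⁻¹) ?_ (hb.conj g).ne_one b).1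
      h1.symm
    exact (Commute.refl _).zpow_right i
  exact h2.symm

theorem RC.nm_mul {b g k : G} (hb : Inf b) (hg : Nm b g) (hk : Nm b k) : Nm b (g * k) := by
  obtain ⟨i, j, hi, hj, h1⟩ := h.nm_pow hb hg
  obtain ⟨l, m, hl, hm, h2⟩ := h.nm_pow hb hk
  apply h.nm_of_pow hb (mul_ne_zero hl hi) (mul_ne_zero hj hm)
  have h3 : g * k * b ^ (l * i) * (g * k)⁻¹ = g * (k * b ^ l * k⁻¹) ^ i * g⁻¹ := by
    rw [conj_zpow, ← zpow_mul]; group
  rw [h3, h2, ← zpow_mul, mul_comm m i, zpow_mul, ← conj_zpow, h1, ← zpow_mul]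

theorem RC.nm_inv {b g : G} (hb : Inf b) (hg : Nm b g) : Nm b g⁻¹ := by
  obtain ⟨i, j, hi, hj, h1⟩ := h.nm_pow hb hg
  apply h.nm_of_pow hb hj hi
  rw [← h1]; group

theorem RC.nm_of_commute {b g : G} (hg : Commute g b) : Nm b g := by
  unfold Nm
  rw [hg.eq, mul_inv_cancel_right]

/-- The normaliser of the centralizer of `b`, as a subgroup. -/
def RC.N (b : G) (hb : Inf b) : Subgroup G where
  carrier := {g | Nm b g}
  mul_mem' := fun ha hb' => h.nm_mul hb ha hb'
  one_mem' := by
    change Nm b 1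
    unfold Nm; simp
  inv_mem' := fun ha => h.nm_inv hb ha

/-- Commutators of elements of the normaliser centralise. -/
theorem RC.commutator_mem {b g k : G} (hb : Inf b) (hg : Nm b g) (hk : Nm b k) :
    Commute ⁅g, k⁆ b := by
  obtain ⟨i, j, hi, hj, h1⟩ := h.nm_pow hb hg
  obtain ⟨l, m, hl, hm, h2⟩ := h.nm_pow hb hk
  have h3 : g * k * b ^ (l * i) * (g * k)⁻¹ = b ^ (j * m) := by
    have : g * k * b ^ (l * i) * (g * k)⁻¹ = g * (k * b ^ l * k⁻¹) ^ i * g⁻¹ := by
      rw [conj_zpow, ← zpow_mul]; group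
    rw [this, h2, ← zpow_mul, mul_comm m i, zpow_mul, ← conj_zpow, h1, ← zpow_mul]
  have h4 : k * g * b ^ (l * i) * (k * g)⁻¹ = b ^ (j * m) := by
    have : k * g * b ^ (l * i) * (k * g)⁻¹ = k * (g * b ^ i * g⁻¹) ^ l * k⁻¹ := by
      rw [conj_zpow, ← zpow_mul, mul_comm i l]; group
    rw [this, h1, ← zpow_mul, mul_comm j l, zpow_mul, ← conj_zpow, h2, ← zpow_mul, mul_comm m j]
  have h5 : ⁅g, k⁆ * b ^ (j * m) * ⁅g, k⁆⁻¹ = b ^ (j * m) := by
    calc ⁅g, k⁆ * b ^ (j * m) * ⁅g, k⁆⁻¹
        = ⁅g, k⁆ * (k * g * b ^ (l * i) * (k * g)⁻¹) * ⁅g, k⁆⁻¹ := by rw [h4]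
      _ = g * k * b ^ (l * i) * (g * k)⁻¹ := by rw [commutatorElement_def]; group
      _ = b ^ (j * m) := h3
  have h6 : Commute ⁅g, k⁆ (b ^ (j * m)) := mul_inv_eq_iff_eq_mul.1 h5
  have h7 : Commute (b ^ (j * m)) b := (Commute.refl b).zpow_left _
  exact (h.centralizer_eq hb h7 (hb.zpow_ne (mul_ne_zero hj hm)) _).2 h6

/-- Uniqueness of lines. -/
theorem RC.unique {b c x y : G} (hb : Inf b) (hc : Inf c) (hxb : Nm b x) (hyb : Nm b y)
    (hxc : Nm c x) (hyc : Nm c y) (hxy : ¬ Commute x y) : ∀ g, Commute g b ↔ Commute g c := by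
  have h1 := h.commutator_mem hb hxb hyb
  have h2 := h.commutator_mem hc hxc hyc
  have h3 : ⁅x, y⁆ ≠ 1 := fun hh => hxy (commutatorElement_eq_one_iff_commute.1 hh)
  intro g
  rw [h.centralizer_eq hb h1 h3 g, h.centralizer_eq hc h2 h3 g]

theorem RC.nm_congr {b c : G} (hb : Inf b) (hc : Inf c)
    (hbc : ∀ g, Commute g b ↔ Commute g c) (g : G) : Nm b g ↔ Nm c g := by
  have hcb : Commute c b := (hbc c).2 (Commute.refl c)
  have key : ∀ {b c : G}, Inf b → Inf c → Commute c b → Nm b g → Nm c g := by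
    intro b c hb hc hcb hg
    obtain ⟨i, j, hi, hj, h1⟩ := h.nm_pow hb hg
    obtain ⟨-, k, l, hk, hl, h2⟩ := h.common_power hb hcb hc.ne_one
    -- c ^ k = b ^ l
    apply h.nm_of_pow hc (i := k * i) (j := k * j) (mul_ne_zero hk hi) (mul_ne_zero hk hj)
    rw [zpow_mul, h2, ← zpow_mul, mul_comm l i, zpow_mul, ← conj_zpow, h1, ← zpow_mul,
      zpow_mul c, h2, ← zpow_mul, mul_comm j l]
  exact ⟨key hb hc hcb, key hc hb hcb.symm⟩

end

end Pool.Agent.Lib.MP_544a1b_al
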