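import Pool.Agent.Lib.MP_544a1b_al.OneInf

/-! Binary soluble groups all of whose abelian subgroups are locally cyclic: the case with an
element of infinite order. -/

set_option autoImplicit false

universe u

namespace Pool.Agent.Lib.MP_544a1b_al

open Subgroup
open scoped commutatorElement

section

variable {G : Type*} [Group G]

theorem Inf.iff_not_isOfFinOrder (b : G) : Inf b ↔ ¬ IsOfFinOrder b := by
  rw [isOfFinOrder_iff_pow_eq_one]
  push Not
  rfl

/-- In a cyclic group, elements of the same finite order generate the same subgroup. -/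
theorem mem_zpowers_of_orderOf_eq {z s t : G} (hs : s ∈ Subgroup.zpowers z)
    (ht : t ∈ Subgroup.zpowers z) (ho : orderOf s = orderOf t) (h0 : orderOf t ≠ 0) :
    s ∈ Subgroup.zpowers t := by
  classical
  by_cases hz : IsOfFinOrder z
  · rw [hz.mem_zpowers_iff_mem_range_orderOf] at hs ht
    simp only [Finset.mem_image, Finset.mem_range] at hs ht
    obtain ⟨k, -, rfl⟩ := hs
    obtain ⟨l, -, rfl⟩ := ht
    have hN : 0 < orderOf z := hz.orderOf_pos
    rw [hz.orderOf_pow, hz.orderOf_pow] at ho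
    have h1 : Nat.gcd (orderOf z) k = Nat.gcd (orderOf z) l := by
      have h2 := Nat.div_mul_cancel (Nat.gcd_dvd_left (orderOf z) k)
      have h3 := Nat.div_mul_cancel (Nat.gcd_dvd_left (orderOf z) l)
      rw [ho] at h2
      have h4 : 0 < orderOf z / Nat.gcd (orderOf z) l :=
        Nat.div_pos (Nat.le_of_dvd hN (Nat.gcd_dvd_left _ _)) (Nat.gcd_pos_of_pos_left _ hN)
      exact Nat.eq_of_mul_eq_mul_left h4 (h2.trans h3.symm)
    have h2 : Nat.gcd (orderOf z) l ∣ k := h1 ▸ Nat.gcd_dvd_right _ _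
    obtain ⟨k', hk'⟩ := h2
    have h3 : z ^ (Nat.gcd (orderOf z) l) ∈ Subgroup.zpowers (z ^ l) := by
      have h4 := Nat.gcd_eq_gcd_ab (orderOf z) l
      rw [← zpow_natCast z (Nat.gcd (orderOf z) l), h4, zpow_add, zpow_mul, zpow_mul,
        zpow_natCast, zpow_natCast, pow_orderOf_eq_one, one_zpow, one_mul]
      exact Subgroup.zpow_mem _ (Subgroup.mem_zpowers _) _
    rw [hk', pow_mul]
    exact Subgroup.pow_mem _ h3 _
  · obtain ⟨l, rfl⟩ := ht
    simp only at ho h0 ⊢
    have hl : l = 0 := by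
      by_contra hl
      have h1 := ((Inf.iff_not_isOfFinOrder z).2 hz).zpow hl
      rw [Inf.iff_not_isOfFinOrder] at h1
      rw [← orderOf_eq_zero_iff] at h1
      exact h0 h1
    subst hl
    rw [zpow_zero, orderOf_one, orderOf_eq_one_iff] at ho
    rw [ho]
    exact Subgroup.one_mem _

variable (h : RC G)

include h

/-- Commuting elements of the same finite order generate the same subgroup. -/
theorem RC.mem_zpowers {s t : G} (hc : Commute s t) (ho : orderOf s = orderOf t)
    (h0 : orderOf t ≠ 0) : s ∈ Subgroup.zpowers t := by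
  obtain ⟨z, -, h1, h2⟩ := h.cc s t hc
  exact mem_zpowers_of_orderOf_eq h1 h2 ho h0

/-- Commuting involutions are equal. -/
theorem RC.involution_eq {s t : G} (hc : Commute s t) (hs : s ≠ 1) (hs2 : s ^ 2 = 1)
    (ht : t ≠ 1) (ht2 : t ^ 2 = 1) : s = t := by
  have h1 : orderOf s = 2 := orderOf_eq_prime hs2 hs
  have h2 : orderOf t = 2 := orderOf_eq_prime ht2 ht
  obtain ⟨k, hk⟩ := h.mem_zpowers hc (h1.trans h2.symm) (by rw [h2]; norm_num)
  simp only at hk
  rcases Int.even_or_odd' k with ⟨m, hm | hm⟩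
  · exfalso
    apply hs
    rw [← hk, hm, zpow_mul, zpow_ofNat, ht2, one_zpow]
  · rw [← hk, hm, zpow_add, zpow_mul, zpow_ofNat, ht2, one_zpow, one_mul, zpow_one]

/-- A soluble subgroup with an element of infinite order normalises the centralizer of one. -/
theorem RC.exists_nm (H : Subgroup G) (hH : Group.IsSolvable H) {a : G} (ha : a ∈ H)
    (hai : Inf a) : ∃ b ∈ H, Inf b ∧ ∀ g ∈ H, Nm b g := by
  classical
  obtain ⟨n, hn⟩ := hH.solvable
  have hex : ∃ n, derivedSeries H n = ⊥ := ⟨n, hn⟩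
  set m := Nat.find hex with hm
  have h1 : derivedSeries H m = ⊥ := Nat.find_spec hex
  have hm0 : m ≠ 0 := by
    intro h0
    rw [h0, derivedSeries_zero] at h1
    have h2 : (⟨a, ha⟩ : H) ∈ (⊤ : Subgroup H) := Subgroup.mem_top _
    rw [h1, Subgroup.mem_bot] at h2
    exact hai.ne_one (congrArg Subtype.val h2)
  obtain ⟨k, hk⟩ := Nat.exists_eq_succ_of_ne_zero hm0
  have h2 : derivedSeries H k ≠ ⊥ := Nat.find_min hex (by omega : k < Nat.find hex)
  rw [hk, Nat.succ_eq_add_one, derivedSeries_succ] at h1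
  set B := derivedSeries H k with hB
  have hBn : B.Normal := derivedSeries_normal H k
  have hBc : ∀ s ∈ B, ∀ t ∈ B, Commute (s : G) (t : G) := by
    intro s hs t ht
    have h3 : ⁅s, t⁆ ∈ ⁅B, B⁆ := Subgroup.commutator_mem_commutator hs ht
    rw [h1, Subgroup.mem_bot] at h3
    have h4 := commutatorElement_eq_one_iff_commute.1 h3
    exact congrArg Subtype.val h4.eq
  by_cases hinf : ∃ b ∈ B, Inf (b : G)
  · obtain ⟨b, hb, hbi⟩ := hinf
    refine ⟨b, b.2, hbi, ?_⟩
    intro g hg
    exact hBc (⟨g, hg⟩ * b * ⟨g, hg⟩⁻¹) (hBn.conj_mem b hb ⟨g, hg⟩) b hb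
  · exfalso
    push Not at hinf
    obtain ⟨⟨t, ht⟩, htt⟩ := Subgroup.ne_bot_iff_exists_ne_one.1 h2
    have ht1 : (t : G) ≠ 1 := fun h => htt (Subtype.ext (Subtype.ext h))
    have htf : IsOfFinOrder (t : G) := by
      by_contra hcon
      exact hinf t ht ((Inf.iff_not_isOfFinOrder _).2 hcon)
    have hto : orderOf (t : G) ≠ 0 := htf.orderOf_pos.ne'
    -- conjugates of `t` lie in `zpowers t`
    have hconj : ∀ g : H, (g : G) * t * (g : G)⁻¹ ∈ Subgroup.zpowers (t : G) := by
      intro g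
      apply h.mem_zpowers (hBc (g * t * g⁻¹) (hBn.conj_mem t ht g) t ht) _ hto
      have := orderOf_injective (MulAut.conj (g : G)).toMonoidHom
        (MulAut.conj (g : G)).injective (t : G)
      simpa using this
    have hfin : (Subgroup.zpowers (t : G) : Set G).Finite := by
      exact (finite_zpowers.2 htf)
    -- the conjugates by powers of `a`
    have h3 : ∀ i : ℕ, a ^ i * t * (a ^ i)⁻¹ ∈ (Subgroup.zpowers (t : G) : Set G) := by
      intro i
      exact hconj (⟨a, ha⟩ ^ i)
    obtain ⟨i, -, j, -, hij, hij2⟩ := Set.infinite_univ.exists_ne_map_eq_of_mapsTo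
      (f := fun i : ℕ => a ^ i * t * (a ^ i)⁻¹) (fun i _ => h3 i) hfin
    have h4 : Commute (a ^ ((i : ℤ) - j)) (t : G) := by
      have h5 : a ^ ((i : ℤ) - j) * t * (a ^ ((i : ℤ) - j))⁻¹ = t := by
        have h6 : a ^ ((i : ℤ) - j) * t * (a ^ ((i : ℤ) - j))⁻¹
            = (a ^ j)⁻¹ * (a ^ i * t * (a ^ i)⁻¹) * a ^ j := by
          rw [zpow_sub, zpow_natCast, zpow_natCast]
          have h7 : a ^ i * (a ^ j)⁻¹ = (a ^ j)⁻¹ * a ^ i := by
            rw [← zpow_natCast, ← zpow_natCast, ← zpow_neg, ← zpow_add, ← zpow_add, add_comm]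
          rw [h7]; group
        rw [h6, hij2]; group
      exact mul_inv_eq_iff_eq_mul.1 h5
    have h5 : Inf (a ^ ((i : ℤ) - j)) := hai.zpow (by
      intro h6
      apply hij
      omega)
    have h6 := (h.common_power h5 h4.symm ht1).1
    rw [Inf.iff_not_isOfFinOrder] at h6
    exact h6 htf

theorem RC.torsion_sq {a x : G} (ha : Inf a) (hx : ¬ Inf x) : x ^ 2 = 1 := by
  have hx' : IsOfFinOrder x := by
    by_contra hcon
    exact hx ((Inf.iff_not_isOfFinOrder _).2 hcon)
  obtain ⟨n, hn, hxn⟩ := isOfFinOrder_iff_pow_eq_one.1 hx'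
  obtain ⟨b, -, hb, hN⟩ := h.exists_nm (Subgroup.closure ({x, a} : Set G)) (h.bs x a)
    (Subgroup.subset_closure (by simp)) ha
  obtain ⟨i, j, hi, hj, hij⟩ := h.nm_pow hb (hN x (Subgroup.subset_closure (by simp)))
  have key : ∀ m : ℕ, x ^ m * b ^ (i ^ m) * (x ^ m)⁻¹ = b ^ (j ^ m) := by
    intro m
    induction m with
    | zero => simp
    | succ m ih =>
      have h1 : x ^ (m + 1) * b ^ (i ^ (m + 1)) * (x ^ (m + 1))⁻¹
          = x * (x ^ m * b ^ (i ^ m) * (x ^ m)⁻¹) ^ i * x⁻¹ := by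
        rw [conj_zpow, ← zpow_mul, ← pow_succ, pow_succ' x m]; group
      rw [h1, ih, ← zpow_mul, mul_comm (j ^ m) i, zpow_mul, ← conj_zpow, hij, ← zpow_mul,
        pow_succ']
  have h1 := key n
  rw [hxn, one_mul, inv_one, mul_one] at h1
  have h2 : i ^ n = j ^ n := hb.zpow_inj h1
  have h3 : i ^ 2 = j ^ 2 := by
    have h4 : |i| = |j| := by
      have h5 : |i| ^ n = |j| ^ n := by rw [← abs_pow, ← abs_pow, h2]
      exact (pow_left_inj₀ (abs_nonneg i) (abs_nonneg j) hn.ne').1 h5
    rw [← sq_abs i, ← sq_abs j, h4]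
  have h4 := key 2
  rw [h3] at h4
  have h5 : Commute (x ^ 2) (b ^ (j ^ 2)) := mul_inv_eq_iff_eq_mul.1 h4
  have hj2 : j ^ 2 ≠ 0 := pow_ne_zero 2 hj
  have h6 : Commute (x ^ 2) b :=
    (h.centralizer_eq hb ((Commute.refl b).zpow_left _) (hb.zpow_ne hj2) _).2 h5
  by_contra hne
  have h7 := (h.common_power hb h6 hne).1
  apply h7 n hn
  rw [← pow_mul, mul_comm, pow_mul, hxn, one_pow]

/-- Non-commuting elements lie on a line. -/
theorem RC.exists_line {a x y : G} (ha : Inf a) (hxy : ¬ Commute x y) :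
    ∃ b, Inf b ∧ Nm b x ∧ Nm b y := by
  have hx : x ∈ Subgroup.closure ({x, y} : Set G) := Subgroup.subset_closure (by simp)
  have hy : y ∈ Subgroup.closure ({x, y} : Set G) := Subgroup.subset_closure (by simp)
  have hex : ∃ c ∈ Subgroup.closure ({x, y} : Set G), Inf c := by
    by_contra hcon
    push Not at hcon
    have h1 := h.torsion_sq ha (hcon x hx)
    have h2 := h.torsion_sq ha (hcon y hy)
    have h3 := h.torsion_sq ha (hcon (x * y) (Subgroup.mul_mem _ hx hy))
    apply hxy
    have h4 : x * y * (x * y) = 1 := by rw [← sq]; exact h3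
    have h5 : x * x = 1 := by rw [← sq]; exact h1
    have h6 : y * y = 1 := by rw [← sq]; exact h2
    have h7 : x * y = x * (x * y * (x * y)) * y := by rw [h4]; simp only [mul_one]
    have h8 : x * (x * y * (x * y)) * y = (x * x) * (y * x) * (y * y) := by
      simp only [mul_assoc]
    rw [h8, h5, h6, one_mul, mul_one] at h7
    exact h7
  obtain ⟨c, hc, hci⟩ := hex
  obtain ⟨b, -, hb, hN⟩ := h.exists_nm _ (h.bs x y) hc hci
  exact ⟨b, hb, hN x hx, hN y hy⟩

/-- The key lemma: an element acts nontrivially on at most one line. -/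
theorem RC.key {v w x : G} (hv : Inf v) (hw : Inf w) (hxv : Nm v x) (hxv' : ¬ Commute x v)
    (hxw : Nm w x) (hxw' : ¬ Commute x w) : ∀ g, Commute g v ↔ Commute g w := by
  by_contra hne
  have hvw : ¬ Commute w v := by
    intro hc
    exact hne (h.centralizer_eq hv hc hw.ne_one)
  obtain ⟨i, j, hi, hj, hij⟩ := h.nm_pow hv hxv
  obtain ⟨k, l, hk, hl, hkl⟩ := h.nm_pow hw hxw
  obtain ⟨b, hb, hbw, hbv⟩ := h.exists_line hv hvw
  have hNv : v ∈ h.N b hb := hbv
  have hNw : w ∈ h.N b hb := hbw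
  have hb' : Inf (x * b * x⁻¹) := hb.conj x
  have htr : ∀ g, Nm b g → Nm (x * b * x⁻¹) (x * g * x⁻¹) := by
    intro g hg
    unfold Nm at hg ⊢
    have h1 : x * g * x⁻¹ * (x * b * x⁻¹) * (x * g * x⁻¹)⁻¹ = x * (g * b * g⁻¹) * x⁻¹ := by
      group
    rw [h1, commute_conj_iff]
    have h2 : x⁻¹ * (x * b * x⁻¹) * x = b := by group
    rw [h2]; exact hg
  have h1 : Nm b (v ^ j) := (h.N b hb).zpow_mem hNv j
  have h2 : Nm b (w ^ l) := (h.N b hb).zpow_mem hNw l
  have h3 : Nm (x * b * x⁻¹) (v ^ j) := by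
    rw [← hij]; exact htr _ ((h.N b hb).zpow_mem hNv i)
  have h4 : Nm (x * b * x⁻¹) (w ^ l) := by
    rw [← hkl]; exact htr _ ((h.N b hb).zpow_mem hNw k)
  have h5 : ¬ Commute (v ^ j) (w ^ l) := by
    intro hc
    apply hvw
    have h6 : Commute (v ^ j) w :=
      (h.centralizer_eq hw ((Commute.refl w).zpow_left l) (hw.zpow_ne hl) _).2 hc
    exact (h.centralizer_eq hv ((Commute.refl v).zpow_left j) (hv.zpow_ne hj) _).2 h6.symm
  have h6 := h.unique hb hb' h1 h2 h3 h4 h5
  have hbx : Nm b x := by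
    have : Commute (x * b * x⁻¹) b := (h6 _).2 (Commute.refl _)
    exact this
  have h7 := h.unique hb hv hbx hbv hxv (h.nm_of_commute (Commute.refl v)) hxv'
  have h8 := h.unique hb hw hbx hbw hxw (h.nm_of_commute (Commute.refl w)) hxw'
  exact hne (fun g => (h7 g).symm.trans (h8 g))

theorem RC.all_nm {b t : G} (hb : Inf b) (ht : Nm b t) (htb : ¬ Commute t b) (g : G) :
    Nm b g := by
  by_contra hg
  have hg1 : g ≠ 1 := by
    rintro rfl
    exact hg (h.nm_of_commute (Commute.one_left b))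
  let tk : ℕ → G := fun k => t * b ^ k
  have hNt : ∀ k, Nm b (tk k) := by
    intro k
    exact h.nm_mul hb ht (h.nm_of_commute ((Commute.refl b).pow_left k))
  have hnc : ∀ k, ¬ Commute (tk k) b := by
    intro k hc
    apply htb
    have h1 : t = tk k * (b ^ k)⁻¹ := by simp [tk]
    rw [h1]
    exact hc.mul_left ((Commute.refl b).pow_left k).inv_left
  have hpair : ∀ k l, k ≠ l → ¬ Commute (tk k) (tk l) := by
    intro k l hkl hc
    have h1 : Commute (tk k) ((tk k)⁻¹ * tk l) := (Commute.refl _).inv_right.mul_right hc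
    have h2 : (tk k)⁻¹ * tk l = b ^ ((l : ℤ) - k) := by
      simp only [tk]
      rw [zpow_sub, zpow_natCast, zpow_natCast]
      have : b ^ l * (b ^ k)⁻¹ = (b ^ k)⁻¹ * b ^ l :=
        (((Commute.refl b).pow_pow l k).inv_right).eq
      rw [this]; group
    rw [h2] at h1
    have h3 : (l : ℤ) - k ≠ 0 := by omega
    exact hnc k ((h.centralizer_eq hb ((Commute.refl b).zpow_left _) (hb.zpow_ne h3) _).2 h1)
  have hcl : ∀ k, Commute (tk k) g ∨
      (Inf (tk k) ∧ Nm (tk k) g ∧ ¬ Commute g (tk k)) := by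
    intro k
    by_cases hc : Commute (tk k) g
    · exact Or.inl hc
    · right
      obtain ⟨c, hci, hc1, hc2⟩ := h.exists_line hb hc
      by_cases hcc : Commute (tk k) c
      · have htk1 : tk k ≠ 1 := by
          intro h1
          apply hc
          rw [h1]; exact Commute.one_left g
        have htki : Inf (tk k) := (h.common_power hci hcc htk1).1
        refine ⟨htki, ?_, fun h1 => hc h1.symm⟩
        exact (h.nm_congr hci htki (h.centralizer_eq hci hcc htk1) g).1 hc2
      · exfalso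
        have h1 := h.key hci hb hc1 hcc (hNt k) (hnc k)
        exact hg ((h.nm_congr hci hb h1 g).1 hc2)
  have hsec : ∀ k l, k ≠ l → (Inf (tk k) ∧ Nm (tk k) g ∧ ¬ Commute g (tk k)) →
      (Inf (tk l) ∧ Nm (tk l) g ∧ ¬ Commute g (tk l)) → False := by
    rintro k l hkl ⟨h1, h2, h3⟩ ⟨h4, h5, h6⟩
    have h7 := h.key h1 h4 h2 h3 h5 h6
    exact hpair k l hkl ((h7 _).1 (Commute.refl _))
  have hfst : ∀ k l, k ≠ l → Commute (tk k) g → Commute (tk l) g → False := by
    intro k l hkl h1 h2
    by_cases hgi : Inf g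
    · exact hpair k l hkl (h.centralizer_comm hgi h1 h2)
    · have hg2 := h.torsion_sq hb hgi
      have hinv : ∀ k, Commute (tk k) g → tk k = g := by
        intro k h1
        have h3 : tk k ≠ 1 := by
          intro h4
          apply hnc k
          rw [h4]; exact Commute.one_left b
        have h4 : ¬ Inf (tk k) := by
          intro h5
          exact hgi (h.common_power h5 h1.symm hg1).1
        exact h.involution_eq h1 h3 (h.torsion_sq hb h4) hg1 hg2
      apply hpair k l hkl
      rw [hinv k h1, hinv l h2]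
  rcases hcl 0 with h0 | h0 <;> rcases hcl 1 with h1 | h1 <;> rcases hcl 2 with h2 | h2
  · exact hfst 0 1 (by norm_num) h0 h1
  · exact hfst 0 1 (by norm_num) h0 h1
  · exact hfst 0 2 (by norm_num) h0 h2
  · exact hsec 1 2 (by norm_num) h1 h2
  · exact hfst 1 2 (by norm_num) h1 h2
  · exact hsec 0 2 (by norm_num) h0 h2
  · exact hsec 0 1 (by norm_num) h0 h1
  · exact hsec 0 1 (by norm_num) h0 h1

/-- If there is an element of infinite order then commutators commute. -/
theorem RC.metabelian_of_inf {a : G} (ha : Inf a) (x y z w : G) :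
    Commute ⁅x, y⁆ ⁅z, w⁆ := by
  by_cases hab : ∀ x y : G, Commute x y
  · exact hab _ _
  · push Not at hab
    obtain ⟨s, t, hst⟩ := hab
    obtain ⟨b, hb, hs, ht⟩ := h.exists_line ha hst
    have hall : ∀ g, Nm b g := by
      by_cases hsb : Commute s b
      · have htb : ¬ Commute t b := fun htb => hst (h.centralizer_comm hb hsb htb)
        exact fun g => h.all_nm hb ht htb g
      · exact fun g => h.all_nm hb hs hsb g
    exact h.centralizer_comm hb (h.commutator_mem hb (hall x) (hall y))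
      (h.commutator_mem hb (hall z) (hall w))

end

end Pool.Agent.Lib.MP_544a1b_al
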