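import Pool.Agent.Lib.MP_544a1b_al.SL

/-! The involution of a quaternion subgroup is central. -/

set_option autoImplicit false

universe u

namespace Pool.Agent.Lib.MP_544a1b_al

open Subgroup
open scoped commutatorElement

theorem solvable_of_commutator {M : Type*} [Group M] (L : Subgroup M)
    (hL : Group.IsSolvable L) (hc : ∀ g h : M, ⁅g, h⁆ ∈ L) : Group.IsSolvable M := by
  have hn : L.Normal := by
    constructor
    intro l hl g
    have h1 : g * l * g⁻¹ = ⁅g, l⁆ * l := by rw [commutatorElement_def]; group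
    rw [h1]
    exact L.mul_mem (hc g l) hl
  rw [Group.isSolvable_iff_subgroup_quotient L]
  refine ⟨hL, ?_⟩
  apply Group.isSolvable_of_comm
  intro a b
  obtain ⟨a, rfl⟩ := QuotientGroup.mk_surjective a
  obtain ⟨b, rfl⟩ := QuotientGroup.mk_surjective b
  have h1 : (⁅((a : M) : M ⧸ L), ((b : M) : M ⧸ L)⁆) = 1 := by
    have h2 : ((⁅a, b⁆ : M) : M ⧸ L) = ⁅((a : M) : M ⧸ L), ((b : M) : M ⧸ L)⁆ :=
      map_commutatorElement (QuotientGroup.mk' L) a b
    rw [← h2, QuotientGroup.eq_one_iff]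
    exact hc a b
  exact commutatorElement_eq_one_iff_mul_comm.1 h1

theorem dl_of_injective {G H : Type*} [Group G] [Group H] (f : H →* G)
    (hf : Function.Injective f) {n : ℕ} (h : derivedSeries G n = ⊥) : derivedSeries H n = ⊥ := by
  have h1 := map_derivedSeries_le_derivedSeries f n
  rw [h, le_bot_iff] at h1
  exact (Subgroup.map_eq_bot_iff_of_injective _ hf).1 h1

theorem dl_mono {G : Type*} [Group G] {n m : ℕ} (hnm : n ≤ m) (h : derivedSeries G n = ⊥) :
    derivedSeries G m = ⊥ := by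
  have h1 := derivedSeries_antitone G hnm
  rw [h, le_bot_iff] at h1
  exact h1

theorem dl_of_le {G : Type*} [Group G] {H K : Subgroup G} (hHK : H ≤ K) {n : ℕ}
    (h : derivedSeries K n = ⊥) : derivedSeries H n = ⊥ :=
  dl_of_injective (Subgroup.inclusion hHK) (Subgroup.inclusion_injective hHK) h

theorem dl_of_commutator {M : Type*} [Group M] (L : Subgroup M) {n : ℕ}
    (hL : derivedSeries L n = ⊥) (hc : ∀ g h : M, ⁅g, h⁆ ∈ L) :
    derivedSeries M (n + 1) = ⊥ := by
  have h1 : commutator M ≤ L := by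
    rw [commutator_def, Subgroup.commutator_le]
    intro g _ k _
    exact hc g k
  rw [← map_derivedSeries_commutator, dl_of_le h1 hL, Subgroup.map_bot]

theorem dl_of_ker {G H : Type*} [Group G] [Group H] (f : G →* H) {n m : ℕ}
    (hH : derivedSeries H n = ⊥) (hK : derivedSeries f.ker m = ⊥) :
    derivedSeries G (n + m) = ⊥ := by
  have h1 : derivedSeries G n ≤ f.ker := by
    have h2 := map_derivedSeries_le_derivedSeries f n
    rw [hH, le_bot_iff, Subgroup.map_eq_bot_iff] at h2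
    exact h2
  have key : ∀ m : ℕ, derivedSeries G (n + m) ≤ (derivedSeries f.ker m).map f.ker.subtype := by
    intro m
    induction m with
    | zero =>
      rw [derivedSeries_zero, ← MonoidHom.range_eq_map, Subgroup.range_subtype]
      exact h1
    | succ m ih =>
      rw [← add_assoc, derivedSeries_succ, derivedSeries_succ, Subgroup.map_commutator]
      exact Subgroup.commutator_mono ih ih
  have h2 := key m
  rw [hK, Subgroup.map_bot, le_bot_iff] at h2
  exact h2

/-- A finite soluble subgroup extended by a normalising element. -/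
theorem exists_finite_soluble_sup {G : Type*} [Group G] (L : Subgroup G) [Finite L]
    (hL : Group.IsSolvable L) (r : G)
    (hr : IsOfFinOrder r) (hn : ∀ l ∈ L, r * l * r⁻¹ ∈ L) :
    ∃ M : Subgroup G, Finite M ∧ Group.IsSolvable M ∧ L ≤ M ∧ r ∈ M := by
  obtain ⟨N, hN, hrN⟩ := isOfFinOrder_iff_pow_eq_one.1 hr
  have hnk : ∀ k : ℕ, ∀ l ∈ L, r ^ k * l * (r ^ k)⁻¹ ∈ L := by
    intro k
    induction k with
    | zero => intro l hl; simpa using hl
    | succ k ih =>
      intro l hl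
      have h1 : r ^ (k + 1) * l * (r ^ (k + 1))⁻¹ = r * (r ^ k * l * (r ^ k)⁻¹) * r⁻¹ := by
        rw [pow_succ']; group
      rw [h1]
      exact hn _ (ih l hl)
  let M : Subgroup G :=
    { carrier := {g | ∃ l ∈ L, ∃ k : ℕ, g = l * r ^ k}
      mul_mem' := by
        rintro _ _ ⟨l, hl, k, rfl⟩ ⟨l', hl', k', rfl⟩
        refine ⟨l * (r ^ k * l' * (r ^ k)⁻¹), L.mul_mem hl (hnk k l' hl'), k + k', ?_⟩
        rw [pow_add]; group
      one_mem' := ⟨1, L.one_mem, 0, by simp⟩
      inv_mem' := by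
        rintro _ ⟨l, hl, k, rfl⟩
        have h1 : (r ^ k)⁻¹ = r ^ (k * (N - 1)) := by
          apply inv_eq_of_mul_eq_one_right
          rw [← pow_add]
          have : k + k * (N - 1) = N * k := by
            obtain ⟨m, rfl⟩ : ∃ m, N = m + 1 := ⟨N - 1, by omega⟩
            rw [Nat.add_sub_cancel]; ring
          rw [this, pow_mul, hrN, one_pow]
        refine ⟨r ^ (k * (N - 1)) * l⁻¹ * (r ^ (k * (N - 1)))⁻¹,
          hnk _ _ (L.inv_mem hl), k * (N - 1), ?_⟩
        rw [mul_inv_rev, h1]; group }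
  have hLM : L ≤ M := fun l hl => ⟨l, hl, 0, by simp⟩
  refine ⟨M, ?_, ?_, hLM, ⟨1, L.one_mem, 1, by simp⟩⟩
  · have h1 : ((M : Set G)).Finite := by
      apply Set.Finite.subset (Set.Finite.image2 (fun a b => a * b) (Set.toFinite (L : Set G))
        (finite_zpowers.2 hr))
      rintro _ ⟨l, hl, k, rfl⟩
      exact ⟨l, hl, r ^ k, Subgroup.pow_mem _ (Subgroup.mem_zpowers r) k, rfl⟩
    exact h1.to_subtype
  · have h1 : Group.IsSolvable (L.subgroupOf M) := by
      have e := (Subgroup.subgroupOfEquivOfLe hLM)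
      exact Group.isSolvable_of_isSolvable_injective (f := e.toMonoidHom) e.injective
    apply solvable_of_commutator (L.subgroupOf M) h1
    rintro ⟨_, l, hl, k, rfl⟩ ⟨_, l', hl', k', rfl⟩
    rw [Subgroup.mem_subgroupOf]
    have h2 : ((⁅(⟨l * r ^ k, l, hl, k, rfl⟩ : M), (⟨l' * r ^ k', l', hl', k', rfl⟩ : M)⁆ : M) : G)
        = l * (r ^ k * l' * (r ^ k)⁻¹) * (r ^ k' * l * (r ^ k')⁻¹)⁻¹ * l'⁻¹ := by
      have h3 : r ^ k * r ^ k' = r ^ k' * r ^ k := by rw [← pow_add, ← pow_add, add_comm]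
      have h4 : ((⁅(⟨l * r ^ k, l, hl, k, rfl⟩ : M), (⟨l' * r ^ k', l', hl', k', rfl⟩ : M)⁆ : M) : G)
          = (l * r ^ k) * (l' * r ^ k') * (l * r ^ k)⁻¹ * (l' * r ^ k')⁻¹ := rfl
      rw [h4]
      have h5 : (l * r ^ k) * (l' * r ^ k') * (l * r ^ k)⁻¹ * (l' * r ^ k')⁻¹ =
          l * r ^ k * l' * (r ^ k' * (r ^ k)⁻¹) * l⁻¹ * (r ^ k')⁻¹ * l'⁻¹ := by group
      have h6 : r ^ k' * (r ^ k)⁻¹ = (r ^ k)⁻¹ * r ^ k' := by
        have : Commute (r ^ k) (r ^ k') := h3
        exact this.inv_left.eq.symm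
      rw [h5, h6]; group
    rw [h2]
    exact L.mul_mem (L.mul_mem (L.mul_mem hl (hnk k l' hl')) (L.inv_mem (hnk k' l hl)))
      (L.inv_mem hl')

theorem solvable_closure_pair {G : Type*} [Group G] (h : RC G) (x y : G) :
    Group.IsSolvable (Subgroup.closure ({x, y} : Set G)) := h.bs x y

theorem RC.toCC {G : Type*} [Group G] (h : RC G) : CC G := h.cc

/-- In case (II) the square is central. -/
theorem IsQ.central_of_normal {M : Type*} [Group M] (hc : CC M) {x y : M} (hQ : IsQ x y)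
    (hN : ∀ m : M, ∀ q ∈ Subgroup.closure ({x, y} : Set M),
      m * q * m⁻¹ ∈ Subgroup.closure ({x, y} : Set M)) (m : M) : Commute m (x ^ 2) := by
  have hxQ : x ∈ Subgroup.closure ({x, y} : Set M) := Subgroup.subset_closure (by simp)
  have h1 : m * x ^ 2 * m⁻¹ ∈ Subgroup.closure ({x, y} : Set M) :=
    hN m _ (Subgroup.pow_mem _ hxQ 2)
  have hcom : ∀ q ∈ Subgroup.closure ({x, y} : Set M), Commute q (x ^ 2) := by
    intro q hq
    obtain ⟨i, rfl | rfl⟩ := hQ.mem_cases hq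
    · exact (hQ.sq_comm_x.zpow_right i).symm
    · exact ((hQ.sq_comm_x.zpow_right i).mul_right hQ.sq_comm_y).symm
  have h2 : m * x ^ 2 * m⁻¹ = x ^ 2 := by
    apply hc.involution_eq (hcom _ h1) _ _ hQ.2.2 hQ.z2
    · intro h3
      apply hQ.2.2
      have : x ^ 2 = m⁻¹ * (m * x ^ 2 * m⁻¹) * m := by group
      rw [this, h3]; group
    · rw [conj_pow, hQ.z2]; group
  exact mul_inv_eq_iff_eq_mul.1 h2

theorem pow_inv_eq_of_conj {G : Type*} [Group G] {z w : G} (h : z * w * z⁻¹ = w⁻¹) (n : ℕ) :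
    z * w ^ n * z⁻¹ = (w ^ n)⁻¹ := by
  rw [← conj_pow, h, inv_pow]

/-- An element inverting an element of odd order does not commute with it. -/
theorem not_commute_of_inv {G : Type*} [Group G] {z w : G} (h : z * w * z⁻¹ = w⁻¹)
    (ho : Odd (orderOf w)) (h1 : w ≠ 1) : ¬ Commute z w := by
  intro hc
  rw [hc.eq, mul_inv_cancel_right] at h
  have h2 : w ^ 2 = 1 := by
    rw [sq]
    nth_rewrite 1 [h]
    exact inv_mul_cancel w
  have h3 : orderOf w ∣ 2 := orderOf_dvd_of_pow_eq_one h2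
  have h4 : orderOf w ≠ 1 := fun h5 => h1 (orderOf_eq_one_iff.1 h5)
  rcases (Nat.dvd_prime Nat.prime_two).1 h3 with h5 | h5
  · exact h4 h5
  · rw [h5] at ho
    exact (by decide : ¬ Odd 2) ho

theorem mem_zpowers_sq_of_odd {G : Type*} [Group G] {w : G} (ho : Odd (orderOf w)) :
    w ∈ Subgroup.zpowers (w ^ 2) := by
  obtain ⟨k, hk⟩ := ho
  refine ⟨(k : ℤ) + 1, ?_⟩
  simp only
  rw [← zpow_natCast w 2, ← zpow_mul]
  have : ((2 : ℕ) : ℤ) * ((k : ℤ) + 1) = ((orderOf w : ℕ) : ℤ) + 1 := by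
    rw [hk]; push_cast; ring
  rw [this, zpow_add, zpow_natCast, pow_orderOf_eq_one, one_mul, zpow_one]

section

variable {G : Type u} [Group G] (h : RC G) (ht : ∀ g : G, IsOfFinOrder g)

include h ht

/-- The key step for the centrality of `x ^ 2`. -/
theorem normalises_of_sq {z a w : G} (ha : a ^ 2 = z) (hz1 : z ≠ 1) (hz2 : z ^ 2 = 1)
    (hw : z * w * z⁻¹ = w⁻¹) (hp : (orderOf w).Prime) (ho : Odd (orderOf w)) :
    a * w * a⁻¹ ∈ Subgroup.zpowers w := by
  have hw1 : w ≠ 1 := by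
    rintro rfl
    rw [orderOf_one] at hp
    exact Nat.not_prime_one hp
  set L := Subgroup.closure ({w, a * w * a⁻¹} : Set G) with hL
  have hfin : Finite L := finite_closure_pair h ht _ _
  have hsol : Group.IsSolvable L := h.bs _ _
  have hwL : w ∈ L := Subgroup.subset_closure (by simp)
  have hwL' : a * w * a⁻¹ ∈ L := Subgroup.subset_closure (by simp)
  have hn : ∀ l ∈ L, a * l * a⁻¹ ∈ L := by
    intro l hl
    have h1 : L ≤ L.comap (MulAut.conj a).toMonoidHom := by
      conv_lhs => rw [hL]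
      rw [Subgroup.closure_le]
      intro g hg
      rcases hg with rfl | hg
      · exact hwL'
      · rw [Set.mem_singleton_iff] at hg
        rw [hg]
        change a * (a * w * a⁻¹) * a⁻¹ ∈ L
        have h2 : a * (a * w * a⁻¹) * a⁻¹ = w⁻¹ := by
          rw [← hw, ← ha, sq]; group
        rw [h2]
        exact L.inv_mem hwL
    exact h1 hl
  obtain ⟨M, hM, hMs, hLM, haM⟩ := exists_finite_soluble_sup L hsol a (ht a) hn
  have hcM : CC M := CC.subgroup h.cc M
  have hzM : z ∈ M := by rw [← ha]; exact M.pow_mem haM 2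
  rcases structure_lemma hMs hcM with ⟨F, hFn, hFc, -, hcomF⟩ | ⟨x, y, hQ, hN⟩
  · have h1 : (⟨w, hLM hwL⟩ : M) ∈ F := by
      have h2 := hcomF ⟨z, hzM⟩ ⟨w, hLM hwL⟩
      have h3 : ⁅(⟨z, hzM⟩ : M), (⟨w, hLM hwL⟩ : M)⁆ = (⟨w, hLM hwL⟩ : M)⁻¹ ^ 2 := by
        apply Subtype.ext
        change z * w * z⁻¹ * w⁻¹ = w⁻¹ ^ 2
        rw [hw, sq]
      rw [h3, inv_pow, Subgroup.inv_mem_iff] at h2
      have h4 : (⟨w, hLM hwL⟩ : M) ∈ Subgroup.zpowers ((⟨w, hLM hwL⟩ : M) ^ 2) := by
        apply mem_zpowers_sq_of_odd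
        rw [Subgroup.orderOf_mk]
        exact ho
      exact (Subgroup.zpowers_le.2 h2) h4
    have h2 : (⟨a, haM⟩ : M) * ⟨w, hLM hwL⟩ * (⟨a, haM⟩ : M)⁻¹ ∈ F := hFn.conj_mem _ h1 _
    have h3 : Commute (a * w * a⁻¹) w := congrArg Subtype.val (hFc _ h2 _ h1).eq
    apply h.mem_zpowers h3 _ hp.ne_zero
    exact orderOf_injective (MulAut.conj a).toMonoidHom (MulAut.conj a).injective w
  · exfalso
    have hcen := hQ.central_of_normal hcM hN
    have hzeq : (⟨z, hzM⟩ : M) = x ^ 2 := by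
      apply hcM.involution_eq (hcen _) _ _ hQ.2.2 hQ.z2
      · intro h1
        exact hz1 (congrArg Subtype.val h1)
      · apply Subtype.ext
        exact hz2
    have h1 := hcen ⟨w, hLM hwL⟩
    rw [← hzeq] at h1
    have h2 : Commute w z := congrArg Subtype.val h1.eq
    exact not_commute_of_inv hw ho hw1 h2.symm

theorem IsQ.central {x y : G} (hQ : IsQ x y) (g : G) : Commute g (x ^ 2) := by
  set z := x ^ 2 with hz
  have hz1 : z ≠ 1 := hQ.2.2
  have hz2 : z ^ 2 = 1 := hQ.z2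
  have hzi : z⁻¹ = z := inv_eq_of_mul_eq_one_left (by rw [← sq]; exact hz2)
  by_contra hgz
  set z' := g * z * g⁻¹ with hz'
  have hne : z' ≠ z := fun h1 => hgz (mul_inv_eq_iff_eq_mul.1 h1)
  have hz'1 : z' ≠ 1 := by
    intro h1
    apply hz1
    have : z = g⁻¹ * z' * g := by rw [hz']; group
    rw [this, h1]; group
  have hz'2 : z' ^ 2 = 1 := by rw [hz', conj_pow, hz2]; group
  have hzi' : z'⁻¹ = z' := inv_eq_of_mul_eq_one_left (by rw [← sq]; exact hz'2)
  set w := z * z' with hw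
  have hwi : w⁻¹ = z' * z := by rw [hw, mul_inv_rev z z', hzi, hzi']
  have hzw : z * w * z⁻¹ = w⁻¹ := by
    rw [hwi, hzi, hw, ← mul_assoc, ← sq, hz2, one_mul]
  have hz'w : z' * w * z'⁻¹ = w⁻¹ := by
    rw [hwi, hzi', hw, mul_assoc z' (z * z') z', mul_assoc z z' z', ← sq z', hz'2, mul_one]
  have hw1 : w ≠ 1 := by
    intro h1
    apply hne
    rw [hw] at h1
    rw [← inv_eq_of_mul_eq_one_right h1, hzi]
  have hpos : 0 < orderOf w := (ht w).orderOf_pos
  have hodd : Odd (orderOf w) := by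
    rw [← Nat.not_even_iff_odd]
    intro hev
    have h2 : 2 ∣ orderOf w := hev.two_dvd
    set v := w ^ (orderOf w / 2) with hv
    have hvo : orderOf v = 2 := orderOf_pow_orderOf_div hpos.ne' h2
    have hv1 : v ≠ 1 := by
      intro h3
      rw [h3, orderOf_one] at hvo
      norm_num at hvo
    have hv2 : v ^ 2 = 1 := by rw [← hvo]; exact pow_orderOf_eq_one v
    have hvi : v⁻¹ = v := inv_eq_of_mul_eq_one_left (by rw [← sq]; exact hv2)
    have h3 : Commute v z := by
      have := pow_inv_eq_of_conj hzw (orderOf w / 2)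
      rw [← hv, hvi] at this
      exact (mul_inv_eq_iff_eq_mul.1 this).symm
    have h4 : Commute v z' := by
      have := pow_inv_eq_of_conj hz'w (orderOf w / 2)
      rw [← hv, hvi] at this
      exact (mul_inv_eq_iff_eq_mul.1 this).symm
    have h5 : v = z := CC.involution_eq h.cc h3 hv1 hv2 hz1 hz2
    have h6 : v = z' := CC.involution_eq h.cc h4 hv1 hv2 hz'1 hz'2
    exact hne (h6.symm.trans h5)
  obtain ⟨q, hq, hqd⟩ := Nat.exists_prime_and_dvd
    (fun h1 : orderOf w = 1 => hw1 (orderOf_eq_one_iff.1 h1))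
  set ρ := w ^ (orderOf w / q) with hρ
  have hρo : orderOf ρ = q := orderOf_pow_orderOf_div hpos.ne' hqd
  have hρp : (orderOf ρ).Prime := by rw [hρo]; exact hq
  have hρodd : Odd (orderOf ρ) := by rw [hρo]; exact hodd.of_dvd_nat hqd
  have hρz : z * ρ * z⁻¹ = ρ⁻¹ := pow_inv_eq_of_conj hzw _
  have hρ1 : ρ ≠ 1 := by
    intro h1
    rw [h1, orderOf_one] at hρo
    exact hq.one_lt.ne hρo
  have h1 := normalises_of_sq h ht (z := z) (a := x) (w := ρ) rfl hz1 hz2 hρz hρp hρodd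
  have h2 := normalises_of_sq h ht (z := z) (a := y) (w := ρ) hQ.1.symm hz1 hz2 hρz hρp hρodd
  have h3 := comm_act (ht ρ) h1 h2
  rw [hQ.commutator] at h3
  exact not_commute_of_inv hρz hρodd hρ1 h3

end

/-- A unique involution. -/
structure UI {G : Type*} [Group G] (z : G) : Prop where
  ne : z ≠ 1
  sq : z ^ 2 = 1
  cen : ∀ g, Commute g z
  uni : ∀ s : G, s ^ 2 = 1 → s = 1 ∨ s = z

theorem IsQ.ui {G : Type u} [Group G] (h : RC G) (ht : ∀ g : G, IsOfFinOrder g) {x y : G}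
    (hQ : IsQ x y) : UI (x ^ 2) := by
  refine ⟨hQ.2.2, hQ.z2, hQ.central h ht, ?_⟩
  intro s hs
  by_cases hs1 : s = 1
  · exact Or.inl hs1
  · exact Or.inr (CC.involution_eq h.cc (hQ.central h ht s) hs1 hs hQ.2.2 hQ.z2)

end Pool.Agent.Lib.MP_544a1b_al
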