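import Pool.Agent.Lib.MP_544a1b_al.Basic
import Pool.Agent.Lib.MP_544a1b_al.OneInf2

/-! Finite `p`-groups whose abelian subgroups are cyclic and which have no quaternion subgroup. -/

set_option autoImplicit false

universe u

namespace Pool.Agent.Lib.MP_544a1b_al

open Subgroup
open scoped commutatorElement

/-- Commuting elements generate cyclic subgroups. -/
def CC (G : Type*) [Group G] : Prop :=
  ∀ x y : G, Commute x y → ∃ z ∈ Subgroup.closure ({x, y} : Set G),
    x ∈ Subgroup.zpowers z ∧ y ∈ Subgroup.zpowers z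

/-- There is no quaternion subgroup of order eight. -/
def NoQ (G : Type*) [Group G] : Prop :=
  ∀ x y : G, x ^ 2 = y ^ 2 → y * x * y⁻¹ = x⁻¹ → x ^ 2 = 1

theorem CC.subgroup {G : Type*} [Group G] (h : CC G) (H : Subgroup G) : CC H := by
  intro x y hxy
  have h1 : Commute (x : G) (y : G) := congrArg Subtype.val hxy.eq
  obtain ⟨z, hz, ⟨k, hk⟩, ⟨l, hl⟩⟩ := h x y h1
  have hcl : Subgroup.closure ({(x : G), (y : G)} : Set G) =
      (Subgroup.closure ({x, y} : Set H)).map H.subtype := by
    rw [map_closure_pair]; rfl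
  rw [hcl] at hz
  obtain ⟨z', hz', rfl⟩ := hz
  exact ⟨z', hz', ⟨k, Subtype.ext (by simpa using hk)⟩, ⟨l, Subtype.ext (by simpa using hl)⟩⟩

theorem NoQ.subgroup {G : Type*} [Group G] (h : NoQ G) (H : Subgroup G) : NoQ H := by
  intro x y h1 h2
  apply Subtype.ext
  exact h x y (congrArg Subtype.val h1) (congrArg Subtype.val h2)

theorem CC.mem_zpowers {G : Type*} [Group G] (h : CC G) {s t : G} (hc : Commute s t)
    (ho : orderOf s = orderOf t) (h0 : orderOf t ≠ 0) : s ∈ Subgroup.zpowers t := by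
  obtain ⟨z, -, h1, h2⟩ := h s t hc
  exact mem_zpowers_of_orderOf_eq h1 h2 ho h0

/-- A finite commutative subgroup is cyclic. -/
theorem CC.exists_gen {G : Type*} [Group G] (h : CC G) (A : Subgroup G) [Finite A]
    (hA : ∀ x ∈ A, ∀ y ∈ A, Commute x y) : ∃ a ∈ A, ∀ x ∈ A, x ∈ Subgroup.zpowers a := by
  obtain ⟨a, ha⟩ := Finite.exists_max (fun a : A => orderOf (a : G))
  refine ⟨a, a.2, ?_⟩
  intro x hx
  obtain ⟨z, hz, h1, h2⟩ := h x a (hA x hx a a.2)
  have hzA : z ∈ A := by
    have : Subgroup.closure ({x, (a : G)} : Set G) ≤ A := by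
      rw [Subgroup.closure_le]
      intro g hg
      rcases hg with rfl | hg
      · exact hx
      · rw [Set.mem_singleton_iff] at hg
        rw [hg]; exact a.2
    exact this hz
  have h3 : orderOf z ≤ orderOf (a : G) := ha ⟨z, hzA⟩
  have h4 : orderOf (a : G) ∣ orderOf z := orderOf_dvd_of_mem_zpowers h2
  have hzf : IsOfFinOrder z := by
    have := isOfFinOrder_of_finite (⟨z, hzA⟩ : A)
    exact MonoidHom.isOfFinOrder A.subtype this
  have h5 : orderOf (a : G) = orderOf z :=
    le_antisymm (Nat.le_of_dvd hzf.orderOf_pos h4) h3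
  have h6 : z ∈ Subgroup.zpowers (a : G) :=
    mem_zpowers_of_orderOf_eq (Subgroup.mem_zpowers z) h2 h5.symm (by
      rw [h5]; exact hzf.orderOf_pos.ne')
  exact (Subgroup.zpowers_le.2 h6) h1

theorem class_two_pow {G : Type*} [Group G] {y b d : G} (hdy : Commute d y) (hdb : Commute d b)
    (hd : y * b = d * b * y) (n : ℕ) : (y * b) ^ n * d ^ (n * (n - 1) / 2) = y ^ n * b ^ n := by
  have h1 : ∀ n : ℕ, y * b ^ n = d ^ n * b ^ n * y := by
    intro n
    induction n with
    | zero => simp
    | succ n ih =>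
      calc y * b ^ (n + 1) = y * b ^ n * b := by rw [pow_succ, mul_assoc]
        _ = d ^ n * b ^ n * (y * b) := by rw [ih, mul_assoc]
        _ = d ^ n * b ^ n * (d * (b * y)) := by rw [hd, mul_assoc d b y]
        _ = d ^ n * (b ^ n * d) * (b * y) := by simp only [mul_assoc]
        _ = d ^ n * (d * b ^ n) * (b * y) := by rw [(hdb.pow_right n).eq]
        _ = d ^ (n + 1) * b ^ (n + 1) * y := by
            rw [pow_succ d, pow_succ b]; simp only [mul_assoc]
  induction n with
  | zero => simp
  | succ n ih =>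
    have h2 : (n + 1) * (n + 1 - 1) / 2 = n * (n - 1) / 2 + n := by
      rcases n with _ | n
      · simp
      · have : (n + 1 + 1) * (n + 1 + 1 - 1) = (n + 1) * (n + 1 - 1) + (n + 1) * 2 := by
          simp only [Nat.add_sub_cancel]; ring
        rw [this, Nat.add_mul_div_right _ _ (by norm_num : 0 < 2)]
    have hdyb : Commute d (y * b) := hdy.mul_right hdb
    calc (y * b) ^ (n + 1) * d ^ ((n + 1) * (n + 1 - 1) / 2)
        = (y * b) ^ n * ((y * b) * d ^ (n * (n - 1) / 2 + n)) := by
          rw [h2, pow_succ, mul_assoc]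
      _ = (y * b) ^ n * (d ^ (n * (n - 1) / 2 + n) * (y * b)) := by
          rw [(hdyb.pow_left _).eq]
      _ = (y * b) ^ n * d ^ (n * (n - 1) / 2) * (d ^ n * (y * b)) := by
          rw [pow_add]; simp only [mul_assoc]
      _ = y ^ n * b ^ n * (d ^ n * (y * b)) := by rw [ih]
      _ = y ^ n * (d ^ n * b ^ n * y) * b := by
          have : b ^ n * d ^ n = d ^ n * b ^ n := ((hdb.pow_pow n n).eq).symm
          calc y ^ n * b ^ n * (d ^ n * (y * b)) = y ^ n * (b ^ n * d ^ n) * y * b := by
                simp only [mul_assoc]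
            _ = _ := by rw [this]; simp only [mul_assoc]
      _ = y ^ n * (y * b ^ n) * b := by rw [h1]
      _ = y ^ (n + 1) * b ^ (n + 1) := by
          rw [pow_succ y, pow_succ b]; simp only [mul_assoc]

theorem comm_of_isPGroup_aux (p : ℕ) [hpp : Fact p.Prime] (N : ℕ) :
    ∀ (P : Type u) [Group P] [Finite P], Nat.card P = N → IsPGroup p P → CC P → NoQ P →
      ∀ x y : P, Commute x y := by
  induction N using Nat.strong_induction_on with
  | _ N IH =>
  intro P _ _ hN hp hcc hq
  have hp0 : 0 < p := hpp.out.pos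
  have hprop : ∀ S : Subgroup P, S ≠ ⊤ → ∀ x ∈ S, ∀ y ∈ S, Commute x y := by
    intro S hS x hx y hy
    have h1 : Nat.card S < N := by
      rw [← hN]
      apply lt_of_le_of_ne (Subgroup.card_le_card_group S)
      intro h2
      exact hS ((Subgroup.card_eq_iff_eq_top S).1 h2)
    have h2 := IH _ h1 S rfl (hp.to_subgroup S) (hcc.subgroup S) (hq.subgroup S) ⟨x, hx⟩ ⟨y, hy⟩
    exact congrArg Subtype.val h2.eq
  by_contra hnc
  push Not at hnc
  obtain ⟨x, y, hxy⟩ := hnc
  obtain ⟨n, hn⟩ := (IsPGroup.iff_card.1 hp)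
  -- subgroups of index `p` containing a given element
  have hmax : ∀ x y : P, ¬ Commute x y → ∃ A : Subgroup P, x ∈ A ∧ A.Normal ∧ A.index = p ∧
      (∀ s ∈ A, ∀ t ∈ A, Commute s t) ∧ (∀ s t : P, ⁅s, t⁆ ∈ A) := by
    intro x y hxy
    have hzt : Subgroup.zpowers x ≠ ⊤ := by
      intro hcon
      have : y ∈ Subgroup.zpowers x := by rw [hcon]; trivial
      obtain ⟨k, rfl⟩ := this
      exact hxy ((Commute.refl x).zpow_right k)
    obtain ⟨m, hm⟩ := IsPGroup.iff_card.1 (hp.to_subgroup (Subgroup.zpowers x))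
    have hmn : m < n := by
      have h1 : Nat.card (Subgroup.zpowers x) < Nat.card P := by
        apply lt_of_le_of_ne (Subgroup.card_le_card_group _)
        intro h2
        exact hzt ((Subgroup.card_eq_iff_eq_top _).1 h2)
      rw [hm, hn] at h1
      exact (Nat.pow_lt_pow_iff_right hpp.out.one_lt).1 h1
    obtain ⟨k, rfl⟩ : ∃ k, n = k + 1 := ⟨n - 1, by omega⟩
    obtain ⟨A, hA, hxA⟩ := Sylow.exists_subgroup_card_pow_prime_le p
      (by rw [hn]; exact pow_dvd_pow p (Nat.le_succ k) : p ^ k ∣ Nat.card P)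
      (Subgroup.zpowers x) hm (by omega)
    have hidx : A.index = p := by
      have h1 := A.card_mul_index
      rw [hA, hn, pow_succ] at h1
      exact Nat.eq_of_mul_eq_mul_left (pow_pos hp0 k) h1
    have hAn : A.Normal := by
      apply Subgroup.normal_of_index_eq_minFac_card
      rw [hidx, hn, hpp.out.pow_minFac (Nat.succ_ne_zero k)]
    refine ⟨A, hxA (Subgroup.mem_zpowers x), hAn, hidx, ?_, ?_⟩
    · apply hprop A
      intro hcon
      rw [hcon, Subgroup.index_top] at hidx
      exact hpp.out.one_lt.ne hidx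
    · intro s t
      have hcyc : IsCyclic (P ⧸ A) := by
        apply isCyclic_of_prime_card (p := p)
        rw [← Subgroup.index_eq_card, hidx]
      let _ := IsCyclic.commGroup (α := P ⧸ A)
      rw [← QuotientGroup.eq_one_iff]
      have h1 : ((⁅s, t⁆ : P) : P ⧸ A) = ⁅(s : P ⧸ A), (t : P ⧸ A)⁆ :=
        map_commutatorElement (QuotientGroup.mk' A) s t
      rw [h1]
      exact commutatorElement_eq_one_iff_mul_comm.2 (mul_comm _ _)
  obtain ⟨A, hxA, hAn, hAi, hAc, hAd⟩ := hmax x y hxy
  obtain ⟨B, hyB, hBn, hBi, hBc, hBd⟩ := hmax y x (fun h => hxy h.symm)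
  have hyA : y ∉ A := fun h1 => hxy (hAc x hxA y h1)
  obtain ⟨a, haA, hgen⟩ := hcc.exists_gen A hAc
  have hya : ¬ Commute y a := by
    intro h1
    obtain ⟨k, hk⟩ := hgen x hxA
    simp only at hk
    apply hxy
    rw [← hk]
    exact (h1.symm.zpow_left k)
  set c := ⁅y, a⁆ with hc
  have hcA : c ∈ A := hAd y a
  have hcB : c ∈ B := hBd y a
  have hca : Commute c a := hAc c hcA a haA
  have hcy : Commute c y := hBc c hcB y hyB
  have hc1 : c ≠ 1 := fun h1 => hya (commutatorElement_eq_one_iff_commute.1 h1)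
  have hypA : y ^ p ∈ A := by rw [← hAi]; exact A.pow_index_mem y
  have hcp : c ^ p = 1 := by
    rw [hc, ← commutator_pow_left y a hcy]
    exact commutatorElement_eq_one_iff_commute.2 (hAc _ hypA a haA)
  have hco : orderOf c = p := orderOf_eq_prime hcp hc1
  -- `y ^ p` is a `p`-th power of an element of `A`
  obtain ⟨m, hm⟩ := hgen _ hypA
  simp only at hm
  obtain ⟨s, hs⟩ := (IsPGroup.iff_orderOf.1 hp) a
  have hdvd : (p : ℤ) ∣ m := by
    by_contra hnd
    have hcop : IsCoprime m ((orderOf a : ℕ) : ℤ) := by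
      rw [hs, Nat.cast_pow]
      apply IsCoprime.pow_right
      exact ((Nat.prime_iff_prime_int.1 hpp.out).coprime_iff_not_dvd.2 hnd).symm
    obtain ⟨u, v, huv⟩ := hcop
    apply hya
    have h1 : a = (y ^ p) ^ u := by
      rw [← hm, ← zpow_mul]
      have h2 : a ^ (u * m + v * (orderOf a : ℤ)) = a := by rw [huv, zpow_one]
      rw [zpow_add, zpow_mul a v, mul_comm u m] at h2
      conv_lhs => rw [← h2]
      have h3 : (a ^ v) ^ ((orderOf a : ℕ) : ℤ) = 1 := by
        rw [← zpow_mul, mul_comm, zpow_mul, zpow_natCast, pow_orderOf_eq_one, one_zpow]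
      rw [h3, mul_one]
    rw [h1]
    exact ((Commute.refl y).pow_right p).zpow_right u
  obtain ⟨k, rfl⟩ := hdvd
  set b := a ^ (-k) with hb
  have hbA : b ∈ A := A.zpow_mem haA _
  have hypb : y ^ p * b ^ p = 1 := by
    rw [← hm, hb, ← zpow_natCast (a ^ (-k)), ← zpow_mul, ← zpow_add]
    have : (p : ℤ) * k + -k * (p : ℤ) = 0 := by ring
    rw [this, zpow_zero]
  set d := ⁅y, b⁆ with hd
  have hdA : d ∈ A := hAd y b
  have hdB : d ∈ B := hBd y b
  have hdb : Commute d b := hAc d hdA b hbA
  have hdy : Commute d y := hBc d hdB y hyB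
  have hda : Commute d a := hAc d hdA a haA
  have hdp : d ^ p = 1 := by
    rw [hd, ← commutator_pow_left y b hdy]
    exact commutatorElement_eq_one_iff_commute.2 (hAc _ hypA b hbA)
  have hyb : y * b = d * b * y := by
    rw [hd, commutatorElement_def]; group
  have hpow := class_two_pow hdy hdb hyb p
  rw [hypb] at hpow
  have hwA : y * b ∉ A := fun h1 => hyA ((A.mul_mem_cancel_right hbA).1 h1)
  have hcw : Commute c (y * b) := hcy.mul_right (hAc c hcA b hbA)
  -- no element of order `p` outside `A` commuting with `c`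
  have hkey : ∀ w : P, w ∉ A → Commute c w → w ^ p ≠ 1 := by
    intro w hw hcw h1
    have hw1 : w ≠ 1 := fun h2 => hw (h2 ▸ A.one_mem)
    have h2 : orderOf w = p := orderOf_eq_prime h1 hw1
    have h3 : w ∈ Subgroup.zpowers c :=
      hcc.mem_zpowers hcw.symm (h2.trans hco.symm) (by rw [hco]; exact hp0.ne')
    exact hw ((Subgroup.zpowers_le.2 hcA) h3)
  rcases hpp.out.eq_two_or_odd' with h2 | hodd
  · -- `p = 2`
    subst h2
    norm_num at hpow hcp hco hdp
    have hd1 : d ≠ 1 := by
      intro h1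
      rw [h1, mul_one] at hpow
      exact hkey (y * b) hwA hcw hpow
    have hdo : orderOf d = 2 := orderOf_eq_prime hdp hd1
    have hdc : d = c := by
      have h1 : d ∈ Subgroup.zpowers c := hcc.mem_zpowers (hAc d hdA c hcA)
        (hdo.trans hco.symm) (by rw [hco]; norm_num)
      obtain ⟨j, hj⟩ := h1
      simp only at hj
      rcases Int.even_or_odd' j with ⟨i, hi | hi⟩
      · exfalso
        apply hd1
        rw [← hj, hi, zpow_mul, zpow_ofNat, hcp, one_zpow]
      · rw [← hj, hi, zpow_add, zpow_mul, zpow_ofNat, hcp, one_zpow, one_mul, zpow_one]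
    set w := y * b with hw
    have hw2 : w ^ 2 = c := by
      rw [hdc] at hpow
      have h1 : w ^ 2 * c * c = c := by rw [hpow, one_mul]
      rw [mul_assoc, ← sq, hcp, mul_one] at h1
      exact h1
    have hwa : w * a = c * a * w := by
      have h1 : b * a = a * b := (hAc b hbA a haA).eq
      have h2 : y * a = c * a * y := by rw [hc, commutatorElement_def]; group
      calc w * a = y * (b * a) := by rw [hw, mul_assoc]
        _ = y * a * b := by rw [h1, mul_assoc]
        _ = c * a * (y * b) := by rw [h2, mul_assoc]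
        _ = c * a * w := rfl
    -- the order of `a`
    obtain ⟨j, hj⟩ := hgen c hcA
    have hs2 : 2 ≤ s := by
      by_contra hlt
      have h1 : orderOf a ∣ 2 := by
        rw [hs]
        have : s ≤ 1 := by omega
        exact (pow_dvd_pow 2 this).trans (by norm_num)
      have h2 : a ^ 2 = 1 := orderOf_dvd_iff_pow_eq_one.1 h1
      have ha1 : a ≠ 1 := fun h3 => hya (by rw [h3]; exact Commute.one_right y)
      have h3 : orderOf a = 2 := orderOf_eq_prime h2 ha1
      have h4 : a ∈ Subgroup.zpowers c := hcc.mem_zpowers hca.symm (h3.trans hco.symm)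
        (by rw [hco]; norm_num)
      obtain ⟨i, hi⟩ := h4
      simp only at hi
      apply hya
      rw [← hi]
      exact (hcy.symm.zpow_right i)
    have hhalf : a ^ (2 ^ (s - 1)) = c := by
      have h1 : orderOf (a ^ (2 ^ (s - 1))) = 2 := by
        rw [orderOf_pow_of_dvd (pow_ne_zero _ (by norm_num)) (by
          rw [hs]; exact pow_dvd_pow 2 (Nat.sub_le _ _)), hs]
        obtain ⟨r, rfl⟩ : ∃ r, s = r + 1 := ⟨s - 1, by omega⟩
        rw [Nat.add_sub_cancel, pow_succ, Nat.mul_div_cancel_left _ (pow_pos (by norm_num) r)]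
      have h2 : a ^ (2 ^ (s - 1)) ∈ Subgroup.zpowers c :=
        hcc.mem_zpowers (hca.symm.pow_left _) (h1.trans hco.symm) (by rw [hco]; norm_num)
      have h3 : a ^ (2 ^ (s - 1)) ≠ 1 := by
        intro h4
        rw [h4, orderOf_one] at h1
        norm_num at h1
      obtain ⟨i, hi⟩ := h2
      simp only at hi
      rcases Int.even_or_odd' i with ⟨r, hr | hr⟩
      · exfalso
        apply h3
        rw [← hi, hr, zpow_mul, zpow_ofNat, hcp, one_zpow]
      · rw [← hi, hr, zpow_add, zpow_mul, zpow_ofNat, hcp, one_zpow, one_mul, zpow_one]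
    by_cases hs3 : s = 2
    · subst hs3
      norm_num at hhalf
      apply hc1
      have h1 : w * a * w⁻¹ = a⁻¹ := by
        rw [hwa, mul_inv_cancel_right, ← hhalf]
        have h2 : a ^ 2 * a ^ 2 = 1 := by rw [hhalf, ← sq, hcp]
        have h3 : a ^ 2 * a * a = 1 := by
          rw [mul_assoc, ← sq]; exact h2
        exact eq_inv_of_mul_eq_one_left h3
      have h2 := hq a w (by rw [hhalf, hw2]) h1
      rw [← hhalf]; exact h2
    · -- `8` divides the order of `a`
      obtain ⟨r, rfl⟩ : ∃ r, s = r + 3 := ⟨s - 3, by omega⟩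
      have h1 : a ^ (2 ^ (r + 1)) * a ^ (2 ^ (r + 1)) = c := by
        rw [← pow_add, ← two_mul, ← pow_succ']
        exact hhalf
      have h2 : w * a ^ (2 ^ (r + 1)) = a ^ (2 ^ (r + 1)) * w := by
        have h3 : ∀ i : ℕ, w * a ^ i = c ^ i * a ^ i * w := by
          intro i
          induction i with
          | zero => simp
          | succ i ih =>
            calc w * a ^ (i + 1) = w * a ^ i * a := by rw [pow_succ, ← mul_assoc]
              _ = c ^ i * a ^ i * (w * a) := by rw [ih, mul_assoc (c ^ i * a ^ i)]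
              _ = c ^ i * (a ^ i * c) * (a * w) := by rw [hwa]; simp only [mul_assoc]
              _ = c ^ i * (c * a ^ i) * (a * w) := by rw [(hca.pow_right i).eq]
              _ = _ := by rw [pow_succ c, pow_succ a]; simp only [mul_assoc]
        rw [h3, pow_succ', pow_mul c, hcp, one_pow, one_mul]
      have h3 : (w * a ^ (2 ^ (r + 1))) ^ 2 = 1 := by
        have h4 : Commute w (a ^ (2 ^ (r + 1))) := h2
        rw [h4.mul_pow, hw2, sq (a ^ _), h1, ← sq, hcp]
      refine hkey (w * a ^ (2 ^ (r + 1))) ?_ ?_ h3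
      · exact fun h4 => hwA ((A.mul_mem_cancel_right (A.pow_mem haA _)).1 h4)
      · exact hcw.mul_right (hca.pow_right _)
  · -- `p` odd
    apply hkey (y * b) hwA hcw
    have h1 : d ^ (p * (p - 1) / 2) = 1 := by
      obtain ⟨r, hr⟩ := hodd
      have h2 : p * (p - 1) / 2 = p * r := by
        rw [hr, Nat.add_sub_cancel, ← mul_assoc, mul_comm (2 * r + 1) 2, mul_assoc,
          Nat.mul_div_cancel_left _ (by norm_num : 0 < 2)]
      rw [h2, pow_mul, hdp, one_pow]
    rw [h1, mul_one] at hpow
    exact hpow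

end Pool.Agent.Lib.MP_544a1b_al
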