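import Pool.Agent.Lib.MP_544a1b_al.Hall

/-! Reduction to groups whose elements have orders divisible by two and three only. -/

set_option autoImplicit false

universe u

namespace Pool.Agent.Lib.MP_544a1b_al

open Subgroup
open scoped commutatorElement

section

variable {G : Type u} [Group G] (h : RC G) (ht : ∀ g : G, IsOfFinOrder g) {z : G} (hz : UI z)

/-- The elements of prime order at least five generating normal subgroups. -/
def E5 (G : Type u) [Group G] : Set G :=
  {s | (orderOf s).Prime ∧ 5 ≤ orderOf s ∧ ∀ g : G, g * s * g⁻¹ ∈ Subgroup.zpowers s}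

include ht in
theorem commutator_mem_D (x y : G) : ⁅x, y⁆ ∈ Subgroup.centralizer (E5 G) := by
  rw [Subgroup.mem_centralizer_iff]
  rintro t ⟨-, -, hn⟩
  exact (comm_act (ht t) (hn x) (hn y)).eq.symm

include h ht hz

theorem commute_of_D {s t : G} (hs : s ∈ Subgroup.centralizer (E5 G))
    (htD : t ∈ Subgroup.centralizer (E5 G)) (hbs : Big (orderOf s)) (hbt : Big (orderOf t)) :
    Commute s t := by
  set M := Subgroup.closure ({s, t} : Set G) with hM
  have hfin : Finite M := finite_closure_pair h ht s t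
  have hsol : Group.IsSolvable M := h.bs s t
  have hsM : s ∈ M := Subgroup.subset_closure (by simp)
  have htM : t ∈ M := Subgroup.subset_closure (by simp)
  have hcM : CC M := CC.subgroup h.cc M
  rcases structure_lemma hsol hcM with ⟨F, hFn, hFc, hself, -⟩ | ⟨x, y, hQ, hN⟩
  · have key : ∀ u : G, u ∈ Subgroup.centralizer (E5 G) → Big (orderOf u) → ∀ huM : u ∈ M,
        (⟨u, huM⟩ : M) ∈ F := by
      intro u hu hbu huM
      apply hself
      intro f hf
      have hcon : ∀ t' ∈ Subgroup.zpowers (f : G), u * t' * u⁻¹ ∈ Subgroup.zpowers t' := by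
        intro t' ht'
        obtain ⟨j, rfl⟩ := ht'
        have h1 := hcM.conj_mem hFn hFc (F.zpow_mem hf j) (isOfFinOrder_of_finite _) ⟨u, huM⟩
        obtain ⟨i, hi⟩ := h1
        refine ⟨i, ?_⟩
        have := congrArg Subtype.val hi
        simpa using this
      have h1 : Commute u (f : G) := by
        apply commute_of_five h ht hz hbu (hcon f (Subgroup.mem_zpowers _))
        intro t' ht' htp ht5
        by_contra hno
        have h2 := per_normal5 h ht hz htp ht5 (hcon t' ht') hno
        apply hno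
        exact (Subgroup.mem_centralizer_iff.1 hu t' ⟨htp, ht5, h2⟩).symm
      exact Subtype.ext h1.eq
    have h1 := hFc _ (key s hs hbs hsM) _ (key t htD hbt htM)
    exact congrArg Subtype.val h1.eq
  · exfalso
    have hxQ : x ∈ Subgroup.closure ({x, y} : Set M) := Subgroup.subset_closure (by simp)
    have hall : ∀ u : G, Big (orderOf u) → ∀ huM : u ∈ M, Commute (⟨u, huM⟩ : M) x := by
      intro u hbu huM
      have h1 : (⟨u, huM⟩ : M) ∈ Subgroup.zpowers ((⟨u, huM⟩ : M) ^ 12) := by
        apply mem_zpowers_pow_of_coprime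
        rw [Subgroup.orderOf_mk]
        exact hbu.coprime_twelve
      obtain ⟨l, hl⟩ := h1
      simp only at hl
      rw [← hl]
      exact (hQ.pow_twelve (hN _) hxQ hQ.2.2).zpow_left l
    have h1 : M ≤ Subgroup.centralizer ({(x : G)} : Set G) := by
      conv_lhs => rw [hM]
      rw [Subgroup.closure_le]
      intro g hg
      rw [SetLike.mem_coe, mem_centralizer_singleton']
      rcases hg with rfl | hg
      · exact congrArg Subtype.val (hall _ hbs hsM).eq
      · rw [Set.mem_singleton_iff] at hg
        subst hg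
        exact congrArg Subtype.val (hall _ hbt htM).eq
    have h2 : Commute (y : G) (x : G) := (mem_centralizer_singleton' _ _).1 (h1 y.2)
    exact hQ.not_commute (Subtype.ext h2.symm.eq)

/-- Reduction to `{2, 3}`-groups. -/
theorem reduce23 {n : ℕ} (hX : ∀ X : Subgroup G,
    (∀ g ∈ X, ∀ p : ℕ, p.Prime → p ∣ orderOf g → p < 5) → derivedSeries X n = ⊥) :
    derivedSeries G (n + 2) = ⊥ := by
  set D := Subgroup.centralizer (E5 G) with hD
  set R : Set G := {r | r ∈ D ∧ Big (orderOf r)} with hR
  have hRn : ∀ r ∈ R, ∀ g : G, g * r * g⁻¹ ∈ Subgroup.zpowers r := by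
    rintro r ⟨hrD, hrb⟩ g
    have h1 : g * r * g⁻¹ ∈ D := by
      have h2 : g * r * g⁻¹ = ⁅g, r⁆ * r := by rw [commutatorElement_def]; group
      rw [h2]
      exact D.mul_mem (commutator_mem_D ht g r) hrD
    have h2 : Commute (g * r * g⁻¹) r :=
      commute_of_D h ht hz h1 hrD (by rw [orderOf_conj']; exact hrb) hrb
    exact h.mem_zpowers h2 (orderOf_conj' g r) (ht r).orderOf_pos.ne'
  set Y := D ⊓ Subgroup.centralizer R with hY
  have hcomY : ∀ g k : G, ⁅g, k⁆ ∈ Y := by
    intro g k
    rw [hY, Subgroup.mem_inf]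
    refine ⟨commutator_mem_D ht g k, ?_⟩
    rw [Subgroup.mem_centralizer_iff]
    intro r hr
    exact (comm_act (ht r) (hRn r hr g) (hRn r hr k)).eq.symm
  apply dl_of_commutator Y (n := n + 1) _ hcomY
  have hfin : ∀ g ∈ Y, ∀ k ∈ Y, Finite (Subgroup.closure ({g, k} : Set G)) :=
    fun g _ k _ => finite_closure_pair h ht g k
  have hcen : ∀ g ∈ Y, Pi (fun p => ¬ p < 5) g → ∀ y ∈ Y, Commute g y := by
    intro g hg hgp y hy
    have h1 : g ∈ R := by
      refine ⟨(Subgroup.mem_inf.1 hg).1, ?_⟩
      intro p hp hpd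
      have := hgp p hp hpd
      omega
    exact Subgroup.mem_centralizer_iff.1 (Subgroup.mem_inf.1 hy).2 g h1
  apply dl_of_hallSub Y (fun p => p < 5) hfin hcen
  apply hX
  intro g hg p hp hpd
  exact hg.2 p hp hpd

end

end Pool.Agent.Lib.MP_544a1b_al
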