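import Pool.Agent.Lib.MP_544a1b_al.Cls
import Pool.Agent.Lib.MP_544a1b_al.Red

/-! Pairs of three-elements. -/

set_option autoImplicit false

universe u

namespace Pool.Agent.Lib.MP_544a1b_al

open Subgroup
open scoped commutatorElement

/-- Three-elements. -/
def Is3 {G : Type*} [Group G] (g : G) : Prop := ∃ k : ℕ, orderOf g = 3 ^ k

theorem Is3.odd {G : Type*} [Group G] {g : G} (h : Is3 g) : Odd (orderOf g) := by
  obtain ⟨k, hk⟩ := h
  rw [hk]
  exact (by decide : Odd 3).pow

theorem Is3.pow {G : Type*} [Group G] {g : G} (h : Is3 g) (n : ℕ) : Is3 (g ^ n) := by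
  obtain ⟨k, hk⟩ := h
  obtain ⟨j, -, hj⟩ := (Nat.dvd_prime_pow Nat.prime_three).1
    ((orderOf_pow_dvd (x := g) n).trans hk.dvd)
  exact ⟨j, hj⟩

theorem Is3.of_pow_eq {G : Type*} [Group G] {g : G} {k : ℕ} (h : g ^ 3 ^ k = 1) : Is3 g := by
  obtain ⟨j, -, hj⟩ := (Nat.dvd_prime_pow Nat.prime_three).1 (orderOf_dvd_of_pow_eq_one h)
  exact ⟨j, hj⟩

theorem Is3.conj {G : Type*} [Group G] {s : G} (h : Is3 s) (g : G) : Is3 (g * s * g⁻¹) := by
  obtain ⟨k, hk⟩ := h
  exact ⟨k, by rw [orderOf_conj', hk]⟩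

theorem Is3.ne_zero {G : Type*} [Group G] {g : G} (h : Is3 g) : orderOf g ≠ 0 := by
  obtain ⟨k, hk⟩ := h
  rw [hk]
  exact pow_ne_zero _ (by norm_num)

theorem Is3.coe {G : Type*} [Group G] {H : Subgroup G} {g : H} : Is3 (g : G) ↔ Is3 g := by
  unfold Is3
  rw [Subgroup.orderOf_coe]

/-- A three-element that fixes the classes centralises the quaternion group. -/
theorem Is3.commute_of_conj {G : Type*} [Group G] {s x : G} (hs : Is3 s)
    (h : s * x * s⁻¹ = x ∨ s * x * s⁻¹ = x⁻¹) : Commute s x := by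
  have h1 : Commute (s ^ 2) x := by
    rcases h with h | h
    · exact (show Commute s x from mul_inv_eq_iff_eq_mul.1 h).pow_left 2
    · have h2 : s ^ 2 * x * (s ^ 2)⁻¹ = s * (s * x * s⁻¹) * s⁻¹ := by rw [sq]; group
      have h3 : s ^ 2 * x * (s ^ 2)⁻¹ = x := by
        rw [h2, h]
        have : s * x⁻¹ * s⁻¹ = (s * x * s⁻¹)⁻¹ := by group
        rw [this, h, inv_inv]
      exact mul_inv_eq_iff_eq_mul.1 h3
  obtain ⟨l, hl⟩ := mem_zpowers_sq_of_odd hs.odd
  simp only at hl
  rw [← hl]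
  exact h1.zpow_left l

theorem Is3.phi_cube {G : Type*} [Group G] {x y : G} (hQ : IsQ x y) {g : Nz x y}
    (hg : Is3 (g : G)) : hQ.phi g ^ 3 = 1 := by
  obtain ⟨k, hk⟩ := hg
  have h1 : orderOf (hQ.phi g) ∣ 3 ^ k := by
    rw [Subgroup.orderOf_coe] at hk
    rw [← hk]
    exact orderOf_map_dvd _ g
  have h2 : orderOf (hQ.phi g) ∣ 3 * 2 := orderOf_dvd_of_pow_eq_one (perm_six _)
  have h3 : Nat.Coprime (orderOf (hQ.phi g)) 2 := by
    apply Nat.Coprime.coprime_dvd_left h1
    exact Nat.Coprime.pow_left _ (by norm_num)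
  exact orderOf_dvd_iff_pow_eq_one.1 (h3.dvd_of_dvd_mul_right h2)

theorem Is3.commute_of_phi {G : Type*} [Group G] {x y : G} (hQ : IsQ x y) {g : Nz x y}
    (hg : Is3 (g : G)) (h : hQ.phi g = 1) : Commute (g : G) x ∧ Commute (g : G) y := by
  constructor
  · exact hg.commute_of_conj (hQ.phi_eq_one h (i := 0) (Or.inl rfl))
  · exact hg.commute_of_conj (hQ.phi_eq_one h (i := 1) (Or.inl rfl))

/-- The second generator cannot centralise the quaternion group. -/
theorem not_central {M : Type*} [Group M] {α β x y : M} (hgen : ∀ m : M,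
    m ∈ Subgroup.closure ({α, β} : Set M)) (hα : Is3 α) (hQ : IsQ x y)
    (hN : ∀ m : M, ∀ q ∈ Subgroup.closure ({x, y} : Set M),
      m * q * m⁻¹ ∈ Subgroup.closure ({x, y} : Set M))
    (hβx : Commute β x) (hβy : Commute β y) : False := by
  have hQn : (Subgroup.closure ({x, y} : Set M)).Normal := ⟨fun q hq m => hN m q hq⟩
  set C := Subgroup.centralizer (Subgroup.closure ({x, y} : Set M) : Set M) with hC
  have hCn : C.Normal := inferInstance
  have hβC : β ∈ C := by
    rw [hC, Subgroup.mem_centralizer_iff]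
    intro q hq
    exact (commute_closure hβx hβy hq).eq.symm
  have hle : Subgroup.closure ({α, β} : Set M) ≤ Subgroup.zpowers α ⊔ C := by
    rw [Subgroup.closure_le]
    intro u hu
    rcases hu with rfl | hu
    · exact (le_sup_left : Subgroup.zpowers u ≤ _) (Subgroup.mem_zpowers u)
    · rw [Set.mem_singleton_iff] at hu
      rw [hu]
      exact (le_sup_right : C ≤ _) hβC
  have hx := hle (hgen x)
  rw [← SetLike.mem_coe, Subgroup.mul_normal, Set.mem_mul] at hx
  obtain ⟨a, ⟨i, hi⟩, c, hc, hac⟩ := hx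
  simp only at hi
  obtain ⟨k, hk⟩ := hα
  have h1 : x ^ 3 ^ k ∈ C := by
    rw [← QuotientGroup.eq_one_iff, QuotientGroup.mk_pow, ← hac, QuotientGroup.mk_mul,
      (QuotientGroup.eq_one_iff c).2 hc, mul_one, ← QuotientGroup.mk_pow, ← hi, ← zpow_natCast,
      ← zpow_mul, mul_comm, zpow_mul, zpow_natCast, ← hk, pow_orderOf_eq_one, one_zpow,
      QuotientGroup.mk_one]
  have h2 : x ∈ Subgroup.zpowers (x ^ 3 ^ k) := by
    apply mem_zpowers_pow_of_coprime
    rw [hQ.orderOf_x]
    exact Nat.Coprime.pow_left _ (by norm_num)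
  obtain ⟨l, hl⟩ := h2
  simp only at hl
  apply hQ.not_commute
  rw [← hl]
  have h3 : Commute (x ^ 3 ^ k) y :=
    (Subgroup.mem_centralizer_iff.1 h1 y (y_mem_closure x y)).symm
  exact h3.zpow_left l

section

variable {G : Type u} [Group G] (h : RC G) (ht : ∀ g : G, IsOfFinOrder g) {z : G} (hz : UI z)
  (h23 : ∀ g : G, ∀ p : ℕ, p.Prime → p ∣ orderOf g → p < 5)

include h ht hz h23

theorem commute_three_el {s f : G} (hs : Is3 s) (hsf : s * f * s⁻¹ ∈ Subgroup.zpowers f) :
    Commute s f := by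
  have h1 : f ∈ Subgroup.centralizer ({s} : Set G) := by
    apply mem_of_primary _ (orderOf f) f rfl (ht f).orderOf_pos
    rintro m ⟨p, k, hp, hpk⟩
    rw [mem_centralizer_singleton']
    apply Commute.symm
    have hsb := conj_pow_mem hsf m
    by_cases hk : k = 0
    · rw [hk, pow_zero, orderOf_eq_one_iff] at hpk
      rw [hpk]; exact Commute.one_right s
    have hp5 : p < 5 := by
      apply h23 (f ^ m) p hp
      rw [hpk]
      exact dvd_pow_self p hk
    by_cases hp2 : p = 2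
    · subst hp2
      apply commute_of_commute_prime hp _ k _ hpk hsb
      · intro t _ ht2
        rcases hz.uni t ht2 with h3 | h3
        · rw [h3]; exact Commute.one_right s
        · rw [h3]; exact hz.cen s
      · obtain ⟨l, hl⟩ := hs
        rw [hl]
        exact Nat.Coprime.pow_right _ (by norm_num)
    · have hp3 : p = 3 := by
        have := hp.two_le
        have h4 : p ≠ 4 := by
          rintro rfl
          exact absurd hp (by norm_num)
        omega
      subst hp3
      obtain ⟨l, hl⟩ := hs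
      exact commute_of_pelts h.cc hp (by decide) hl hpk hsb
  exact ((mem_centralizer_singleton' _ _).1 h1).symm

/-- Two three-elements that do not commute normalise a common quaternion group and act
nontrivially on it. -/
theorem pair {α β : G} (hα : Is3 α) (hβ : Is3 β) (hn : ¬ Commute α β) :
    ∃ x y : G, IsQ x y ∧ Subgroup.closure ({α, β} : Set G) ≤ Nz x y ∧
      x ∈ Subgroup.closure ({α, β} : Set G) ∧ y ∈ Subgroup.closure ({α, β} : Set G) ∧
      ¬ (Commute α x ∧ Commute α y) ∧ ¬ (Commute β x ∧ Commute β y) := by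
  set M := Subgroup.closure ({α, β} : Set G) with hM
  have hfin : Finite M := finite_closure_pair h ht α β
  have hsol : Group.IsSolvable M := h.bs α β
  have hαM : α ∈ M := Subgroup.subset_closure (by simp)
  have hβM : β ∈ M := Subgroup.subset_closure (by simp)
  have hcM : CC M := CC.subgroup h.cc M
  rcases structure_lemma hsol hcM with ⟨F, hFn, hFc, hself, -⟩ | ⟨x, y, hQ, hN⟩
  · exfalso
    have key : ∀ u : G, Is3 u → ∀ huM : u ∈ M, (⟨u, huM⟩ : M) ∈ F := by
      intro u hu huM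
      apply hself
      intro f hf
      have h1 := hcM.conj_mem hFn hFc hf (isOfFinOrder_of_finite _) ⟨u, huM⟩
      have h2 : u * (f : G) * u⁻¹ ∈ Subgroup.zpowers (f : G) := by
        obtain ⟨i, hi⟩ := h1
        refine ⟨i, ?_⟩
        have := congrArg Subtype.val hi
        simpa using this
      exact Subtype.ext (commute_three_el h ht hz h23 hu h2).eq
    apply hn
    have h1 := hFc _ (key α hα hαM) _ (key β hβ hβM)
    exact congrArg Subtype.val h1.eq
  · have hQG : IsQ (x : G) (y : G) := by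
      refine ⟨congrArg Subtype.val hQ.1, congrArg Subtype.val hQ.2.1, ?_⟩
      intro h1
      exact hQ.2.2 (Subtype.ext h1)
    have hmap : Subgroup.closure ({(x : G), (y : G)} : Set G) =
        (Subgroup.closure ({x, y} : Set M)).map M.subtype := by
      rw [map_closure_pair]; rfl
    have hNG : ∀ m ∈ M, ∀ q ∈ Subgroup.closure ({(x : G), (y : G)} : Set G),
        m * q * m⁻¹ ∈ Subgroup.closure ({(x : G), (y : G)} : Set G) := by
      intro m hm q hq
      rw [hmap] at hq ⊢
      obtain ⟨q', hq', rfl⟩ := hq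
      exact ⟨⟨m, hm⟩ * q' * (⟨m, hm⟩ : M)⁻¹, hN _ _ hq', rfl⟩
    have hgen : ∀ m : M, m ∈ Subgroup.closure ({⟨α, hαM⟩, ⟨β, hβM⟩} : Set M) := by
      intro m
      have h1 : M = (Subgroup.closure ({⟨α, hαM⟩, ⟨β, hβM⟩} : Set M)).map M.subtype := by
        rw [map_closure_pair]; rfl
      have h2 : (m : G) ∈ (Subgroup.closure ({⟨α, hαM⟩, ⟨β, hβM⟩} : Set M)).map M.subtype := by
        rw [← h1]; exact m.2
      obtain ⟨m', hm', h3⟩ := h2
      have : m' = m := Subtype.ext h3
      rw [← this]; exact hm'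
    have hgen' : ∀ m : M, m ∈ Subgroup.closure ({⟨β, hβM⟩, ⟨α, hαM⟩} : Set M) := by
      intro m
      rw [Set.pair_comm]
      exact hgen m
    refine ⟨x, y, hQG, ?_, x.2, y.2, ?_, ?_⟩
    · intro m hm
      rw [Subgroup.mem_normalizer_iff]
      intro q
      constructor
      · exact hNG m hm q
      · intro hq
        have h1 := hNG m⁻¹ (M.inv_mem hm) _ hq
        have h2 : m⁻¹ * (m * q * m⁻¹) * m⁻¹⁻¹ = q := by group
        rw [h2] at h1
        exact h1
    · rintro ⟨h1, h2⟩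
      have h3 : Is3 (⟨β, hβM⟩ : M) := by
        obtain ⟨k, hk⟩ := hβ
        exact ⟨k, by rw [Subgroup.orderOf_mk, hk]⟩
      have h4 : Commute (⟨α, hαM⟩ : M) x := Subtype.ext h1.eq
      have h5 : Commute (⟨α, hαM⟩ : M) y := Subtype.ext h2.eq
      exact not_central (α := (⟨β, hβM⟩ : M)) (β := (⟨α, hαM⟩ : M)) (x := x) (y := y)
        hgen' h3 hQ hN h4 h5
    · rintro ⟨h1, h2⟩
      have h3 : Is3 (⟨α, hαM⟩ : M) := by
        obtain ⟨k, hk⟩ := hα
        exact ⟨k, by rw [Subgroup.orderOf_mk, hk]⟩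
      have h4 : Commute (⟨β, hβM⟩ : M) x := Subtype.ext h1.eq
      have h5 : Commute (⟨β, hβM⟩ : M) y := Subtype.ext h2.eq
      exact not_central (α := (⟨α, hαM⟩ : M)) (β := (⟨β, hβM⟩ : M)) (x := x) (y := y)
        hgen h3 hQ hN h4 h5

omit h23 in
/-- Commuting three-elements. -/
theorem cyc3 {σ τ : G} (hσ : Is3 σ) (hτ : Is3 τ) (hc : Commute σ τ) :
    σ ∈ Subgroup.zpowers (τ ^ 3) ∨ τ ∈ Subgroup.zpowers σ := by
  obtain ⟨a, ha⟩ := hσ
  obtain ⟨b, hb⟩ := hτ
  rcases Nat.lt_or_ge a b with hab | hab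
  · left
    obtain ⟨d, rfl⟩ := Nat.exists_eq_add_of_lt hab
    have ho : orderOf (τ ^ 3 ^ (d + 1)) = 3 ^ a := by
      rw [orderOf_pow_of_dvd (pow_ne_zero _ (by norm_num)) (by
        rw [hb]; exact pow_dvd_pow 3 (by omega)), hb]
      have : a + d + 1 = a + (d + 1) := by ring
      rw [this, pow_add, Nat.mul_div_cancel _ (pow_pos (by norm_num) _)]
    have h1 : σ ∈ Subgroup.zpowers (τ ^ 3 ^ (d + 1)) :=
      h.mem_zpowers (hc.pow_right _) (ha.trans ho.symm) (by
        rw [ho]; exact pow_ne_zero _ (by norm_num))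
    have h2 : τ ^ 3 ^ (d + 1) ∈ Subgroup.zpowers (τ ^ 3) := by
      have h3 : (3 : ℕ) ^ (d + 1) = 3 * 3 ^ d := by rw [pow_succ]; ring
      rw [h3, pow_mul]
      exact Subgroup.pow_mem _ (Subgroup.mem_zpowers _) _
    exact (Subgroup.zpowers_le.2 h2) h1
  · right
    obtain ⟨d, rfl⟩ := Nat.exists_eq_add_of_le hab
    have ho : orderOf (σ ^ 3 ^ d) = 3 ^ b := by
      rw [orderOf_pow_of_dvd (pow_ne_zero _ (by norm_num)) (by
        rw [ha]; exact pow_dvd_pow 3 (by omega)), ha, pow_add,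
        Nat.mul_div_cancel _ (pow_pos (by norm_num) _)]
    have h1 : τ ∈ Subgroup.zpowers (σ ^ 3 ^ d) :=
      h.mem_zpowers (hc.symm.pow_right _) (hb.trans ho.symm) (by
        rw [ho]; exact pow_ne_zero _ (by norm_num))
    exact (Subgroup.zpowers_le.2 (Subgroup.pow_mem _ (Subgroup.mem_zpowers _) _)) h1

omit ht hz h23 in
/-- A two-element centralising a quaternion group. -/
theorem two_part {x y t : G} (hQ : IsQ x y) (hx : Commute t x) (hy : Commute t y) {k : ℕ}
    (hk : orderOf t = 2 ^ k) : t ^ 2 = 1 := by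
  by_contra hne
  obtain ⟨n, hn⟩ := exists_four hk hne
  have h1 : x ∈ Subgroup.zpowers (t ^ n) :=
    h.mem_zpowers (hx.symm.pow_right n) (hQ.orderOf_x.trans hn.symm) (by rw [hn]; norm_num)
  obtain ⟨l, hl⟩ := h1
  simp only at hl
  apply hQ.not_commute
  rw [← hl]
  exact (hy.pow_left n).zpow_left l

/-- Three-elements centralising the quaternion group, and `α` acting nontrivially on it. -/
theorem three_part {x y τ α : G} (hQ : IsQ x y) (hx : Commute τ x) (hy : Commute τ y)
    (hτ : Is3 τ) (hα : Is3 α) (hαN : α ∈ Nz x y) (hαn : ¬ (Commute α x ∧ Commute α y)) :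
    τ ∈ Subgroup.zpowers (α ^ 3) := by
  have hτQ : ∀ q ∈ Subgroup.closure ({x, y} : Set G), Commute τ q := fun q hq =>
    commute_closure hx hy hq
  set τ' := α * τ * α⁻¹ with hτ'
  have hτ'x : Commute τ' x := by
    rw [hτ', commute_conj_iff]
    apply hτQ
    have h1 := nz_conj ((Nz x y).inv_mem hαN) (x_mem_closure x y)
    rw [inv_inv] at h1
    exact h1
  have hcomm : Commute τ τ' := by
    by_contra hno
    obtain ⟨u, v, huv, -, hu, hv, -, -⟩ := pair h ht hz h23 hτ (hτ.conj α) hno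
    have hW : ∀ w ∈ Subgroup.closure ({τ, τ'} : Set G), Commute w x := by
      intro w hw
      exact (commute_closure hx.symm hτ'x.symm hw).symm
    have h1 := noQ_of_central_four h.cc hQ.orderOf_x (Subgroup.closure ({τ, τ'} : Set G)) hW
      ⟨u, hu⟩ ⟨v, hv⟩ (Subtype.ext huv.1) (Subtype.ext huv.2.1)
    exact huv.2.2 (congrArg Subtype.val h1)
  have h1 : τ' ∈ Subgroup.zpowers τ := h.mem_zpowers hcomm.symm (orderOf_conj' α τ) hτ.ne_zero
  have h2 : Commute α τ := commute_three_el h ht hz h23 hα h1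
  rcases cyc3 h ht hz hτ hα h2.symm with h3 | h3
  · exact h3
  · exfalso
    apply hαn
    obtain ⟨j, hj⟩ := h3
    simp only at hj
    rw [← hj]
    exact ⟨hx.zpow_left j, hy.zpow_left j⟩

theorem mem_N {x y t α : G} (hQ : IsQ x y) (hx : Commute t x) (hy : Commute t y)
    (hα : Is3 α) (hαN : α ∈ Nz x y) (hαn : ¬ (Commute α x ∧ Commute α y)) :
    t ∈ Subgroup.closure ({z, α ^ 3} : Set G) := by
  apply mem_of_primary _ (orderOf t) t rfl (ht t).orderOf_pos
  rintro m ⟨p, k, hp, hpk⟩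
  by_cases hk : k = 0
  · rw [hk, pow_zero, orderOf_eq_one_iff] at hpk
    rw [hpk]; exact Subgroup.one_mem _
  have hp5 : p < 5 := by
    apply h23 (t ^ m) p hp
    rw [hpk]
    exact dvd_pow_self p hk
  by_cases hp2 : p = 2
  · subst hp2
    rcases hz.uni _ (two_part h hQ (hx.pow_left m) (hy.pow_left m) hpk) with h3 | h3
    · rw [h3]; exact Subgroup.one_mem _
    · rw [h3]; exact x_mem_closure _ _
  · have hp3 : p = 3 := by
      have := hp.two_le
      have h4 : p ≠ 4 := by
        rintro rfl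
        exact absurd hp (by norm_num)
      omega
    subst hp3
    exact (Subgroup.zpowers_le.2 (y_mem_closure z (α ^ 3)))
      (three_part h ht hz h23 hQ (hx.pow_left m) (hy.pow_left m) ⟨k, hpk⟩ hα hαN hαn)

/-- Lemma P. -/
theorem lemmaP {α β c : G} (hα : Is3 α) (hβ : Is3 β) (hα1 : α ≠ 1) (hβ1 : β ≠ 1)
    (ha : α ^ 3 = c) (hb : β ^ 3 = c) :
    (α⁻¹ * β) ^ 2 ∈ Subgroup.closure ({z, c} : Set G) ∨
      (α * β) ^ 2 ∈ Subgroup.closure ({z, c} : Set G) := by
  by_cases hc : Commute α β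
  · have hd : (α⁻¹ * β) ^ 3 = 1 := by
      rw [hc.inv_left.mul_pow, inv_pow, ha, hb, inv_mul_cancel]
    by_cases hc1 : c = 1
    · rw [hc1] at ha hb
      have : Fact (Nat.Prime 3) := ⟨Nat.prime_three⟩
      have hoα : orderOf α = 3 := orderOf_eq_prime ha hα1
      have hoβ : orderOf β = 3 := orderOf_eq_prime hb hβ1
      obtain ⟨j, hj⟩ := h.mem_zpowers hc.symm (hoβ.trans hoα.symm) (by rw [hoα]; norm_num)
      simp only at hj
      have hα3 : α ^ (3 : ℤ) = 1 := by exact_mod_cast ha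
      have h1 : α ^ j = α ^ (j % 3) := by
        conv_lhs => rw [← Int.mul_ediv_add_emod j 3]
        rw [zpow_add, zpow_mul, hα3, one_zpow, one_mul]
      have h2 : j % 3 = 0 ∨ j % 3 = 1 ∨ j % 3 = 2 := by omega
      rcases h2 with h2 | h2 | h2
      · exfalso
        apply hβ1
        rw [← hj, h1, h2, zpow_zero]
      · left
        have : β = α := by rw [← hj, h1, h2, zpow_one]
        rw [this, inv_mul_cancel, one_pow]
        exact Subgroup.one_mem _
      · right
        have : α * β = 1 := by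
          rw [← hj, h1, h2, ← zpow_one_add, ← hα3]; norm_num
        rw [this, one_pow]
        exact Subgroup.one_mem _
    · left
      apply Subgroup.pow_mem
      by_cases hd1 : α⁻¹ * β = 1
      · rw [hd1]; exact Subgroup.one_mem _
      have : Fact (Nat.Prime 3) := ⟨Nat.prime_three⟩
      have hod : orderOf (α⁻¹ * β) = 3 := orderOf_eq_prime hd hd1
      have hc3 : Is3 c := by rw [← ha]; exact hα.pow 3
      have hcc : Commute (α⁻¹ * β) c := by
        rw [← ha]
        exact (((Commute.refl α).inv_left.mul_left hc.symm).pow_right 3)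
      rcases cyc3 h ht hz ⟨1, by rw [hod, pow_one]⟩ hc3 hcc with h1 | h1
      · have h2 : c ^ 3 ∈ Subgroup.closure ({z, c} : Set G) :=
          Subgroup.pow_mem _ (y_mem_closure z c) 3
        exact (Subgroup.zpowers_le.2 h2) h1
      · have h2 : α⁻¹ * β ∈ Subgroup.zpowers c :=
          mem_zpowers_of_prime h1 (by rw [hod]; exact Nat.prime_three) hc1
        exact (Subgroup.zpowers_le.2 (y_mem_closure z c)) h2
  · obtain ⟨x, y, hQ, hle, -, -, hαn, hβn⟩ := pair h ht hz h23 hα hβ hc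
    have hαN : α ∈ Nz x y := hle (x_mem_closure α β)
    have hβN : β ∈ Nz x y := hle (y_mem_closure α β)
    have hσ : hQ.phi ⟨α, hαN⟩ ≠ 1 := fun h1 => hαn (hα.commute_of_phi hQ (g := ⟨α, hαN⟩) h1)
    have hτ : hQ.phi ⟨β, hβN⟩ ≠ 1 := fun h1 => hβn (hβ.commute_of_phi hQ (g := ⟨β, hβN⟩) h1)
    have hσ3 := hα.phi_cube hQ (g := ⟨α, hαN⟩)
    have hτ3 := hβ.phi_cube hQ (g := ⟨β, hβN⟩)
    have hfin : ∀ γ : Nz x y, hQ.phi γ = 1 → (γ : G) ^ 2 ∈ Subgroup.closure ({z, c} : Set G) := by
      intro γ hγ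
      obtain ⟨q, hq, t, hqt, htx, hty⟩ := hQ.inner (g := (γ : G))
        (hQ.phi_eq_one hγ (i := 0) (Or.inl rfl)) (hQ.phi_eq_one hγ (i := 1) (Or.inl rfl))
      have h1 : t ∈ Subgroup.closure ({z, c} : Set G) := by
        rw [← ha]
        exact mem_N h ht hz h23 hQ htx hty hα hαN hαn
      have h2 : Commute q t := (commute_closure htx hty hq).symm
      have h3 : x ^ 2 = z := by
        rcases hz.uni _ hQ.z2 with h4 | h4
        · exact absurd h4 hQ.2.2
        · exact h4
      rw [hqt, h2.mul_pow]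
      apply Subgroup.mul_mem _ _ (Subgroup.pow_mem _ h1 2)
      rcases hQ.sq_cases hq with h4 | h4
      · rw [h4]; exact Subgroup.one_mem _
      · rw [h4, h3]; exact x_mem_closure z c
    rcases perm_pair _ _ hσ3 hτ3 hσ hτ with h1 | h1
    · left
      have h2 : hQ.phi ((⟨α, hαN⟩ : Nz x y)⁻¹ * ⟨β, hβN⟩) = 1 := by
        rw [map_mul, map_inv]; exact h1
      exact hfin _ h2
    · right
      have h2 : hQ.phi ((⟨α, hαN⟩ : Nz x y) * ⟨β, hβN⟩) = 1 := by
        rw [map_mul]; exact h1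
      exact hfin _ h2

end

end Pool.Agent.Lib.MP_544a1b_al
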