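import Pool.Agent.Lib.MP_544a1b_al.RankOne

/-! Quaternion subgroups of order eight. -/

set_option autoImplicit false

universe u

namespace Pool.Agent.Lib.MP_544a1b_al

open Subgroup
open scoped commutatorElement

/-- `x` and `y` generate a quaternion group of order eight. -/
def IsQ {G : Type*} [Group G] (x y : G) : Prop :=
  x ^ 2 = y ^ 2 ∧ y * x * y⁻¹ = x⁻¹ ∧ x ^ 2 ≠ 1

theorem not_noQ_iff {G : Type*} [Group G] : ¬ NoQ G ↔ ∃ x y : G, IsQ x y := by
  unfold NoQ IsQ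
  push Not
  rfl

section

variable {G : Type*} [Group G] {x y : G}

theorem IsQ.yx (h : IsQ x y) : y * x = x⁻¹ * y := mul_inv_eq_iff_eq_mul.1 h.2.1

theorem IsQ.yx_zpow (h : IsQ x y) (i : ℤ) : y * x ^ i = x ^ (-i) * y := by
  have h1 : y * x ^ i * y⁻¹ = x ^ (-i) := by
    rw [← conj_zpow, h.2.1, inv_zpow, zpow_neg]
  exact mul_inv_eq_iff_eq_mul.1 h1

theorem IsQ.x4 (h : IsQ x y) : x ^ 4 = 1 := by
  have h1 : y * x ^ (2 : ℤ) = x ^ (-2 : ℤ) * y := h.yx_zpow 2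
  have h2 : y * x ^ (2 : ℤ) = x ^ (2 : ℤ) * y := by
    have : x ^ (2 : ℤ) = y ^ (2 : ℤ) := by
      have := h.1
      exact_mod_cast this
    rw [this]
    exact ((Commute.refl y).zpow_right 2).eq
  rw [h2] at h1
  have h3 := mul_right_cancel h1
  have h4 : x ^ (2 : ℤ) * x ^ (2 : ℤ) = 1 := by
    nth_rewrite 1 [h3]
    rw [← zpow_add]; norm_num
  rw [← zpow_add] at h4
  exact_mod_cast h4

theorem IsQ.x_ne (h : IsQ x y) : x ≠ 1 := by
  rintro rfl
  exact h.2.2 (one_pow 2)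

theorem IsQ.orderOf_x (h : IsQ x y) : orderOf x = 4 := by
  have : orderOf x = 2 ^ (1 + 1) := orderOf_eq_prime_pow (by simpa using h.2.2) (by
    simpa using h.x4)
  simpa using this

theorem IsQ.x_inv (h : IsQ x y) : x⁻¹ = x ^ 2 * x := by
  apply inv_eq_of_mul_eq_one_left
  have : x ^ 2 * x * x = x ^ 4 := by
    rw [mul_assoc, ← sq, ← pow_add]
  rw [this, h.x4]

theorem IsQ.symm (h : IsQ x y) : IsQ y x := by
  have hz : x ^ 2 = y ^ 2 := h.1
  refine ⟨hz.symm, ?_, by rw [← hz]; exact h.2.2⟩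
  have h1 : x * y * x = y := by
    rw [mul_assoc, h.yx]; group
  have h2 : x * y = y * x⁻¹ := eq_mul_inv_of_mul_eq h1
  have h3 : y ^ 2 * y ^ 2 = 1 := by
    rw [← hz, ← pow_add]; exact h.x4
  rw [h2]
  have h4 : y * x⁻¹ * x⁻¹ = y * (x ^ 2)⁻¹ := by
    rw [sq, mul_inv_rev, mul_assoc]
  rw [h4, hz]
  have h5 : (y ^ 2)⁻¹ = y⁻¹ * y⁻¹ := by rw [sq, mul_inv_rev]
  rw [h5]; group

theorem IsQ.not_commute (h : IsQ x y) : ¬ Commute x y := by
  intro hc
  have h1 := h.2.1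
  rw [← hc.eq, mul_inv_cancel_right] at h1
  apply h.2.2
  rw [sq]
  nth_rewrite 1 [h1]
  exact inv_mul_cancel x

theorem IsQ.commutator (h : IsQ x y) : ⁅x, y⁆ = x ^ 2 := by
  have h1 : x * y * x⁻¹ * y⁻¹ = x * (y * x⁻¹ * y⁻¹) := by group
  have h2 : y * x⁻¹ * y⁻¹ = (y * x * y⁻¹)⁻¹ := by group
  rw [commutatorElement_def, h1, h2, h.2.1, inv_inv, sq]

theorem IsQ.sq_comm_x (h : IsQ x y) : Commute (x ^ 2) x := (Commute.refl x).pow_left 2

theorem IsQ.sq_comm_y (h : IsQ x y) : Commute (x ^ 2) y := by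
  rw [h.1]; exact (Commute.refl y).pow_left 2

theorem IsQ.z2 (h : IsQ x y) : (x ^ 2) ^ 2 = 1 := by
  rw [← pow_mul]; exact h.x4

theorem IsQ.mem_cases (h : IsQ x y) {g : G} (hg : g ∈ Subgroup.closure ({x, y} : Set G)) :
    ∃ i : ℤ, g = x ^ i ∨ g = x ^ i * y := by
  have hy2 : y * y = x ^ (2 : ℤ) := by
    have := h.1
    rw [sq y] at this
    rw [← this]; norm_cast
  induction hg using Subgroup.closure_induction with
  | mem g hg =>
    rcases hg with rfl | hg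
    · exact ⟨1, Or.inl (by simp)⟩
    · rw [Set.mem_singleton_iff] at hg
      exact ⟨0, Or.inr (by simp [hg])⟩
  | one => exact ⟨0, Or.inl (by simp)⟩
  | mul a b _ _ ha hb =>
    obtain ⟨i, ha⟩ := ha
    obtain ⟨j, hb⟩ := hb
    rcases ha with rfl | rfl <;> rcases hb with rfl | rfl
    · exact ⟨i + j, Or.inl (by rw [zpow_add])⟩
    · exact ⟨i + j, Or.inr (by rw [zpow_add, mul_assoc])⟩
    · exact ⟨i - j, Or.inr (by rw [mul_assoc, h.yx_zpow, sub_eq_add_neg, zpow_add, mul_assoc])⟩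
    · refine ⟨i - j + 2, Or.inl ?_⟩
      have : x ^ i * y * (x ^ j * y) = x ^ i * (y * x ^ j) * y := by group
      rw [this, h.yx_zpow, zpow_add, sub_eq_add_neg, zpow_add, ← hy2]
      group
  | inv a _ ha =>
    obtain ⟨i, ha⟩ := ha
    rcases ha with rfl | rfl
    · exact ⟨-i, Or.inl (by rw [zpow_neg])⟩
    · refine ⟨i + 2, Or.inr ?_⟩
      have h1 : (x ^ i * y)⁻¹ = y * (y * y)⁻¹ * x ^ (-i) := by
        rw [zpow_neg]; group
      rw [h1, hy2, ← zpow_neg, mul_assoc, ← zpow_add, h.yx_zpow]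
      congr 2
      ring

theorem IsQ.sq_cases (h : IsQ x y) {g : G} (hg : g ∈ Subgroup.closure ({x, y} : Set G)) :
    g ^ 2 = 1 ∨ g ^ 2 = x ^ 2 := by
  have hx4 : x ^ (4 : ℤ) = 1 := by exact_mod_cast h.x4
  obtain ⟨i, rfl | rfl⟩ := h.mem_cases hg
  · rcases Int.even_or_odd' i with ⟨k, rfl | rfl⟩
    · left
      rw [← zpow_natCast, ← zpow_mul]
      have : (2 * k * ((2 : ℕ) : ℤ)) = 4 * k := by push_cast; ring
      rw [this, zpow_mul, hx4, one_zpow]
    · right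
      rw [← zpow_natCast, ← zpow_mul]
      have : ((2 * k + 1) * ((2 : ℕ) : ℤ)) = 4 * k + 2 := by push_cast; ring
      rw [this, zpow_add, zpow_mul, hx4, one_zpow, one_mul]
      norm_cast
  · right
    have : (x ^ i * y) ^ 2 = x ^ i * (y * x ^ i) * y := by rw [sq]; group
    rw [this, h.yx_zpow, h.1, sq]
    rw [zpow_neg]; group

/-- Elements of order four. -/
theorem IsQ.four_cases (h : IsQ x y) {g : G} (hg : g ∈ Subgroup.closure ({x, y} : Set G))
    (hg2 : g ^ 2 ≠ 1) : (g = x ∨ g = x⁻¹) ∨ (g = y ∨ g = y⁻¹) ∨ (g = x * y ∨ g = (x * y)⁻¹) := by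
  have hx4 : x ^ (4 : ℤ) = 1 := by exact_mod_cast h.x4
  have hred : ∀ i : ℤ, x ^ i = 1 ∨ x ^ i = x ∨ x ^ i = x ^ 2 ∨ x ^ i = x⁻¹ := by
    intro i
    have h1 : x ^ i = x ^ (i % 4) := by
      conv_lhs => rw [← Int.mul_ediv_add_emod i 4]
      rw [zpow_add, zpow_mul, hx4, one_zpow, one_mul]
    have h2 : i % 4 = 0 ∨ i % 4 = 1 ∨ i % 4 = 2 ∨ i % 4 = 3 := by omega
    rcases h2 with h2 | h2 | h2 | h2
    · left; rw [h1, h2, zpow_zero]
    · right; left; rw [h1, h2, zpow_one]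
    · right; right; left; rw [h1, h2]; norm_cast
    · right; right; right
      rw [h1, h2]
      have : (3 : ℤ) = 4 + (-1) := by norm_num
      rw [this, zpow_add, hx4, one_mul, zpow_neg, zpow_one]
  have hy4 : y ^ 2 * y ^ 2 = 1 := by rw [← h.1, ← pow_add]; exact h.x4
  have hyinv : x ^ 2 * y = y⁻¹ := by
    rw [h.1]
    apply eq_inv_of_mul_eq_one_left
    rw [mul_assoc, ← sq]; exact hy4
  obtain ⟨i, rfl | rfl⟩ := h.mem_cases hg
  · left
    rcases hred i with h1 | h1 | h1 | h1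
    · exact absurd (by rw [h1, one_pow]) hg2
    · exact Or.inl h1
    · exact absurd (by rw [h1]; exact h.z2) hg2
    · exact Or.inr h1
  · right
    rcases hred i with h1 | h1 | h1 | h1
    · left; left; rw [h1, one_mul]
    · right; left; rw [h1]
    · left; right; rw [h1, hyinv]
    · right; right
      rw [h1, mul_inv_rev, ← hyinv, h.x_inv]
      have h2 := h.sq_comm_x.inv_right.eq
      have h3 : x ^ 2 * y * (x ^ 2 * x) = x ^ 2 * (x ^ 2 * (y * x)) := by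
        have h4 : y * x ^ 2 = x ^ 2 * y := h.sq_comm_y.symm.eq
        calc x ^ 2 * y * (x ^ 2 * x) = x ^ 2 * (y * x ^ 2) * x := by group
          _ = x ^ 2 * (x ^ 2 * y) * x := by rw [h4]
          _ = _ := by group
      rw [h3, h.yx, h.x_inv]
      have h5 : x ^ 2 * (x ^ 2 * (x ^ 2 * x * y)) = x ^ 4 * (x ^ 2 * x * y) := by
        rw [← mul_assoc, ← pow_add]
      rw [h5, h.x4, one_mul]

/-- A normalising element: its twelfth power centralises. -/
theorem IsQ.pow_twelve (h : IsQ x y) {g : G}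
    (hgn : ∀ q ∈ Subgroup.closure ({x, y} : Set G), g * q * g⁻¹ ∈ Subgroup.closure ({x, y} : Set G))
    {q : G} (hq : q ∈ Subgroup.closure ({x, y} : Set G)) (hq2 : q ^ 2 ≠ 1) :
    Commute (g ^ 12) q := by
  have hmem : ∀ n : ℕ, g ^ n * q * (g ^ n)⁻¹ ∈ Subgroup.closure ({x, y} : Set G) := by
    intro n
    induction n with
    | zero => simpa using hq
    | succ n ih =>
      have h1 : g ^ (n + 1) * q * (g ^ (n + 1))⁻¹ = g * (g ^ n * q * (g ^ n)⁻¹) * g⁻¹ := by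
        rw [pow_succ']; group
      rw [h1]; exact hgn _ ih
  have hsq : ∀ n : ℕ, (g ^ n * q * (g ^ n)⁻¹) ^ 2 ≠ 1 := by
    intro n h1
    rw [conj_pow] at h1
    apply hq2
    have : q ^ 2 = (g ^ n)⁻¹ * (g ^ n * q ^ 2 * (g ^ n)⁻¹) * g ^ n := by group
    rw [this, h1]; group
  have hcl : ∀ n : ℕ, ∃ c : Fin 3, ∃ w : G, w = (![x, y, x * y] : Fin 3 → G) c ∧
      (g ^ n * q * (g ^ n)⁻¹ = w ∨ g ^ n * q * (g ^ n)⁻¹ = w⁻¹) := by
    intro n
    rcases h.four_cases (hmem n) (hsq n) with h1 | h1 | h1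
    · exact ⟨0, x, rfl, h1⟩
    · exact ⟨1, y, rfl, h1⟩
    · exact ⟨2, x * y, rfl, h1⟩
  choose c w hw hc using hcl
  obtain ⟨i, j, hij, hcij⟩ := Fintype.exists_ne_map_eq_of_card_lt
    (fun n : Fin 4 => c n) (by simp)
  have hww : w i = w j := by
    have : c i = c j := hcij
    rw [hw, hw, this]
  have key : ∀ i j : ℕ, i < j → j < 4 → w i = w j → Commute (g ^ 12) q := by
    intro i j hij hj4 hww
    have h1 : g ^ i * q * (g ^ i)⁻¹ = g ^ j * q * (g ^ j)⁻¹ ∨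
        g ^ i * q * (g ^ i)⁻¹ = (g ^ j * q * (g ^ j)⁻¹)⁻¹ := by
      rcases hc i with h2 | h2 <;> rcases hc j with h3 | h3
      · left; rw [h2, h3, hww]
      · right; rw [h2, h3, hww, inv_inv]
      · right; rw [h2, h3, hww]
      · left; rw [h2, h3, hww]
    obtain ⟨d, rfl⟩ := Nat.exists_eq_add_of_lt hij
    have h2 : g ^ (d + 1) * q * (g ^ (d + 1))⁻¹ = q ∨ g ^ (d + 1) * q * (g ^ (d + 1))⁻¹ = q⁻¹ := by
      have h3 : g ^ (i + d + 1) = g ^ i * g ^ (d + 1) := by rw [← pow_add]; rfl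
      rw [h3] at h1
      rcases h1 with h1 | h1
      · left
        have h4 : q = (g ^ i)⁻¹ * (g ^ i * q * (g ^ i)⁻¹) * g ^ i := by group
        conv_rhs => rw [h4, h1]
        group
      · right
        have h4 : q = (g ^ i)⁻¹ * (g ^ i * q * (g ^ i)⁻¹) * g ^ i := by group
        have h5 : q⁻¹ = ((g ^ i)⁻¹ * (g ^ i * q * (g ^ i)⁻¹) * g ^ i)⁻¹ := by rw [← h4]
        rw [h5, h1]; group
    have h3 : Commute ((g ^ (d + 1)) ^ 2) q := by
      have h4 : (g ^ (d + 1)) ^ 2 * q * ((g ^ (d + 1)) ^ 2)⁻¹ =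
          g ^ (d + 1) * (g ^ (d + 1) * q * (g ^ (d + 1))⁻¹) * (g ^ (d + 1))⁻¹ := by
        rw [sq]; group
      have h5 : (g ^ (d + 1)) ^ 2 * q * ((g ^ (d + 1)) ^ 2)⁻¹ = q := by
        rw [h4]
        rcases h2 with h2 | h2
        · rw [h2, h2]
        · rw [h2]
          have : g ^ (d + 1) * q⁻¹ * (g ^ (d + 1))⁻¹ = (g ^ (d + 1) * q * (g ^ (d + 1))⁻¹)⁻¹ := by
            group
          rw [this, h2, inv_inv]
      exact mul_inv_eq_iff_eq_mul.1 h5
    have hd : d = 0 ∨ d = 1 ∨ d = 2 := by omega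
    have h4 : ∃ e : ℕ, 12 = (d + 1) * 2 * e := by
      rcases hd with rfl | rfl | rfl
      · exact ⟨6, by norm_num⟩
      · exact ⟨3, by norm_num⟩
      · exact ⟨2, by norm_num⟩
    obtain ⟨e, he⟩ := h4
    rw [he, pow_mul, pow_mul]
    exact h3.pow_left e
  have hne : (i : ℕ) ≠ j := fun h1 => hij (Fin.ext h1)
  rcases Nat.lt_or_gt_of_ne hne with h1 | h1
  · exact key i j h1 j.2 hww
  · exact key j i h1 i.2 hww.symm

end

end Pool.Agent.Lib.MP_544a1b_al
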