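import Pool.Agent.Lib.MP_544a1b_al.Len

/-! Locally nilpotent torsion-free groups whose abelian subgroups have bounded chains of isolated
subgroups. -/

set_option autoImplicit false

universe u

namespace Pool.Agent.Lib.MP_544a1b_al

open Subgroup
open scoped commutatorElement

/-- Locally nilpotent. -/
def LN (G : Type*) [Group G] : Prop :=
  ∀ s : Finset G, Group.IsNilpotent (Subgroup.closure (s : Set G))

theorem LN.of_injective {G H : Type*} [Group G] [Group H] (f : H →* G)
    (hf : Function.Injective f) (h : LN G) : LN H := by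
  classical
  intro s
  apply isNilpotent_of_map f hf
  rw [MonoidHom.map_closure]
  have := h (s.image f)
  rwa [Finset.coe_image] at this

theorem LN.of_surjective {G H : Type*} [Group G] [Group H] (f : G →* H)
    (hf : Function.Surjective f) (h : LN G) : LN H := by
  classical
  intro s
  obtain ⟨g, hg⟩ := hf.hasRightInverse
  have h1 := isNilpotent_map f _ (h (s.image g))
  rw [MonoidHom.map_closure, Finset.coe_image, ← Set.image_comp] at h1
  have h2 : (f ∘ g) '' (s : Set H) = s := by
    ext x
    simp only [Set.mem_image, Function.comp_apply, hg _]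
    simp
  rwa [h2] at h1

/-- The intersection of all isolated subgroups containing `A`. -/
def isol {G : Type*} [Group G] (A : Subgroup G) : Subgroup G := sInf {I | Iso I ∧ A ≤ I}

theorem isol_iso {G : Type*} [Group G] (A : Subgroup G) : Iso (isol A) := by
  intro x n hn hx
  rw [isol, Subgroup.mem_sInf] at hx ⊢
  intro I hI
  exact hI.1 x n hn (hx I hI)

theorem isol_le {G : Type*} [Group G] {A B : Subgroup G} (hB : Iso B) (h : A ≤ B) :
    isol A ≤ B := sInf_le ⟨hB, h⟩

theorem isol_mono {G : Type*} [Group G] {A B : Subgroup G} (h : A ≤ B) :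
    isol A ≤ isol B := by
  apply isol_le (isol_iso B)
  apply h.trans
  exact le_sInf fun I hI => hI.2

theorem le_isol {G : Type*} [Group G] (A : Subgroup G) : A ≤ isol A :=
  le_sInf fun _ hI => hI.2

theorem TB.pow_mem_of_mem_isol {G : Type*} [Group G] (h : TB G) (A : Subgroup G)
    (hA : ∀ a ∈ A, ∀ b ∈ A, Commute a b) {g : G} (hg : g ∈ isol A) :
    ∃ n, 0 < n ∧ g ^ n ∈ A := by
  obtain ⟨I, hI, _⟩ := h.exists_isolator_comm A hA
  rw [← hI]
  exact isol_le (iso_of_isolator hI) (le_isolator hI) hg

theorem exists_center_ne_one (G : Type*) [Group G] [hN : Group.IsNilpotent G] [Nontrivial G] :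
    ∃ z ∈ Subgroup.center G, z ≠ 1 := by
  classical
  obtain ⟨c, hc⟩ := hN.nilpotent
  have hex : ∃ n, Subgroup.upperCentralSeries G n ≠ ⊥ := ⟨c, by rw [hc]; exact top_ne_bot⟩
  have h1 := Nat.find_spec hex
  have h2 : ∀ m, m < Nat.find hex → Subgroup.upperCentralSeries G m = ⊥ := by
    intro m hm
    have := Nat.find_min hex hm
    simpa using this
  set n := Nat.find hex
  rcases Nat.eq_zero_or_pos n with h0 | h0
  · rw [h0] at h1
    exact absurd rfl h1
  · obtain ⟨m, hm⟩ := Nat.exists_eq_succ_of_ne_zero h0.ne'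
    have h3 := h2 m (by omega)
    rw [hm] at h1
    obtain ⟨⟨x, hx⟩, hxa⟩ := Subgroup.ne_bot_iff_exists_ne_one.1 h1
    have hx1 : x ≠ 1 := fun h => hxa (Subtype.ext h)
    refine ⟨x, ?_, hx1⟩
    rw [Subgroup.mem_center_iff]
    intro g
    have h4 := Subgroup.mem_upperCentralSeries_succ_iff.1 hx g
    rw [h3, Subgroup.mem_bot] at h4
    exact (commutatorElement_eq_one_iff_commute.1 h4).eq.symm

/-- Lemma K. -/
theorem exists_center_of_FL {C : Type*} [Group C] (h : TB C) (hl : LN C) (x : C) (hx : x ≠ 1)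
    (hf : FL (Subgroup.centralizer ({x} : Set C))) : ∃ z ∈ Subgroup.center C, z ≠ 1 := by
  classical
  obtain ⟨D, ⟨F, hxF, hD⟩, hmin⟩ := hf.exists_min
    (fun D => ∃ F : Finset C, x ∈ F ∧ D = Subgroup.centralizer (F : Set C)) (by
      rintro D ⟨F, hxF, rfl⟩
      refine ⟨h.iso_centralizer _, Subgroup.centralizer_le ?_⟩
      intro y hy
      rw [Set.mem_singleton_iff] at hy
      rw [hy]; exact hxF) (Subgroup.centralizer {x}) ⟨{x}, by simp, by simp⟩
  have hDc : D ≤ Subgroup.center C := by
    intro d hd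
    rw [Subgroup.mem_center_iff]
    intro g
    have h1 := hmin (Subgroup.centralizer ((insert g F : Finset C) : Set C))
      ⟨insert g F, Finset.mem_insert_of_mem hxF, rfl⟩ (by
        rw [hD]
        apply Subgroup.centralizer_le
        rw [Finset.coe_insert]
        exact Set.subset_insert _ _)
    rw [← h1, Subgroup.mem_centralizer_iff] at hd
    exact hd g (by simp)
  have : Group.IsNilpotent (Subgroup.closure (F : Set C)) := hl F
  have : Nontrivial (Subgroup.closure (F : Set C)) :=
    ⟨⟨⟨x, Subgroup.subset_closure hxF⟩, 1, fun h => hx (congrArg Subtype.val h)⟩⟩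
  obtain ⟨z, hz, hz1⟩ := exists_center_ne_one (Subgroup.closure (F : Set C))
  refine ⟨z, hDc ?_, fun h => hz1 (Subtype.ext h)⟩
  rw [hD, Subgroup.mem_centralizer_iff]
  intro g hg
  rw [Subgroup.mem_center_iff] at hz
  exact congrArg Subtype.val (hz ⟨g, Subgroup.subset_closure hg⟩)

theorem FL.map_quotient {C : Type*} [Group C] (B : Subgroup C) [B.Normal]
    (P : Subgroup (C ⧸ B)) (h : FL (P.comap (QuotientGroup.mk' B))) : FL P := by
  obtain ⟨r, hr⟩ := h
  refine ⟨r, Len.one_map (fun D => D.comap (QuotientGroup.mk' B)) ?_ ?_ ?_ ?_ hr⟩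
  · intro D E _ _ hDE _
    exact Subgroup.comap_mono hDE
  · intro D hD _
    exact hD.comap _
  · intro D _ hD
    exact Subgroup.comap_mono hD
  · intro D E _ _ _ _ hDE
    exact Subgroup.comap_injective (QuotientGroup.mk'_surjective B) hDE

theorem FL.subgroupOf {G : Type*} [Group G] {H D : Subgroup G} (hD : Iso D) (hDH : D ≤ H)
    (h : FL D) : FL (D.subgroupOf H) := by
  obtain ⟨r, hr⟩ := h
  have key : ∀ E : Subgroup H, E ≤ D.subgroupOf H → E.map H.subtype ≤ D := by
    rintro E hE _ ⟨y, hy, rfl⟩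
    exact hE hy
  refine ⟨r, Len.one_map (fun E => E.map H.subtype) ?_ ?_ ?_ ?_ hr⟩
  · intro E F _ _ hEF _
    exact Subgroup.map_mono hEF
  · intro E hE hED
    exact hD.map_subtype hDH hE (key E hED)
  · intro E _ hED
    exact key E hED
  · intro E F _ _ _ _ hEF
    exact Subgroup.map_injective H.subtype_injective hEF

theorem FL.of_subgroup {G : Type*} [Group G] {H : Subgroup G} (h : FL (⊤ : Subgroup H)) :
    FL H := by
  obtain ⟨r, hr⟩ := h
  refine ⟨r, Len.one_map (fun E => E.subgroupOf H) ?_ ?_ ?_ ?_ hr⟩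
  · intro E F _ _ hEF _
    exact Subgroup.comap_mono hEF
  · intro E hE hED
    exact hE.subgroupOf H
  · intro E _ hED
    exact le_top
  · intro E F _ _ hEF' hF hEF
    have hE : E ≤ H := hEF'.trans hF
    rw [← Subgroup.map_subgroupOf_eq_of_le hE, ← Subgroup.map_subgroupOf_eq_of_le hF]
    exact congrArg _ hEF

theorem mem_comap_centralizer_iff {C : Type*} [Group C] (B : Subgroup C) [B.Normal] (x b : C) :
    x ∈ (Subgroup.centralizer ({QuotientGroup.mk' B b} : Set (C ⧸ B))).comap
      (QuotientGroup.mk' B) ↔ ⁅x, b⁆ ∈ B := by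
  rw [← mk'_eq_one_iff B ⁅x, b⁆, map_commutatorElement, Subgroup.mem_comap, Subgroup.mem_centralizer_iff,
    commutatorElement_eq_one_iff_mul_comm]
  constructor
  · intro h
    exact (h _ rfl).symm
  · rintro h _ rfl
    exact h.symm

theorem FL.preimage_centralizer {C : Type*} [Group C] (h : TB C) (B : Subgroup C) [B.Normal]
    (hBc : B ≤ Subgroup.center C) (hBi : Iso B) (hB : FL B) (b : C)
    (hb : FL (Subgroup.centralizer ({b} : Set C))) :
    FL ((Subgroup.centralizer ({QuotientGroup.mk' B b} : Set (C ⧸ B))).comap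
      (QuotientGroup.mk' B)) := by
  set Pb : Subgroup C := (Subgroup.centralizer ({QuotientGroup.mk' B b} : Set (C ⧸ B))).comap
      (QuotientGroup.mk' B) with hPb
  have hmem : ∀ x, x ∈ Pb ↔ ⁅x, b⁆ ∈ B := fun x => mem_comap_centralizer_iff B x b
  let θ : Pb →* C := MonoidHom.mk' (fun x => ⁅(x : C), b⁆) (by
    intro x y
    have hy := Subgroup.mem_center_iff.1 (hBc ((hmem y).1 y.2))
    have h1 : ⁅(x : C) * y, b⁆ = x * ⁅(y : C), b⁆ * (x : C)⁻¹ * ⁅(x : C), b⁆ := by
      simp only [commutatorElement_def]; group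
    rw [Subgroup.coe_mul, h1, hy (x : C), mul_inv_cancel_right, hy ⁅(x : C), b⁆])
  have hθ : ∀ x : Pb, θ x = ⁅(x : C), b⁆ := fun _ => rfl
  obtain ⟨r₁, hr₁⟩ := hb
  obtain ⟨r₂, hr₂⟩ := hB
  have hle : ∀ D : Subgroup C, (D.subgroupOf Pb).map θ ≤ B := by
    rintro D _ ⟨y, _, rfl⟩
    exact (hmem y).1 y.2
  refine ⟨r₁ + r₂, Len.two_maps (P := Pb) (P₁ := Subgroup.centralizer ({b} : Set C)) (P₂ := B)
    (fun D => D ⊓ Subgroup.centralizer ({b} : Set C))
    (fun D => isol ((D.subgroupOf Pb).map θ)) ?_ ?_ ?_ ?_ ?_ ?_ ?_ hr₁ hr₂⟩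
  · intro D E _ _ hDE _
    exact inf_le_inf_right _ hDE
  · intro D hD _
    exact hD.inf (h.iso_centralizer _)
  · intro D _ _
    exact inf_le_right
  · intro D E _ _ hDE _
    exact isol_mono (Subgroup.map_mono (Subgroup.comap_mono hDE))
  · intro D _ _
    exact isol_iso _
  · intro D _ _
    exact isol_le hBi (hle D)
  · intro D E hD hE hDE hEP h1 h2
    apply le_antisymm hDE
    intro x hx
    have hxP : x ∈ Pb := hEP hx
    have h3 : θ ⟨x, hxP⟩ ∈ isol ((D.subgroupOf Pb).map θ) := by
      rw [h2]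
      exact le_isol _ ⟨⟨x, hxP⟩, hx, rfl⟩
    obtain ⟨n, hn, y, hy, hyx⟩ := h.pow_mem_of_mem_isol _ (by
      intro a ha c hc
      exact (Subgroup.mem_center_iff.1 (hBc (hle D ha)) c).symm) h3
    rw [← map_pow] at hyx
    have h4 : θ (y⁻¹ * ⟨x, hxP⟩ ^ n) = 1 := by
      rw [map_mul, map_inv, hyx, inv_mul_cancel]
    have hyD : (y : C) ∈ D := hy
    have h5 : (y : C)⁻¹ * x ^ n ∈ D ⊓ Subgroup.centralizer ({b} : Set C) := by
      rw [h1]
      refine ⟨E.mul_mem (E.inv_mem (hDE hyD)) (E.pow_mem hx n), ?_⟩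
      change (y : C)⁻¹ * x ^ n ∈ Subgroup.centralizer ({b} : Set C)
      rw [Subgroup.mem_centralizer_iff]
      rintro _ rfl
      rw [hθ] at h4
      exact (commutatorElement_eq_one_iff_mul_comm.1 h4).symm
    have h6 : x ^ n ∈ D := by
      have := D.mul_mem hyD h5.1
      simpa using this
    exact hD x n hn h6

/-- The inductive step for theorem M. -/
theorem FL.top_of_central {C : Type*} [Group C] (h : TB C) (hl : LN C) (B : Subgroup C)
    (hBc : B ≤ Subgroup.center C) (hBi : Iso B) (hB : FL B)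
    (hall : ∀ b, b ∉ B → FL (Subgroup.centralizer ({b} : Set C))) : FL (⊤ : Subgroup C) := by
  have hBn : B.Normal := by
    constructor
    intro b hb g
    have h1 := Subgroup.mem_center_iff.1 (hBc hb) g
    rw [h1]
    simpa using hb
  by_cases hBt : ∀ b, b ∈ B
  · exact hB.mono (fun x _ => hBt x)
  · push Not at hBt
    obtain ⟨b, hb⟩ := hBt
    have hQ : TB (C ⧸ B) := h.quotient B hBi
    have hlQ : LN (C ⧸ B) := hl.of_surjective (QuotientGroup.mk' B)
      (QuotientGroup.mk'_surjective B)
    have h1 := FL.preimage_centralizer h B hBc hBi hB b (hall b hb)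
    have h2 := FL.map_quotient B _ h1
    obtain ⟨z, hz, hz1⟩ := exists_center_of_FL hQ hlQ (QuotientGroup.mk' B b) (by
      intro h3
      rw [mk'_eq_one_iff] at h3
      exact hb h3) h2
    obtain ⟨y, rfl⟩ := QuotientGroup.mk'_surjective B z
    have hy : y ∉ B := by
      rw [← mk'_eq_one_iff]; exact hz1
    have h3 := FL.preimage_centralizer h B hBc hBi hB y (hall y hy)
    refine h3.mono ?_
    intro x _
    rw [Subgroup.mem_comap, Subgroup.mem_centralizer_iff]
    rintro _ rfl
    exact (Subgroup.mem_center_iff.1 hz _).symm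

theorem comm_closure {G : Type*} [Group G] (s : Set G) (h : ∀ a ∈ s, ∀ b ∈ s, Commute a b) :
    ∀ a ∈ Subgroup.closure s, ∀ b ∈ Subgroup.closure s, Commute a b := by
  have h1 : Subgroup.closure s ≤ Subgroup.centralizer s := by
    rw [Subgroup.closure_le]
    intro a ha
    rw [SetLike.mem_coe, Subgroup.mem_centralizer_iff]
    intro b hb
    exact (h b hb a ha).eq
  have h2 : Subgroup.closure s ≤ Subgroup.centralizer (Subgroup.closure s : Set G) := by
    rw [Subgroup.closure_le]
    intro a ha
    rw [SetLike.mem_coe, Subgroup.mem_centralizer_iff]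
    intro b hb
    exact (Subgroup.mem_centralizer_iff.1 (h1 hb) a ha).symm
  intro a ha b hb
  exact (Subgroup.mem_centralizer_iff.1 (h2 hb) a ha)

/-- Theorem M: a locally nilpotent torsion-free group whose abelian subgroups have bounded chains
of isolated subgroups has bounded chains of isolated subgroups. -/
theorem TB.fl_top {P : Type*} [Group P] (h : TB P) (hl : LN P)
    (hA : ∀ A : Subgroup P, (∀ a ∈ A, ∀ b ∈ A, Commute a b) → FL A) : FL (⊤ : Subgroup P) := by
  by_contra hnot
  obtain ⟨B, ⟨hBi, hBa, hBn⟩, -, hmax⟩ := exists_max_of_no_chain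
    (fun B : Subgroup P => Iso B ∧ (∀ a ∈ B, ∀ b ∈ B, Commute a b) ∧
      ¬ FL (Subgroup.centralizer (B : Set P))) (by
      intro f hf hp
      have hU := hA (⨆ i, f i) (by
        intro a ha b hb
        rw [Subgroup.mem_iSup_of_directed hf.monotone.directed_le] at ha hb
        obtain ⟨i, hi⟩ := ha
        obtain ⟨j, hj⟩ := hb
        exact (hp (max i j)).2.1 a (hf.monotone (le_max_left i j) hi) b
          (hf.monotone (le_max_right i j) hj))
      exact hU.not_strictMono f hf (fun i => (hp i).1) (fun i => le_iSup f i)) ⊥ (by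
      refine ⟨h.tf.iso_bot, ?_, ?_⟩
      · intro a ha b hb
        rw [Subgroup.mem_bot] at ha
        rw [ha]
        exact Commute.one_left b
      · intro hcon
        apply hnot
        refine hcon.mono ?_
        intro x _
        rw [Subgroup.mem_centralizer_iff]
        intro y hy
        rw [SetLike.mem_coe, Subgroup.mem_bot] at hy
        rw [hy]; simp)
  apply hBn
  set C := Subgroup.centralizer (B : Set P) with hC
  have hCi : Iso C := h.iso_centralizer _
  have hBC : B ≤ C := by
    intro b hb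
    rw [hC, Subgroup.mem_centralizer_iff]
    intro a ha
    exact (hBa a ha b hb).eq
  apply FL.of_subgroup
  have hBFL : FL B := hA B hBa
  apply FL.top_of_central (h.subgroup C) (hl.of_injective C.subtype C.subtype_injective)
    (B.subgroupOf C)
  · intro b hb
    rw [Subgroup.mem_center_iff]
    intro g
    apply Subtype.ext
    exact (Subgroup.mem_centralizer_iff.1 g.2 _ hb).symm
  · exact hBi.subgroupOf C
  · exact FL.subgroupOf hBi hBC hBFL
  · intro b hb
    have hbB : (b : P) ∉ B := hb
    have hcomm : ∀ x ∈ (B : Set P) ∪ {(b : P)}, ∀ y ∈ (B : Set P) ∪ {(b : P)}, Commute x y := by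
      intro x hx y hy
      rcases hx with hx | hx <;> rcases hy with hy | hy
      · exact hBa x hx y hy
      · rw [Set.mem_singleton_iff] at hy
        rw [hy]
        exact (Subgroup.mem_centralizer_iff.1 b.2 x hx)
      · rw [Set.mem_singleton_iff] at hx
        rw [hx]
        exact (Subgroup.mem_centralizer_iff.1 b.2 y hy).symm
      · rw [Set.mem_singleton_iff] at hx hy
        rw [hx, hy]
    obtain ⟨I, hI, hIc⟩ := h.exists_isolator_comm _ (comm_closure _ hcomm)
    have hsub : (B : Set P) ∪ {(b : P)} ⊆ I := fun x hx => le_isolator hI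
      (Subgroup.subset_closure hx)
    have hFL : FL (Subgroup.centralizer (I : Set P)) := by
      by_contra hcon
      have h1 := hmax I ⟨iso_of_isolator hI, hIc, hcon⟩ (fun x hx => hsub (Or.inl hx))
      apply hbB
      rw [h1]
      exact hsub (Or.inr rfl)
    have h2 : FL (C ⊓ Subgroup.centralizer ({(b : P)} : Set P)) := by
      refine hFL.mono ?_
      intro x hx
      rw [Subgroup.mem_centralizer_iff]
      intro y hy
      obtain ⟨n, hn, h3⟩ := (hI y).1 hy
      have h4 : (B : Set P) ∪ {(b : P)} ⊆ Subgroup.centralizer ({x} : Set P) := by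
        intro z hz
        rw [SetLike.mem_coe, Subgroup.mem_centralizer_iff]
        rintro _ rfl
        rcases hz with hz | hz
        · exact (Subgroup.mem_centralizer_iff.1 hx.1 z hz).symm
        · exact (Subgroup.mem_centralizer_iff.1 hx.2 z hz).symm
      have h5 := (Subgroup.closure_le _).2 h4 h3
      rw [Subgroup.mem_centralizer_iff] at h5
      exact (h.commute_of_pow hn (h5 x rfl).symm).eq
    have h3 := FL.subgroupOf (H := C) (hCi.inf (h.iso_centralizer _)) inf_le_left h2
    refine h3.mono ?_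
    intro x hx
    refine ⟨x.2, ?_⟩
    change (x : P) ∈ Subgroup.centralizer ({(b : P)} : Set P)
    rw [Subgroup.mem_centralizer_iff] at hx ⊢
    rintro _ rfl
    exact congrArg Subtype.val (hx b rfl)

end Pool.Agent.Lib.MP_544a1b_al
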