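import Pool.Agent.Lib.MP_544a1b_al.OnePer
import Pool.Agent.Lib.MP_544a1b_al.Rank

/-! From abelian subgroups of rank at most one to commuting pairs. -/

set_option autoImplicit false

universe u

namespace Pool.Agent.Lib.MP_544a1b_al

open Subgroup
open scoped commutatorElement

theorem rc_of_rank_one {G : Type u} [Group G]
    (hbin : ∀ x y : G, Group.IsSolvable (Subgroup.closure ({x, y} : Set G)))
    (hab : ∀ A : Subgroup G, (∀ a ∈ A, ∀ b ∈ A, a * b = b * a) →
      ∀ H : Subgroup G, H ≤ A → H.FG →
        ∃ s : Finset G, s.card ≤ 1 ∧ Subgroup.closure (s : Set G) = H) : RC G := by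
  refine ⟨hbin, ?_⟩
  intro x y hxy
  have hcomm := comm_closure ({x, y} : Set G) (by
    intro a ha b hb
    rcases ha with rfl | ha <;> rcases hb with rfl | hb
    · exact Commute.refl _
    · rw [Set.mem_singleton_iff] at hb
      rw [hb]; exact hxy
    · rw [Set.mem_singleton_iff] at ha
      rw [ha]; exact hxy.symm
    · rw [Set.mem_singleton_iff] at ha hb
      rw [ha, hb])
  have hfg : (Subgroup.closure ({x, y} : Set G)).FG := by
    classical
    exact ⟨{x, y}, by simp⟩
  obtain ⟨s, hs, hsc⟩ := hab _ (fun a ha b hb => (hcomm a ha b hb).eq) _ le_rfl hfg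
  have hx : x ∈ Subgroup.closure ({x, y} : Set G) := Subgroup.subset_closure (by simp)
  have hy : y ∈ Subgroup.closure ({x, y} : Set G) := Subgroup.subset_closure (by simp)
  rw [Finset.card_le_one_iff_subset_singleton] at hs
  obtain ⟨z, hz⟩ := hs
  have hle : Subgroup.closure ({x, y} : Set G) ≤ Subgroup.zpowers z := by
    rw [← hsc, Subgroup.closure_le]
    intro g hg
    have := hz hg
    rw [Finset.mem_singleton] at this
    rw [this]
    exact Subgroup.mem_zpowers z
  by_cases hzs : z ∈ s
  · refine ⟨z, ?_, hle hx, hle hy⟩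
    rw [← hsc]
    exact Subgroup.subset_closure hzs
  · have hs0 : s = ∅ := by
      rw [Finset.eq_empty_iff_forall_notMem]
      intro g hg
      have := hz hg
      rw [Finset.mem_singleton] at this
      exact hzs (this ▸ hg)
    rw [hs0, Finset.coe_empty, Subgroup.closure_empty] at hsc
    rw [← hsc, Subgroup.mem_bot] at hx hy
    refine ⟨1, Subgroup.one_mem _, ?_, ?_⟩
    · rw [hx]; exact Subgroup.one_mem _
    · rw [hy]; exact Subgroup.one_mem _

theorem derivedSeries_two_eq_bot {G : Type u} [Group G]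
    (h : ∀ x y z w : G, Commute ⁅x, y⁆ ⁅z, w⁆) : derivedSeries G 2 = ⊥ := by
  have h1 : derivedSeries G 1 = Subgroup.closure {g | ∃ x y : G, ⁅x, y⁆ = g} := by
    rw [derivedSeries_one, commutator_eq_closure]
    rfl
  have h2 := comm_closure {g | ∃ x y : G, ⁅x, y⁆ = g} (by
    rintro _ ⟨x, y, rfl⟩ _ ⟨z, w, rfl⟩
    exact h x y z w)
  rw [derivedSeries_succ, Subgroup.commutator_eq_bot_iff_le_centralizer, h1]
  intro a ha
  rw [Subgroup.mem_centralizer_iff]
  intro b hb
  exact (h2 b hb a ha).eq

end Pool.Agent.Lib.MP_544a1b_al
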