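import Pool.Agent.Lib.MP_544a1b_al.Qb

/-! Structure of finite soluble groups whose abelian subgroups are cyclic. -/

set_option autoImplicit false

universe u

namespace Pool.Agent.Lib.MP_544a1b_al

open Subgroup
open scoped commutatorElement

theorem CC.involution_eq {G : Type*} [Group G] (h : CC G) {s t : G} (hc : Commute s t)
    (hs : s ≠ 1) (hs2 : s ^ 2 = 1) (ht : t ≠ 1) (ht2 : t ^ 2 = 1) : s = t := by
  have h1 : orderOf s = 2 := orderOf_eq_prime hs2 hs
  have h2 : orderOf t = 2 := orderOf_eq_prime ht2 ht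
  obtain ⟨k, hk⟩ := h.mem_zpowers hc (h1.trans h2.symm) (by rw [h2]; norm_num)
  simp only at hk
  rcases Int.even_or_odd' k with ⟨m, hm | hm⟩
  · exfalso
    apply hs
    rw [← hk, hm, zpow_mul, zpow_ofNat, ht2, one_zpow]
  · rw [← hk, hm, zpow_add, zpow_mul, zpow_ofNat, ht2, one_zpow, one_mul, zpow_one]

/-- Two elements acting on a finite cyclic subgroup: their commutator centralises it. -/
theorem comm_act {G : Type*} [Group G] {a m n : G} (ha : IsOfFinOrder a)
    (hm : m * a * m⁻¹ ∈ Subgroup.zpowers a) (hn : n * a * n⁻¹ ∈ Subgroup.zpowers a) :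
    Commute ⁅m, n⁆ a := by
  obtain ⟨i, hi⟩ := hm
  obtain ⟨j, hj⟩ := hn
  simp only at hi hj
  have h1 : m * n * a * (m * n)⁻¹ = a ^ (i * j) := by
    have : m * n * a * (m * n)⁻¹ = m * (n * a * n⁻¹) * m⁻¹ := by group
    rw [this, ← hj, ← conj_zpow, ← hi, zpow_mul]
  have h2 : n * m * a * (n * m)⁻¹ = a ^ (i * j) := by
    have : n * m * a * (n * m)⁻¹ = n * (m * a * m⁻¹) * n⁻¹ := by group
    rw [this, ← hi, ← conj_zpow, ← hj, mul_comm i j, zpow_mul]
  have h3 : Commute ⁅m, n⁆ (a ^ (i * j)) := by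
    have h4 : ⁅m, n⁆ * (n * m * a * (n * m)⁻¹) * ⁅m, n⁆⁻¹ = m * n * a * (m * n)⁻¹ := by
      rw [commutatorElement_def]; group
    rw [h1, h2] at h4
    exact mul_inv_eq_iff_eq_mul.1 h4
  have ho : orderOf (a ^ (i * j)) = orderOf a := by
    rw [← h1]
    exact orderOf_injective (MulAut.conj (m * n)).toMonoidHom (MulAut.conj (m * n)).injective a
  have h4 : a ∈ Subgroup.zpowers (a ^ (i * j)) :=
    mem_zpowers_of_orderOf_eq (Subgroup.mem_zpowers a)
      (Subgroup.zpow_mem _ (Subgroup.mem_zpowers a) _) ho.symm (by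
        rw [ho]; exact ha.orderOf_pos.ne')
  obtain ⟨l, hl⟩ := h4
  simp only at hl
  rw [← hl]
  exact h3.zpow_right l

theorem isZGroup_type {M : Type u} [Group M] [Finite M] (hc : CC M) (hq : NoQ M) :
    IsZGroup M := by
  constructor
  intro p hp P
  have : Fact p.Prime := ⟨hp⟩
  have hcP : CC (P : Subgroup M) := hc.subgroup _
  have hqP : NoQ (P : Subgroup M) := hq.subgroup _
  have h1 := comm_of_isPGroup_aux p _ (P : Subgroup M) rfl P.isPGroup' hcP hqP
  obtain ⟨a, -, ha⟩ := hcP.exists_gen ⊤ (fun x _ y _ => h1 x y)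
  exact ⟨a, fun x => ha x (Subgroup.mem_top x)⟩

theorem comm_of_class_two {K : Type u} [Group K] [Finite K] (hc : CC K) (hq : NoQ K)
    (h2 : ∀ a b c : K, Commute ⁅a, b⁆ c) : ∀ a b : K, Commute a b := by
  have hz : IsZGroup K := isZGroup_type hc hq
  have hn : Group.IsNilpotent K := by
    refine ⟨2, ?_⟩
    rw [Subgroup.eq_top_iff']
    intro a
    rw [Subgroup.mem_upperCentralSeries_succ_iff]
    intro b
    rw [Subgroup.upperCentralSeries_one, Subgroup.mem_center_iff]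
    intro c
    exact (h2 a b c).eq.symm
  have hcy : IsCyclic K := inferInstance
  let _ := IsCyclic.commGroup (α := K)
  intro a b
  exact mul_comm a b

theorem two_el_mem {M : Type*} [Group M] (hc : CC M) (K : Subgroup M)
    (hK : ∀ a ∈ K, ∀ b ∈ K, ∀ c ∈ K, Commute ⁅a, b⁆ c) {x y : M} (hx : x ∈ K) (hy : y ∈ K)
    (hQ : IsQ x y) {g : M} (hg : g ∈ K) {k : ℕ} (hgk : g ^ 2 ^ k = 1) :
    g ∈ Subgroup.closure ({x, y} : Set M) := by
  set Q := Subgroup.closure ({x, y} : Set M) with hQdef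
  have hxQ : x ∈ Q := Subgroup.subset_closure (by simp)
  have hyQ : y ∈ Q := Subgroup.subset_closure (by simp)
  have hQK : Q ≤ K := by
    rw [hQdef, Subgroup.closure_le]
    intro a ha
    rcases ha with rfl | ha
    · exact hx
    · rw [Set.mem_singleton_iff] at ha
      rw [ha]; exact hy
  set z := x ^ 2 with hz
  have hzK : ∀ c ∈ K, Commute z c := by
    intro c hcK
    rw [hz, ← hQ.commutator]
    exact hK x hx y hy c hcK
  have hz1 : z ≠ 1 := hQ.2.2
  have hz2 : z ^ 2 = 1 := hQ.z2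
  have hzQ : z ∈ Q := Q.pow_mem hxQ 2
  have hsqs : ∀ a ∈ K, a ^ 2 = 1 ∨ a ^ 2 = z → ∀ g ∈ K, ⁅a, g⁆ = 1 ∨ ⁅a, g⁆ = z := by
    intro a ha ha2 g hg
    have h1 := commutator_pow_left a g (hK a ha g hg a ha) 2
    have h2 : Commute (a ^ 2) g := by
      rcases ha2 with h2 | h2
      · rw [h2]; exact Commute.one_left g
      · rw [h2]; exact hzK g hg
    rw [commutatorElement_eq_one_iff_commute.2 h2] at h1
    by_cases h3 : ⁅a, g⁆ = 1
    · exact Or.inl h3
    · right
      exact hc.involution_eq (hzK _ (by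
        rw [commutatorElement_def]
        exact K.mul_mem (K.mul_mem (K.mul_mem ha hg) (K.inv_mem ha)) (K.inv_mem hg))).symm
        h3 h1.symm hz1 hz2
  have hex : ∃ q ∈ Q, ⁅x, q⁆ = ⁅x, g⁆ ∧ ⁅y, q⁆ = ⁅y, g⁆ := by
    have hxx : ⁅x, x⁆ = 1 := commutatorElement_self x
    have hyy : ⁅y, y⁆ = 1 := commutatorElement_self y
    have hxy : ⁅x, y⁆ = z := hQ.commutator
    have hyx : ⁅y, x⁆ = z := by rw [hQ.symm.commutator, ← hQ.1]
    have hxxy : ⁅x, x * y⁆ = z := by
      have : ⁅x, x * y⁆ = x * ⁅x, y⁆ * x⁻¹ := by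
        simp only [commutatorElement_def]; group
      rw [this, hxy, (hzK x hx).symm.eq, mul_inv_cancel_right]
    have hyxy : ⁅y, x * y⁆ = z := by
      have : ⁅y, x * y⁆ = ⁅y, x⁆ := by
        simp only [commutatorElement_def]; group
      rw [this, hyx]
    rcases hsqs x hx (Or.inr rfl) g hg with h1 | h1 <;>
      rcases hsqs y hy (Or.inr hQ.1.symm) g hg with h2 | h2
    · exact ⟨1, Q.one_mem, by rw [h1, commutatorElement_one_right],
        by rw [h2, commutatorElement_one_right]⟩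
    · exact ⟨x, hxQ, by rw [h1, hxx], by rw [h2, hyx]⟩
    · exact ⟨y, hyQ, by rw [h1, hxy], by rw [h2, hyy]⟩
    · exact ⟨x * y, Q.mul_mem hxQ hyQ, by rw [h1, hxxy], by rw [h2, hyxy]⟩
  obtain ⟨q, hq, hxq, hyq⟩ := hex
  have hqK : q ∈ K := hQK hq
  set w := g * q⁻¹ with hw
  have hwK : w ∈ K := K.mul_mem hg (K.inv_mem hqK)
  have hcomm : ∀ a ∈ K, ⁅a, q⁆ = ⁅a, g⁆ → Commute a w := by
    intro a ha haq
    have h1 : a * g * a⁻¹ = ⁅a, g⁆ * g := by rw [commutatorElement_def]; group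
    have h2 : a * q * a⁻¹ = ⁅a, g⁆ * q := by rw [← haq, commutatorElement_def]; group
    have h3 : a * w * a⁻¹ = (a * g * a⁻¹) * (a * q * a⁻¹)⁻¹ := by rw [hw]; group
    have h4 : a * w * a⁻¹ = w := by
      rw [h3, h1, h2, mul_inv_rev, hw]
      have h5 : Commute ⁅a, g⁆ (g * q⁻¹) := hK a ha g hg _ hwK
      calc ⁅a, g⁆ * g * (q⁻¹ * ⁅a, g⁆⁻¹) = ⁅a, g⁆ * (g * q⁻¹) * ⁅a, g⁆⁻¹ := by group
        _ = g * q⁻¹ := by rw [h5.eq, mul_inv_cancel_right]
    exact mul_inv_eq_iff_eq_mul.1 h4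
  have hxw : Commute x w := hcomm x hx hxq
  have hyw : Commute y w := hcomm y hy hyq
  have hq2 : q ^ 2 = 1 ∨ q ^ 2 = z := hQ.sq_cases hq
  have hq4 : q ^ 4 = 1 := by
    have : q ^ 4 = (q ^ 2) ^ 2 := by rw [← pow_mul]
    rw [this]
    rcases hq2 with h1 | h1
    · rw [h1, one_pow]
    · rw [h1, hz2]
  have hwn : w ^ 2 ^ (k + 2) = 1 := by
    have hd2 : ⁅g, q⁻¹⁆ ^ 2 = 1 := by
      have h1 : ⁅q⁻¹, g⁆ = 1 ∨ ⁅q⁻¹, g⁆ = z := by
        apply hsqs _ (K.inv_mem hqK) _ g hg
        rcases hq2 with h1 | h1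
        · left; rw [inv_pow, h1, inv_one]
        · right
          rw [inv_pow, h1]
          exact inv_eq_of_mul_eq_one_left (by rw [← sq]; exact hz2)
      have h2 : ⁅g, q⁻¹⁆ = ⁅q⁻¹, g⁆⁻¹ := (commutatorElement_inv q⁻¹ g).symm
      rw [h2]
      rcases h1 with h1 | h1
      · rw [h1]; simp
      · rw [h1, inv_pow, hz2, inv_one]
    have h1 := class_two_pow (y := g) (b := q⁻¹) (d := ⁅g, q⁻¹⁆)
      (hK g hg _ (K.inv_mem hqK) g hg) (hK g hg _ (K.inv_mem hqK) _ (K.inv_mem hqK))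
      (by rw [commutatorElement_def]; group) (2 ^ (k + 2))
    have h2 : (2 : ℕ) ^ (k + 2) * (2 ^ (k + 2) - 1) / 2 = 2 * (2 ^ k * (2 ^ (k + 2) - 1)) := by
      have : (2 : ℕ) ^ (k + 2) * (2 ^ (k + 2) - 1) = (2 * (2 ^ k * (2 ^ (k + 2) - 1))) * 2 := by
        ring
      rw [this, Nat.mul_div_cancel _ (by norm_num : 0 < 2)]
    rw [h2, pow_mul, hd2, one_pow, mul_one] at h1
    rw [hw, h1, pow_add, pow_mul, hgk, one_pow, one_mul, mul_comm, pow_mul]
    have : q⁻¹ ^ 2 ^ 2 = 1 := by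
      rw [inv_pow]; norm_num; exact hq4
    rw [this, one_pow]
  have hw2 : w ^ 2 = 1 := by
    by_contra hne
    obtain ⟨s, -, hs⟩ := (Nat.dvd_prime_pow Nat.prime_two).1 (orderOf_dvd_of_pow_eq_one hwn)
    have hs2 : 2 ≤ s := by
      by_contra hlt
      apply hne
      apply orderOf_dvd_iff_pow_eq_one.1
      rw [hs]
      exact (pow_dvd_pow 2 (by omega : s ≤ 1)).trans (by norm_num)
    obtain ⟨r, rfl⟩ := Nat.exists_eq_add_of_le hs2
    have ho : orderOf (w ^ 2 ^ r) = 4 := by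
      rw [orderOf_pow_of_dvd (pow_ne_zero _ (by norm_num)) (by
        rw [hs]; exact pow_dvd_pow 2 (by omega)), hs, pow_add,
        Nat.mul_div_cancel _ (pow_pos (by norm_num) r)]
      norm_num
    have h1 : x ∈ Subgroup.zpowers (w ^ 2 ^ r) :=
      hc.mem_zpowers (hxw.pow_right _) (hQ.orderOf_x.trans ho.symm) (by rw [ho]; norm_num)
    obtain ⟨l, hl⟩ := h1
    simp only at hl
    apply hQ.not_commute
    rw [← hl]
    exact ((hyw.pow_right (2 ^ r)).zpow_right l).symm
  have hgw : g = w * q := by rw [hw, inv_mul_cancel_right]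
  by_cases hw1 : w = 1
  · rw [hgw, hw1, one_mul]; exact hq
  · have : w = z := hc.involution_eq (hzK w hwK).symm hw1 hw2 hz1 hz2
    rw [hgw, this]
    exact Q.mul_mem hzQ hq

theorem exists_max_abelian_normal (M : Type*) [Group M] [Finite M] :
    ∃ F : Subgroup M, F.Normal ∧ (∀ a ∈ F, ∀ b ∈ F, Commute a b) ∧
      ∀ K : Subgroup M, K.Normal → (∀ a ∈ K, ∀ b ∈ K, Commute a b) → F ≤ K → F = K := by
  let S := {F : Subgroup M // F.Normal ∧ ∀ a ∈ F, ∀ b ∈ F, Commute a b}
  have : Nonempty S := ⟨⟨⊥, inferInstance, by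
    intro a ha b _
    rw [Subgroup.mem_bot] at ha
    rw [ha]; exact Commute.one_left b⟩⟩
  obtain ⟨F, hF⟩ := Finite.exists_max (fun F : S => Nat.card F.1)
  refine ⟨F.1, F.2.1, F.2.2, ?_⟩
  intro K hK hKc hFK
  exact Subgroup.eq_of_le_of_card_ge hFK (hF ⟨K, hK, hKc⟩)

/-- The structure lemma. -/
theorem structure_lemma {M : Type u} [Group M] [Finite M] (hs : Group.IsSolvable M)
    (hc : CC M) :
    (∃ F : Subgroup M, F.Normal ∧ (∀ a ∈ F, ∀ b ∈ F, Commute a b) ∧
      (∀ g, (∀ f ∈ F, Commute g f) → g ∈ F) ∧ ∀ g h : M, ⁅g, h⁆ ∈ F) ∨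
    (∃ x y : M, IsQ x y ∧ ∀ m : M, ∀ q ∈ Subgroup.closure ({x, y} : Set M),
      m * q * m⁻¹ ∈ Subgroup.closure ({x, y} : Set M)) := by
  obtain ⟨F, hFn, hFc, hFmax⟩ := exists_max_abelian_normal M
  obtain ⟨a, haF, hgen⟩ := hc.exists_gen F hFc
  set C := Subgroup.centralizer (F : Set M) with hC
  have hCn : C.Normal := inferInstance
  have hcomC : ∀ g h : M, ⁅g, h⁆ ∈ C := by
    intro g h
    rw [hC, Subgroup.mem_centralizer_iff]
    intro f hf
    have h1 : Commute ⁅g, h⁆ a := comm_act (isOfFinOrder_of_finite a)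
      (hgen _ (hFn.conj_mem a haF g)) (hgen _ (hFn.conj_mem a haF h))
    obtain ⟨k, rfl⟩ := hgen f hf
    exact (h1.zpow_right k).eq.symm
  have hFC : F ≤ C := by
    intro f hf
    rw [hC, Subgroup.mem_centralizer_iff]
    intro g hg
    exact (hFc g hg f hf).eq
  by_cases hCF : C ≤ F
  · left
    refine ⟨F, hFn, hFc, ?_, fun g h => hCF (hcomC g h)⟩
    intro g hg
    apply hCF
    rw [hC, Subgroup.mem_centralizer_iff]
    intro f hf
    exact (hg f hf).eq.symm
  · right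
    let E : ℕ → Subgroup M := fun n => Nat.rec C (fun _ D => ⁅D, D⁆) n
    have hE0 : E 0 = C := rfl
    have hEs : ∀ n, E (n + 1) = ⁅E n, E n⁆ := fun _ => rfl
    have hEn : ∀ n, (E n).Normal := by
      intro n
      induction n with
      | zero => exact hCn
      | succ n ih =>
        rw [hEs]
        exact @Subgroup.commutator_normal _ _ _ _ ih ih
    have hEC : ∀ n, E n ≤ C := by
      intro n
      induction n with
      | zero => exact le_rfl
      | succ n ih =>
        rw [hEs]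
        exact (Subgroup.commutator_mono ih ih).trans (by
          rw [Subgroup.commutator_le]
          intro g _ h _
          exact hcomC g h)
    have hED : ∀ n, E n ≤ derivedSeries M n := by
      intro n
      induction n with
      | zero => rw [derivedSeries_zero]; exact le_top
      | succ n ih =>
        rw [hEs, derivedSeries_succ]
        exact Subgroup.commutator_mono ih ih
    obtain ⟨n, hn⟩ := hs.solvable
    have hex : ∃ n, E n ≤ F := ⟨n, (hED n).trans (by rw [hn]; exact bot_le)⟩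
    obtain ⟨j, hj1, hj2⟩ : ∃ j, ¬ E j ≤ F ∧ E (j + 1) ≤ F := by
      by_contra hcon
      push Not at hcon
      have hall : ∀ m, ¬ E m ≤ F := by
        intro m
        induction m with
        | zero => exact hCF
        | succ m ih => exact hcon m ih
      obtain ⟨k, hk⟩ := hex
      exact hall k hk
    have hEjn : (E j).Normal := hEn j
    have hKn0 : (E j ⊔ F).Normal := @Subgroup.sup_normal _ _ _ _ hEjn hFn
    set K : Subgroup M := E j ⊔ F with hK
    have hKn : K.Normal := hKn0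
    have hFK : F ≤ K := le_sup_right
    have hKC : K ≤ C := sup_le (hEC j) hFC
    have hFcen : ∀ f ∈ F, ∀ k ∈ C, Commute f k := fun f hf k hk =>
      Subgroup.mem_centralizer_iff.1 hk f hf
    have hKF : ∀ a ∈ K, ∀ b ∈ K, ⁅a, b⁆ ∈ F := by
      intro a ha b hb
      rw [hK, ← SetLike.mem_coe, Subgroup.mul_normal, Set.mem_mul] at ha hb
      obtain ⟨e, he, f, hf, rfl⟩ := ha
      obtain ⟨e', he', f', hf', rfl⟩ := hb
      have h1 : ⁅e * f, e' * f'⁆ = ⁅e, e' * f'⁆ := by
        have h2 : Commute f (e' * f') := hFcen f hf _ (C.mul_mem (hEC j he') (hFC hf'))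
        have h3 : ⁅e * f, e' * f'⁆ = e * (f * (e' * f')) * f⁻¹ * e⁻¹ * (e' * f')⁻¹ := by
          rw [commutatorElement_def]; group
        rw [h3, h2.eq, commutatorElement_def]; group
      have h2 : ⁅e, e' * f'⁆ = ⁅e, e'⁆ := by
        have h3 : Commute f' e⁻¹ := (hFcen f' hf' _ (hEC j he)).inv_right
        have h4 : ⁅e, e' * f'⁆ = e * e' * (f' * e⁻¹) * f'⁻¹ * e'⁻¹ := by
          rw [commutatorElement_def]; group
        rw [h4, h3.eq, commutatorElement_def]; group
      rw [h1, h2]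
      apply hj2
      rw [hEs]
      exact Subgroup.commutator_mem_commutator he he'
    have hK2 : ∀ a ∈ K, ∀ b ∈ K, ∀ c ∈ K, Commute ⁅a, b⁆ c := fun a ha b hb c hc' =>
      hFcen _ (hKF a ha b hb) c (hKC hc')
    have hKnc : ¬ NoQ K := by
      intro hq
      have h1 := comm_of_class_two (hc.subgroup K) hq (by
        intro a b c
        have := hK2 a a.2 b b.2 c c.2
        apply Subtype.ext
        exact this.eq)
      have h2 := hFmax K hKn (fun a ha b hb => congrArg Subtype.val (h1 ⟨a, ha⟩ ⟨b, hb⟩).eq) hFK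
      apply hj1
      rw [h2]
      exact le_sup_left
    obtain ⟨x, y, hxy⟩ := not_noQ_iff.1 hKnc
    have hQ : IsQ (x : M) (y : M) := by
      refine ⟨congrArg Subtype.val hxy.1, congrArg Subtype.val hxy.2.1, ?_⟩
      intro h1
      exact hxy.2.2 (Subtype.ext h1)
    refine ⟨x, y, hQ, ?_⟩
    have hQK : Subgroup.closure ({(x : M), (y : M)} : Set M) ≤ K := by
      rw [Subgroup.closure_le]
      intro a ha
      rcases ha with rfl | ha
      · exact x.2
      · rw [Set.mem_singleton_iff] at ha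
        rw [ha]; exact y.2
    intro m q hq
    apply two_el_mem hc K hK2 x.2 y.2 hQ (hKn.conj_mem q (hQK hq) m) (k := 2)
    rw [conj_pow]
    have h1 : q ^ 2 ^ 2 = 1 := by
      have : q ^ 2 ^ 2 = (q ^ 2) ^ 2 := by rw [← pow_mul]; norm_num
      rw [this]
      rcases hQ.sq_cases hq with h2 | h2
      · rw [h2, one_pow]
      · rw [h2]; exact hQ.z2
    rw [h1]; simp

end Pool.Agent.Lib.MP_544a1b_al
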