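import Pool.Agent.Lib.MP_544a1b_al.Pair

/-! Three-elements acting on quaternion groups. -/

set_option autoImplicit false

universe u

namespace Pool.Agent.Lib.MP_544a1b_al

open Subgroup
open scoped commutatorElement

theorem z0 {Γ : Type*} [Group Γ] {s v w : Γ} (hs : s ^ 3 = 1) (hv : v ^ 2 = 1) (hw : w ^ 2 = 1)
    (hvm : v * (s * v * s⁻¹) = s ^ 2 * v * (s ^ 2)⁻¹)
    (hwm : w * (s * w * s⁻¹) = s ^ 2 * w * (s ^ 2)⁻¹) (hw1 : w ≠ 1)
    (h1 : (s * v * s * w) ^ 2 = 1) (h2 : (s * v * s * (s * w * s⁻¹)) ^ 2 = 1) : False := by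
  have hvi : v⁻¹ = v := inv_eq_of_mul_eq_one_left (by rw [← sq]; exact hv)
  have hwi : w⁻¹ = w := inv_eq_of_mul_eq_one_left (by rw [← sq]; exact hw)
  have hs2 : s ^ 2 = s⁻¹ := by
    apply eq_inv_of_mul_eq_one_left
    rw [← pow_succ]; exact hs
  obtain ⟨w1, hw1d⟩ : ∃ w1, w1 = s * w * s⁻¹ := ⟨_, rfl⟩
  obtain ⟨w2, hw2d⟩ : ∃ w2, w2 = s ^ 2 * w * (s ^ 2)⁻¹ := ⟨_, rfl⟩
  rw [← hw1d, ← hw2d] at hwm
  rw [← hw1d] at h2
  have hw1i : w1⁻¹ = w1 := by
    have : w1⁻¹ = s * w⁻¹ * s⁻¹ := by rw [hw1d]; group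
    rw [this, hwi, hw1d]
  have hw2i : w2⁻¹ = w2 := by
    have : w2⁻¹ = s ^ 2 * w⁻¹ * (s ^ 2)⁻¹ := by rw [hw2d]; group
    rw [this, hwi, hw2d]
  have e1 : w1 * w = w2 := by
    have : w1 * w = (w * w1)⁻¹ := by rw [mul_inv_rev, hwi, hw1i]
    rw [this, hwm, hw2i]
  have hww : w * w = 1 := by rw [← sq]; exact hw
  have e2 : w2 * w = w1 := by rw [← e1, mul_assoc, hww, mul_one]
  obtain ⟨t, htd⟩ : ∃ t, t = s * v * s := ⟨_, rfl⟩
  rw [← htd] at h1 h2
  have h1' : w * t * w = t⁻¹ := by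
    apply eq_inv_of_mul_eq_one_right
    rw [← h1, sq]; group
  have h2' : w1 * t * w1 = t⁻¹ := by
    apply eq_inv_of_mul_eq_one_right
    rw [← h2, sq]; group
  have h3 : w2 * t * w2⁻¹ = t := by
    have h4 : w2 * t * w2⁻¹ = w * (w1 * t * w1⁻¹) * w⁻¹ := by rw [← hwm]; group
    rw [h4, hw1i, h2']
    have h5 : w * t⁻¹ * w⁻¹ = (w * t * w⁻¹)⁻¹ := by group
    rw [h5]
    rw [hwi, h1', inv_inv]
  have hA : v * w * v⁻¹ = w1 := by
    have h4 : t * w2 * t⁻¹ = w2 := by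
      have h5 : Commute w2 t := mul_inv_eq_iff_eq_mul.1 h3
      rw [h5.symm.eq, mul_inv_cancel_right]
    have h5 : v * (s * w2 * s⁻¹) * v⁻¹ = s⁻¹ * (t * w2 * t⁻¹) * s := by rw [htd]; group
    have h6 : s * w2 * s⁻¹ = w := by
      have : s * w2 * s⁻¹ = s ^ 3 * w * (s ^ 3)⁻¹ := by rw [hw2d]; group
      rw [this, hs]; group
    have h7 : s⁻¹ * w2 * s = w1 := by rw [hw2d, hw1d]; group
    rw [h6, h4, h7] at h5
    exact h5
  have hvw : v * w = w1 * v := mul_inv_eq_iff_eq_mul.1 hA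
  have hvv : v * v = 1 := by rw [← sq]; exact hv
  have hvw1 : v * w1 = w * v := by
    have : w1 = v * w * v := by rw [← hA, hvi]
    rw [this]
    have h4 : v * (v * w * v) = v * v * (w * v) := by group
    rw [h4, hvv, one_mul]
  have hti : t⁻¹ = w1 * v * w2 := by
    have h4 : t⁻¹ = s * t * s := by
      have h5 : s * t * s = s ^ 2 * v * s ^ 2 := by rw [htd, sq]; group
      have h6 : t⁻¹ = s⁻¹ * v⁻¹ * s⁻¹ := by rw [htd]; group
      rw [h5, h6, hs2, hvi]
    have h5 : t = w * t⁻¹ * w := by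
      have h6 : (w * t * w)⁻¹ = w⁻¹ * t⁻¹ * w⁻¹ := by group
      rw [h1', inv_inv, hwi] at h6
      exact h6
    have h6 : t⁻¹ = s⁻¹ * v * s⁻¹ := by
      have : t⁻¹ = s⁻¹ * v⁻¹ * s⁻¹ := by rw [htd]; group
      rw [this, hvi]
    have h7 : s * w * s⁻¹ = w1 := hw1d.symm
    have h8 : s⁻¹ * w * s = w2 := by
      rw [hw2d, hs2]; group
    calc t⁻¹ = s * t * s := h4
      _ = s * (w * t⁻¹ * w) * s := by rw [← h5]
      _ = s * (w * (s⁻¹ * v * s⁻¹) * w) * s := by rw [h6]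
      _ = (s * w * s⁻¹) * v * (s⁻¹ * w * s) := by group
      _ = w1 * v * w2 := by rw [h7, h8]
  have ht2 : t = v * w := by
    have h4 : t = w2 * (v * w1) := by
      have : t = (t⁻¹)⁻¹ := by group
      rw [this, hti]
      have h5 : (w1 * v * w2)⁻¹ = w2⁻¹ * (v⁻¹ * w1⁻¹) := by group
      rw [h5, hw2i, hvi, hw1i]
    rw [h4, hvw1, ← mul_assoc, e2, hvw]
  have hC : (v * s) * (v * s) = w := by
    have h4 : (v * s) * (v * s) = v * t := by rw [htd]; group
    rw [h4, ht2, ← mul_assoc, hvv, one_mul]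
  have hD : (v * s) * (v * s) * (v * s) = 1 := by
    have h4 : (v * s) * (v * s) * (v * s) = v * (s * v * s⁻¹) * (s ^ 2 * v * (s ^ 2)⁻¹) * s ^ 3 := by
      group
    rw [h4, hvm, hs, mul_one]
    have h5 : s ^ 2 * v * (s ^ 2)⁻¹ * (s ^ 2 * v * (s ^ 2)⁻¹) = s ^ 2 * (v * v) * (s ^ 2)⁻¹ := by
      group
    rw [h5, hvv]; group
  apply hw1
  rw [hC] at hD
  have h4 : v * s = w := by
    rw [← hwi]
    exact eq_inv_of_mul_eq_one_right hD
  rw [h4, hww] at hC
  exact hC.symm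

theorem z1 {Γ : Type*} [Group Γ] {s v w : Γ} (hs : s ^ 3 = 1) (hv : v ^ 2 = 1) (hw : w ^ 2 = 1)
    (hvm : v * (s * v * s⁻¹) = s ^ 2 * v * (s ^ 2)⁻¹)
    (hwm : w * (s * w * s⁻¹) = s ^ 2 * w * (s ^ 2)⁻¹)
    (hall : ∀ w', (w' = w ∨ w' = s * w * s⁻¹ ∨ w' = s ^ 2 * w * (s ^ 2)⁻¹) →
      Commute v w' ∨ (s * v * s * w') ^ 2 = 1) : Commute v w := by
  by_contra hno
  have hw1 : w ≠ 1 := by
    rintro rfl
    exact hno (Commute.one_right v)
  have hwi : w⁻¹ = w := inv_eq_of_mul_eq_one_left (by rw [← sq]; exact hw)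
  have hww : w * w = 1 := by rw [← sq]; exact hw
  have h0 : (s * v * s * w) ^ 2 = 1 := by
    rcases hall w (Or.inl rfl) with h1 | h1
    · exact absurd h1 hno
    · exact h1
  have h1 : Commute v (s * w * s⁻¹) := by
    rcases hall _ (Or.inr (Or.inl rfl)) with h1 | h1
    · exact h1
    · exact (z0 hs hv hw hvm hwm hw1 h0 h1).elim
  have h2 : Commute v (s ^ 2 * w * (s ^ 2)⁻¹) := by
    rcases hall _ (Or.inr (Or.inr rfl)) with h2 | h2
    · exact h2
    · exfalso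
      set w2 := s ^ 2 * w * (s ^ 2)⁻¹ with hw2d
      have hs2 : s ^ 2 = s⁻¹ := by
        apply eq_inv_of_mul_eq_one_left
        rw [← pow_succ]; exact hs
      have e1 : s * w2 * s⁻¹ = w := by
        have : s * w2 * s⁻¹ = s ^ 3 * w * (s ^ 3)⁻¹ := by rw [hw2d]; group
        rw [this, hs]; group
      have e2 : s ^ 2 * w2 * (s ^ 2)⁻¹ = s * w * s⁻¹ := by
        have : s ^ 2 * w2 * (s ^ 2)⁻¹ = s ^ 3 * (s * w * s⁻¹) * (s ^ 3)⁻¹ := by rw [hw2d]; group
        rw [this, hs]; group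
      have hw2sq : w2 ^ 2 = 1 := by rw [hw2d, conj_pow, hw]; group
      have hw21 : w2 ≠ 1 := by
        intro h3
        apply hw1
        rw [← e1, h3]; group
      have hwm2 : w2 * (s * w2 * s⁻¹) = s ^ 2 * w2 * (s ^ 2)⁻¹ := by
        rw [e1, e2]
        have h3 : w2 * w2 = 1 := by rw [← sq]; exact hw2sq
        -- `w * w1 = w2`
        have h4 : s * w * s⁻¹ = w * w2 := by
          rw [← hwm, ← mul_assoc, hww, one_mul]
        have h5 : w * w2 = w2 * w := by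
          have h6 : (s * w * s⁻¹) * (s * w * s⁻¹) = 1 := by
            have : (s * w * s⁻¹) * (s * w * s⁻¹) = s * (w * w) * s⁻¹ := by group
            rw [this, hww]; group
          rw [h4] at h6
          have hw2i : w2⁻¹ = w2 := inv_eq_of_mul_eq_one_left h3
          have h7 : w * w2 = (w * w2)⁻¹ := eq_inv_of_mul_eq_one_left h6
          rw [mul_inv_rev, hw2i, hwi] at h7
          exact h7
        rw [h4, h5]
      exact z0 hs hv hw2sq hvm hwm2 hw21 h2 (by rw [e1]; exact h0)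
  apply hno
  have h3 : w = (s ^ 2 * w * (s ^ 2)⁻¹) * (s * w * s⁻¹)⁻¹ := by
    rw [← hwm]; group
  rw [h3]
  exact h2.mul_right h1.inv_right

/-- The configuration of a three-element acting on a quaternion group. -/
structure Tri {G : Type*} [Group G] (z y v : G) : Prop where
  sqz : v ^ 2 = z
  mul : v * (y * v * y⁻¹) = y ^ 2 * v * (y ^ 2)⁻¹
  cube : Commute (y ^ 3) v

theorem UI.inv {G : Type*} [Group G] {z : G} (hz : UI z) : z⁻¹ = z :=
  inv_eq_of_mul_eq_one_left (by rw [← _root_.sq]; exact hz.sq)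

section

variable {G : Type u} [Group G] {z : G} (hz : UI z)

include hz

theorem Tri.conj {y v : G} (hT : Tri z y v) : Tri z y (y * v * y⁻¹) := by
  refine ⟨?_, ?_, ?_⟩
  · rw [conj_pow, hT.sqz, (hz.cen y).eq, mul_inv_cancel_right]
  · have h1 : y * v * y⁻¹ * (y * (y * v * y⁻¹) * y⁻¹) = y * (v * (y * v * y⁻¹)) * y⁻¹ := by group
    rw [h1, hT.mul]; group
  · have h1 : Commute (y ^ 3) y := (Commute.refl y).pow_left 3
    exact (h1.mul_right hT.cube).mul_right h1.inv_right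

theorem Tri.isQ {y v : G} (hT : Tri z y v) : IsQ v (y * v * y⁻¹) := by
  have hc := hT.conj hz
  have h1 : v ^ 2 = (y * v * y⁻¹) ^ 2 := by rw [hT.sqz, hc.sqz]
  refine ⟨h1, ?_, by rw [hT.sqz]; exact hz.ne⟩
  set v1 := y * v * y⁻¹ with hv1
  have h2 : (v * v1) * (v * v1) = z := by
    rw [hT.mul]
    have : y ^ 2 * v * (y ^ 2)⁻¹ * (y ^ 2 * v * (y ^ 2)⁻¹) = y ^ 2 * v ^ 2 * (y ^ 2)⁻¹ := by
      rw [sq v]; group
    rw [this, hT.sqz, (hz.cen _).eq, mul_inv_cancel_right]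
  have h3 : v1 * v * v1 = v := by
    have h4 : v * (v1 * v * v1) = v * v := by
      have : v * (v1 * v * v1) = (v * v1) * (v * v1) := by group
      rw [this, h2, ← hT.sqz, sq]
    exact mul_left_cancel h4
  have h4 : v1⁻¹ = z * v1 := by
    apply inv_eq_of_mul_eq_one_left
    rw [mul_assoc, ← sq, hc.sqz, ← sq, hz.sq]
  have h5 : v⁻¹ = z * v := by
    apply inv_eq_of_mul_eq_one_left
    rw [mul_assoc, ← sq, hT.sqz, ← sq, hz.sq]
  rw [h4, h5]
  have h6 : v1 * v * (z * v1) = z * (v1 * v * v1) := by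
    have h7 : v1 * v * z = z * (v1 * v) := (hz.cen (v1 * v)).eq
    rw [← mul_assoc, h7]; group
  rw [h6, h3]

theorem Tri.alpha {y v : G} (hT : Tri z y v) (hy : Is3 y) :
    Is3 (y * v * z) ∧ (y * v * z) ^ 3 = y ^ 3 ∧ y * v * z ≠ 1 := by
  have hQ := hT.isQ hz
  set v1 := y * v * y⁻¹ with hv1
  have hcube : (y * v * z) ^ 3 = y ^ 3 := by
    have h1 : Commute (y * v) z := hz.cen _
    rw [h1.mul_pow]
    have h2 : z ^ 3 = z := by rw [pow_succ, hz.sq, one_mul]
    have h3 : (y * v) ^ 3 = v1 * (v * v1) * (y ^ 3 * v * (y ^ 3)⁻¹) * y ^ 3 := by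
      rw [hT.mul, hv1]
      have : (y * v) ^ 3 = y * v * (y * v) * (y * v) := by rw [pow_succ, sq]
      rw [this]; group
    have h4 : y ^ 3 * v * (y ^ 3)⁻¹ = v := by rw [hT.cube.eq, mul_inv_cancel_right]
    have h5 : v1 * (v * v1) * v = z := by
      have h6 : v1 * v = v⁻¹ * v1 := hQ.yx
      have h7 : v1 * (v * v1) * v = (v1 * v) * (v1 * v) := by group
      rw [h7, h6]
      have h8 : v⁻¹ * v1 * (v⁻¹ * v1) = v⁻¹ * (v1 * v⁻¹) * v1 := by group
      have h9 : v1 * v⁻¹ = v * v1 := by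
        have h10 : v1 * v ^ (-1 : ℤ) = v ^ (-(-1) : ℤ) * v1 := hQ.yx_zpow (-1)
        rw [neg_neg, zpow_one, zpow_neg_one] at h10
        exact h10
      rw [h8, h9]
      have h10 : v⁻¹ * (v * v1) * v1 = v1 ^ 2 := by rw [sq]; group
      rw [h10, ← hQ.1, hT.sqz]
    rw [h3, h4, h5, h2, mul_assoc]
    have h6 : Commute (y ^ 3) z := hz.cen _
    rw [h6.eq, ← mul_assoc, ← sq, hz.sq, one_mul]
  refine ⟨?_, hcube, ?_⟩
  · obtain ⟨k, hk⟩ := hy
    apply Is3.of_pow_eq (k := k + 1)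
    have h1 : (3 : ℕ) ^ (k + 1) = 3 * 3 ^ k := by rw [pow_succ]; ring
    rw [h1, pow_mul, hcube, ← pow_mul, mul_comm, pow_mul, ← hk, pow_orderOf_eq_one, one_pow]
  · intro h1
    have h2 : y = z⁻¹ * v⁻¹ := by
      have : y = (y * v * z) * (z⁻¹ * v⁻¹) := by group
      rw [this, h1, one_mul]
    have h3 : Commute y v := by
      rw [h2]
      exact (hz.cen v).symm.inv_left.mul_left (Commute.refl v).inv_left
    apply hQ.not_commute
    rw [hv1, h3.eq, mul_inv_cancel_right]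

variable (h : RC G) (ht : ∀ g : G, IsOfFinOrder g)
  (h23 : ∀ g : G, ∀ p : ℕ, p.Prime → p ∣ orderOf g → p < 5)

include h ht h23

theorem claimA_aux {y : G} (hy : Is3 y) (hcen : ∀ g, Commute g (y ^ 3)) {v w : G}
    (hv : Tri z y v) (hw : Tri z y w) : w ∈ Subgroup.closure ({v, y * v * y⁻¹} : Set G) := by
  set N := Subgroup.closure ({z, y ^ 3} : Set G) with hN
  have hNc : ∀ n ∈ N, ∀ g : G, Commute g n := by
    intro n hn g
    exact commute_closure (hz.cen g) (hcen g) hn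
  have hNn : N.Normal := by
    constructor
    intro n hn g
    rw [(hNc n hn g).eq, mul_inv_cancel_right]
    exact hn
  have hzN : z ∈ N := x_mem_closure _ _
  have hyN : y ^ 3 ∈ N := y_mem_closure _ _
  have hpair : ∀ v w : G, Tri z y v → Tri z y w →
      (v⁻¹ * w) ^ 2 ∈ N ∨ (y * v * y * w) ^ 2 ∈ N := by
    intro v w hv hw
    obtain ⟨a1, a2, a3⟩ := hv.alpha hz hy
    obtain ⟨b1, b2, b3⟩ := hw.alpha hz hy
    have h1 : (y * v * z)⁻¹ * (y * w * z) = v⁻¹ * w := by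
      have h2 : (y * v * z)⁻¹ * (y * w * z) = z⁻¹ * (v⁻¹ * w * z) := by group
      rw [h2, (hz.cen _).eq]; group
    have h2 : (y * v * z) * (y * w * z) = y * v * y * w := by
      have h3 : (y * v * z) * (y * w * z) = y * v * (z * (y * w * z)) := by group
      have h4 : z * (y * w * z) = y * w := by
        rw [(hz.cen (y * w)).eq, ← mul_assoc, ← sq, hz.sq, one_mul]
      rw [h3, h4]; group
    rcases lemmaP h ht hz h23 a1 b1 a3 b3 a2 b2 with h3 | h3
    · left; rw [← h1]; exact h3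
    · right; rw [← h2]; exact h3
  have hmkq : ∀ v : G, Tri z y v → ((v : G ⧸ N)) ^ 2 = 1 := by
    intro v hv
    rw [← QuotientGroup.mk_pow, QuotientGroup.eq_one_iff, hv.sqz]
    exact hzN
  have hcomm : ∀ v w : G, Tri z y v → Tri z y w → ⁅v, w⁆ ∈ N := by
    intro v w hv hw
    have h1 : Commute (v : G ⧸ N) (w : G ⧸ N) := by
      apply z1 (s := (y : G ⧸ N))
      · rw [← QuotientGroup.mk_pow, QuotientGroup.eq_one_iff]; exact hyN
      · exact hmkq v hv
      · exact hmkq w hw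
      · have := congrArg (fun g : G => (g : G ⧸ N)) hv.mul
        exact this
      · have := congrArg (fun g : G => (g : G ⧸ N)) hw.mul
        exact this
      · intro w' hw'
        have h2 : ∃ u : G, Tri z y u ∧ (u : G ⧸ N) = w' := by
          rcases hw' with rfl | rfl | rfl
          · exact ⟨w, hw, rfl⟩
          · exact ⟨y * w * y⁻¹, hw.conj hz, rfl⟩
          · refine ⟨y * (y * w * y⁻¹) * y⁻¹, (hw.conj hz).conj hz, ?_⟩
            have : y * (y * w * y⁻¹) * y⁻¹ = y ^ 2 * w * (y ^ 2)⁻¹ := by rw [sq]; group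
            rw [this]; rfl
        obtain ⟨u, hu, rfl⟩ := h2
        rcases hpair v u hv hu with h3 | h3
        · left
          have h4 : ((v : G ⧸ N)⁻¹ * (u : G ⧸ N)) ^ 2 = 1 := by
            have := (QuotientGroup.eq_one_iff _).2 h3
            exact this
          have hvi : (v : G ⧸ N)⁻¹ = v := inv_eq_of_mul_eq_one_left (by
            rw [← sq]; exact hmkq v hv)
          have hui : (u : G ⧸ N)⁻¹ = u := inv_eq_of_mul_eq_one_left (by
            rw [← sq]; exact hmkq u hu)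
          rw [hvi] at h4
          have h5 : (v : G ⧸ N) * u = ((v : G ⧸ N) * u)⁻¹ :=
            eq_inv_of_mul_eq_one_left (by rw [← sq]; exact h4)
          rw [mul_inv_rev, hvi, hui] at h5
          exact h5
        · right
          exact (QuotientGroup.eq_one_iff _).2 h3
    rw [← QuotientGroup.eq_one_iff]
    have h2 : ((⁅v, w⁆ : G) : G ⧸ N) = ⁅(v : G ⧸ N), (w : G ⧸ N)⁆ :=
      map_commutatorElement (QuotientGroup.mk' N) v w
    rw [h2]
    exact commutatorElement_eq_one_iff_commute.2 h1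
  have hconj : ∀ v : G, Tri z y v → w * v * w⁻¹ = v ∨ w * v * w⁻¹ = v⁻¹ := by
    intro v hv
    have h1 := hcomm w v hw hv
    have h2 := commutator_pow_left w v (hNc _ h1 w).symm 2
    rw [hw.sqz, commutatorElement_eq_one_iff_commute.2 (hz.cen v).symm] at h2
    have h3 : w * v * w⁻¹ = ⁅w, v⁆ * v := by rw [commutatorElement_def]; group
    rcases hz.uni _ h2.symm with h4 | h4
    · left; rw [h3, h4, one_mul]
    · right
      rw [h3, h4]
      symm
      apply inv_eq_of_mul_eq_one_left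
      rw [mul_assoc, ← sq, hv.sqz, ← sq, hz.sq]
  have hQ := hv.isQ hz
  obtain ⟨q, hq, t, hqt, htv, htv1⟩ := hQ.inner (hconj v hv) (hconj _ (hv.conj hz))
  have hzQ : z ∈ Subgroup.closure ({v, y * v * y⁻¹} : Set G) := by
    rw [← hv.sqz]
    exact Subgroup.pow_mem _ (x_mem_closure _ _) 2
  have hqtc : Commute q t := (commute_closure htv htv1 hq).symm
  have h1 : q ^ 2 * t ^ 2 = z := by rw [← hqtc.mul_pow, ← hqt, hw.sqz]
  rcases hQ.sq_cases hq with h2 | h2
  · exfalso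
    rw [h2, one_mul] at h1
    have hto : orderOf t = 4 := by
      have h3 : orderOf t = 2 ^ (1 + 1) := orderOf_eq_prime_pow (by
          rw [pow_one, h1]; exact hz.ne) (by
          have : t ^ 2 ^ (1 + 1) = (t ^ 2) ^ 2 := by rw [← pow_mul]; norm_num
          rw [this, h1, hz.sq])
      simpa using h3
    have h3 : v ∈ Subgroup.zpowers t :=
      h.mem_zpowers htv.symm (hQ.orderOf_x.trans hto.symm) (by rw [hto]; norm_num)
    obtain ⟨l, hl⟩ := h3
    simp only at hl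
    apply hQ.not_commute
    have h4 : Commute (t ^ l) (y * v * y⁻¹) := htv1.zpow_left l
    rw [hl] at h4
    exact h4
  · rw [h2, hv.sqz] at h1
    have h3 : t ^ 2 = 1 := mul_eq_left.1 h1
    rw [hqt]
    apply Subgroup.mul_mem _ hq
    rcases hz.uni t h3 with h4 | h4
    · rw [h4]; exact Subgroup.one_mem _
    · rw [h4]; exact hzQ

omit h ht h23 in
theorem UI.subgroup' (H : Subgroup G) (hzH : z ∈ H) : UI (⟨z, hzH⟩ : H) := by
  refine ⟨?_, ?_, ?_, ?_⟩
  · intro h1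
    exact hz.ne (congrArg Subtype.val h1)
  · exact Subtype.ext hz.sq
  · intro g
    exact Subtype.ext (hz.cen (g : G)).eq
  · intro s hs
    rcases hz.uni (s : G) (congrArg Subtype.val hs) with h1 | h1
    · exact Or.inl (Subtype.ext h1)
    · exact Or.inr (Subtype.ext h1)

theorem claimA {y : G} (hy : Is3 y) {v w : G}
    (hv : Tri z y v) (hw : Tri z y w) : w ∈ Subgroup.closure ({v, y * v * y⁻¹} : Set G) := by
  set H := Subgroup.centralizer ({y ^ 3} : Set G) with hH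
  have hmem : ∀ g : G, g ∈ H ↔ Commute g (y ^ 3) := fun g => mem_centralizer_singleton' g _
  have hyH : y ∈ H := (hmem y).2 ((Commute.refl y).pow_right 3)
  have hvH : v ∈ H := (hmem v).2 hv.cube.symm
  have hwH : w ∈ H := (hmem w).2 hw.cube.symm
  have hzH : z ∈ H := (hmem z).2 (hz.cen _).symm
  have hyi : Is3 (⟨y, hyH⟩ : H) := by
    obtain ⟨k, hk⟩ := hy
    exact ⟨k, by rw [Subgroup.orderOf_mk, hk]⟩
  have h1 := claimA_aux (hz := hz.subgroup' H hzH) (h.subgroup H) (finOrder_subgroup ht H)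
    (fun g p hp hpd => h23 (g : G) p hp (by rw [Subgroup.orderOf_coe]; exact hpd)) hyi
    (fun g => Subtype.ext ((hmem g).1 g.2).eq)
    (v := ⟨v, hvH⟩) (w := ⟨w, hwH⟩)
    ⟨Subtype.ext hv.sqz, Subtype.ext hv.mul, Subtype.ext hv.cube.eq⟩
    ⟨Subtype.ext hw.sqz, Subtype.ext hw.mul, Subtype.ext hw.cube.eq⟩
  have h2 : Subgroup.closure ({v, y * v * y⁻¹} : Set G) =
      (Subgroup.closure ({(⟨v, hvH⟩ : H), ⟨y, hyH⟩ * ⟨v, hvH⟩ * (⟨y, hyH⟩ : H)⁻¹} : Set H)).map
        H.subtype := by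
    rw [map_closure_pair]; rfl
  rw [h2]
  exact ⟨_, h1, rfl⟩

end

end Pool.Agent.Lib.MP_544a1b_al
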