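import Pool.Agent.Lib.MP_544a1b_al.Hall

/-! Periodic two-groups. -/

set_option autoImplicit false

universe u

namespace Pool.Agent.Lib.MP_544a1b_al

open Subgroup
open scoped commutatorElement

theorem exists_index_p {P : Type*} [Group P] [Finite P] {p : ℕ} [hpp : Fact p.Prime]
    (hp : IsPGroup p P) (S : Subgroup P) (hS : S ≠ ⊤) :
    ∃ A : Subgroup P, S ≤ A ∧ A.Normal ∧ A ≠ ⊤ := by
  obtain ⟨n, hn⟩ := (IsPGroup.iff_card.1 hp)
  obtain ⟨m, hm⟩ := IsPGroup.iff_card.1 (hp.to_subgroup S)
  have hmn : m < n := by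
    have h1 : Nat.card S < Nat.card P := by
      apply lt_of_le_of_ne (Subgroup.card_le_card_group _)
      intro h2
      exact hS ((Subgroup.card_eq_iff_eq_top _).1 h2)
    rw [hm, hn] at h1
    exact (Nat.pow_lt_pow_iff_right hpp.out.one_lt).1 h1
  obtain ⟨k, rfl⟩ : ∃ k, n = k + 1 := ⟨n - 1, by omega⟩
  obtain ⟨A, hA, hxA⟩ := Sylow.exists_subgroup_card_pow_prime_le p
    (by rw [hn]; exact pow_dvd_pow p (Nat.le_succ k) : p ^ k ∣ Nat.card P) S hm (by omega)
  have hidx : A.index = p := by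
    have h1 := A.card_mul_index
    rw [hA, hn, pow_succ] at h1
    exact Nat.eq_of_mul_eq_mul_left (pow_pos hpp.out.pos k) h1
  refine ⟨A, hxA, ?_, ?_⟩
  · apply Subgroup.normal_of_index_eq_minFac_card
    rw [hidx, hn, hpp.out.pow_minFac (Nat.succ_ne_zero k)]
  · intro hcon
    rw [hcon, Subgroup.index_top] at hidx
    exact hpp.out.one_lt.ne hidx

theorem exists_four {G : Type*} [Group G] {u : G} {t : ℕ} (hu : orderOf u = 2 ^ t)
    (hu2 : u ^ 2 ≠ 1) : ∃ n : ℕ, orderOf (u ^ n) = 4 := by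
  have h2 : 2 ≤ t := by
    by_contra hlt
    apply hu2
    apply orderOf_dvd_iff_pow_eq_one.1
    rw [hu]
    exact (pow_dvd_pow 2 (by omega : t ≤ 1)).trans (by norm_num)
  obtain ⟨r, rfl⟩ := Nat.exists_eq_add_of_le h2
  refine ⟨2 ^ r, ?_⟩
  rw [orderOf_pow_of_dvd (pow_ne_zero _ (by norm_num)) (by
    rw [hu]; exact pow_dvd_pow 2 (by omega)), hu, pow_add,
    Nat.mul_div_cancel _ (pow_pos (by norm_num) r)]
  norm_num

theorem norm_eight (N : ℕ) : ∀ (P : Type u) [Group P] [Finite P], Nat.card P = N →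
    IsPGroup 2 P → CC P → ∀ a g : P, a ^ 4 ≠ 1 → g * a * g⁻¹ ∈ Subgroup.zpowers a := by
  induction N using Nat.strong_induction_on with
  | _ N IH =>
  intro P _ _ hN hp hcc a g ha
  have : Fact (Nat.Prime 2) := ⟨Nat.prime_two⟩
  by_cases htop : Subgroup.zpowers a = ⊤
  · rw [htop]; exact Subgroup.mem_top _
  obtain ⟨A, haA, hAn, hAt⟩ := exists_index_p hp (Subgroup.zpowers a) htop
  have haA' : a ∈ A := haA (Subgroup.mem_zpowers a)
  have hcard : Nat.card A < N := by
    rw [← hN]
    apply lt_of_le_of_ne (Subgroup.card_le_card_group A)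
    intro h2
    exact hAt ((Subgroup.card_eq_iff_eq_top A).1 h2)
  have hIH : ∀ b ∈ A, ∀ k ∈ A, b ^ 4 ≠ 1 → k * b * k⁻¹ ∈ Subgroup.zpowers b := by
    intro b hb k hk hb4
    have h1 := IH _ hcard A rfl (hp.to_subgroup A) (hcc.subgroup A) ⟨b, hb⟩ ⟨k, hk⟩ (by
      intro h2
      exact hb4 (congrArg Subtype.val h2))
    obtain ⟨j, hj⟩ := h1
    refine ⟨j, ?_⟩
    have := congrArg Subtype.val hj
    simpa using this
  by_cases hgA : g ∈ A
  · exact hIH a haA' g hgA ha
  set a' := g * a * g⁻¹ with ha'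
  have ha'A : a' ∈ A := hAn.conj_mem a haA' g
  have ha'4 : a' ^ 4 ≠ 1 := by
    intro h1
    apply ha
    rw [ha', conj_pow] at h1
    have h2 : a ^ 4 = g⁻¹ * (g * a ^ 4 * g⁻¹) * g := by group
    rw [h2, h1]; group
  have h1 : a' * a * a'⁻¹ ∈ Subgroup.zpowers a := hIH a haA' a' ha'A ha
  have h2 : a * a' * a⁻¹ ∈ Subgroup.zpowers a' := hIH a' ha'A a haA' ha'4
  set c := ⁅a, a'⁆ with hc
  have hc1 : c ∈ Subgroup.zpowers a := by
    have h3 : c = a * (a' * a * a'⁻¹)⁻¹ := by
      rw [hc, commutatorElement_def]; group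
    rw [h3]
    exact Subgroup.mul_mem _ (Subgroup.mem_zpowers a) (Subgroup.inv_mem _ h1)
  have hc2 : c ∈ Subgroup.zpowers a' := by
    have h3 : c = (a * a' * a⁻¹) * a'⁻¹ := by rw [hc, commutatorElement_def]
    rw [h3]
    exact Subgroup.mul_mem _ h2 (Subgroup.inv_mem _ (Subgroup.mem_zpowers a'))
  have hca : Commute c a := by
    obtain ⟨j, hj⟩ := hc1
    simp only at hj
    rw [← hj]; exact (Commute.refl a).zpow_left j
  have hca' : Commute c a' := by
    obtain ⟨j, hj⟩ := hc2
    simp only at hj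
    rw [← hj]; exact (Commute.refl a').zpow_left j
  have hex : ∃ i : P, orderOf i = 4 ∧ Commute i a ∧ Commute i a' := by
    by_cases hc2' : c ^ 2 = 1
    · have h3 := commutator_pow_left a a' hca 2
      rw [← hc, hc2'] at h3
      have h4 : Commute (a ^ 2) a' := commutatorElement_eq_one_iff_commute.1 h3
      obtain ⟨t, ht⟩ := IsPGroup.iff_orderOf.1 hp (a ^ 2)
      obtain ⟨n, hn⟩ := exists_four ht (by
        rw [← pow_mul]; exact ha)
      exact ⟨(a ^ 2) ^ n, hn, ((Commute.refl a).pow_left 2).pow_left n, h4.pow_left n⟩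
    · obtain ⟨t, ht⟩ := IsPGroup.iff_orderOf.1 hp c
      obtain ⟨n, hn⟩ := exists_four ht hc2'
      exact ⟨c ^ n, hn, hca.pow_left n, hca'.pow_left n⟩
  obtain ⟨i, hi4, hia, hia'⟩ := hex
  set K := Subgroup.closure ({a, a'} : Set P) with hK
  have hKi : ∀ k ∈ K, Commute k i := by
    intro k hk
    have h3 : K ≤ Subgroup.centralizer ({i} : Set P) := by
      rw [hK, Subgroup.closure_le]
      intro u hu
      rw [SetLike.mem_coe, mem_centralizer_singleton']
      rcases hu with rfl | hu
      · exact hia.symm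
      · rw [Set.mem_singleton_iff] at hu
        rw [hu]; exact hia'.symm
    exact (mem_centralizer_singleton' _ _).1 (h3 hk)
  have hKq : NoQ K := noQ_of_central_four hcc hi4 K hKi
  have h3 := comm_of_isPGroup_aux 2 _ K rfl (hp.to_subgroup K) (hcc.subgroup K) hKq
    ⟨a, Subgroup.subset_closure (by simp)⟩ ⟨a', Subgroup.subset_closure (by simp)⟩
  have h4 : Commute a a' := congrArg Subtype.val h3.eq
  exact hcc.mem_zpowers h4.symm (orderOf_conj' g a) (isOfFinOrder_of_finite a).orderOf_pos.ne'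

theorem RC.subgroup {G : Type u} [Group G] (h : RC G) (H : Subgroup G) : RC H := by
  refine ⟨?_, CC.subgroup h.cc H⟩
  intro x y
  have h1 := h.bs (x : G) (y : G)
  have h2 : Subgroup.closure ({(x : G), (y : G)} : Set G) =
      (Subgroup.closure ({x, y} : Set H)).map H.subtype := by
    rw [map_closure_pair]; rfl
  rw [h2] at h1
  have e := (Subgroup.closure ({x, y} : Set H)).equivMapOfInjective H.subtype
    (Subgroup.subtype_injective H)
  exact Group.isSolvable_of_isSolvable_injective (f := e.toMonoidHom) e.injective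

theorem finOrder_subgroup {G : Type*} [Group G] (ht : ∀ g : G, IsOfFinOrder g)
    (H : Subgroup G) (g : H) : IsOfFinOrder g := by
  rw [isOfFinOrder_iff_pow_eq_one]
  obtain ⟨m, hm, hg⟩ := isOfFinOrder_iff_pow_eq_one.1 (ht (g : G))
  exact ⟨m, hm, Subtype.ext (by simpa using hg)⟩

theorem dl_of_noQ {G : Type u} [Group G] (h : RC G) (hq : NoQ G) : derivedSeries G 2 = ⊥ :=
  derivedSeries_two_eq_bot (fun x y z w => h.metabelian hq x y z w)

/-- A periodic two-group whose two-generator subgroups are finite and in which commuting elements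
generate cyclic subgroups is soluble. -/
theorem solvable_two {G : Type u} [Group G] (h : RC G)
    (h2 : ∀ g : G, ∃ k : ℕ, orderOf g = 2 ^ k) : derivedSeries G 3 = ⊥ := by
  have ht : ∀ g : G, IsOfFinOrder g := by
    intro g
    obtain ⟨k, hk⟩ := h2 g
    rw [← orderOf_pos_iff, hk]
    exact pow_pos (by norm_num) k
  by_cases hq : NoQ G
  · exact dl_mono (by norm_num) (dl_of_noQ h hq)
  obtain ⟨x, y, hQ⟩ := not_noQ_iff.1 hq
  have hz := hQ.ui h ht
  set z := x ^ 2 with hzdef
  by_cases h8 : ∃ a : G, a ^ 4 ≠ 1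
  · obtain ⟨a, ha⟩ := h8
    have hn : ∀ g, g * a * g⁻¹ ∈ Subgroup.zpowers a := by
      intro g
      set M := Subgroup.closure ({a, g} : Set G) with hM
      have hf : Finite M := finite_closure_pair h ht a g
      have haM : a ∈ M := Subgroup.subset_closure (by simp)
      have hgM : g ∈ M := Subgroup.subset_closure (by simp)
      have hp : IsPGroup 2 M := by
        rw [IsPGroup.iff_orderOf]
        intro m
        obtain ⟨k, hk⟩ := h2 (m : G)
        exact ⟨k, by rw [← hk, Subgroup.orderOf_coe]⟩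
      have h1 := norm_eight _ M rfl hp (CC.subgroup h.cc M) ⟨a, haM⟩ ⟨g, hgM⟩ (by
        intro h3
        exact ha (congrArg Subtype.val h3))
      obtain ⟨j, hj⟩ := h1
      refine ⟨j, ?_⟩
      have := congrArg Subtype.val hj
      simpa using this
    set C := Subgroup.centralizer ({a} : Set G) with hC
    obtain ⟨t, hta⟩ := h2 a
    obtain ⟨n, hn4⟩ := exists_four hta (by
      intro h3
      apply ha
      have : a ^ 4 = (a ^ 2) ^ 2 := by rw [← pow_mul]
      rw [this, h3, one_pow])
    have hCq : NoQ C := noQ_of_central_four h.cc hn4 C (fun w hw =>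
      ((mem_centralizer_singleton' w a).1 hw).pow_right n)
    apply dl_of_commutator C (dl_of_noQ (h.subgroup C) hCq)
    intro g k
    rw [hC, mem_centralizer_singleton']
    exact comm_act (ht a) (hn g) (hn k)
  · push Not at h8
    have hsq : ∀ a : G, a ^ 2 ∈ Subgroup.zpowers z := by
      intro a
      have h1 : (a ^ 2) ^ 2 = 1 := by rw [← pow_mul]; exact h8 a
      rcases hz.uni _ h1 with h3 | h3
      · rw [h3]; exact Subgroup.one_mem _
      · rw [h3]; exact Subgroup.mem_zpowers z
    have hZn : (Subgroup.zpowers z).Normal := by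
      constructor
      intro n hn g
      obtain ⟨j, rfl⟩ := hn
      have : Commute g (z ^ j) := (hz.cen g).zpow_right j
      change g * z ^ j * g⁻¹ ∈ _
      rw [this.eq, mul_inv_cancel_right]
      exact Subgroup.zpow_mem _ (Subgroup.mem_zpowers z) j
    have hZs : derivedSeries (Subgroup.zpowers z) 2 = ⊥ := by
      apply derivedSeries_two_eq_bot
      intro a b c d
      generalize ⁅a, b⁆ = u
      generalize ⁅c, d⁆ = w
      obtain ⟨_, i, rfl⟩ := u
      obtain ⟨_, j, rfl⟩ := w
      apply Subtype.ext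
      exact (((Commute.refl z).zpow_left i).zpow_right j).eq
    apply dl_of_commutator (Subgroup.zpowers z) hZs
    intro g k
    have hone : ∀ u : G ⧸ Subgroup.zpowers z, u * u = 1 := by
      intro u
      obtain ⟨u, rfl⟩ := QuotientGroup.mk_surjective u
      rw [← QuotientGroup.mk_mul, QuotientGroup.eq_one_iff, ← sq]
      exact hsq u
    have hcomm : ∀ u v : G ⧸ Subgroup.zpowers z, u * v = v * u := by
      intro u v
      have hi : ∀ w : G ⧸ Subgroup.zpowers z, w⁻¹ = w := fun w =>
        inv_eq_of_mul_eq_one_left (hone w)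
      rw [← hi (u * v), mul_inv_rev, hi, hi]
    rw [← QuotientGroup.eq_one_iff]
    have h3 : ((⁅g, k⁆ : G) : G ⧸ Subgroup.zpowers z) =
        ⁅(g : G ⧸ Subgroup.zpowers z), (k : G ⧸ Subgroup.zpowers z)⁆ :=
      map_commutatorElement (QuotientGroup.mk' (Subgroup.zpowers z)) g k
    rw [h3]
    exact commutatorElement_eq_one_iff_mul_comm.2 (hcomm _ _)

end Pool.Agent.Lib.MP_544a1b_al
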