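import Pool.Agent.Lib.MP_544a1b_al.Rank

/-! Fixed points and products of nilpotent subgroups. -/

set_option autoImplicit false

universe u

namespace Pool.Agent.Lib.MP_544a1b_al

open Subgroup
open scoped commutatorElement

theorem TB.exists_fixed_one {X : Type*} [Group X] (h : TB X) (B : Subgroup X) (hB : B ≠ ⊥)
    (g : X) (hg : ∀ b ∈ B, g * b * g⁻¹ ∈ B) : ∃ b ∈ B, b ≠ 1 ∧ Commute b g := by
  classical
  obtain ⟨⟨a, ha⟩, haa⟩ := Subgroup.ne_bot_iff_exists_ne_one.1 hB
  have ha1 : a ≠ 1 := fun h => haa (Subtype.ext h)
  set N := Subgroup.closure ({a, g} : Set X) with hN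
  have haN : a ∈ N := Subgroup.subset_closure (by simp)
  have hgN : g ∈ N := Subgroup.subset_closure (by simp)
  obtain ⟨c, hc⟩ := (isNilpotent_iff_lowerCentralSeries N).1 (h.bn a g)
  let b : ℕ → X := fun k => Nat.rec a (fun _ x => ⁅x, g⁆) k
  have hb0 : b 0 = a := rfl
  have hbs : ∀ k, b (k + 1) = ⁅b k, g⁆ := fun _ => rfl
  have hbB : ∀ k, b k ∈ B := by
    intro k
    induction k with
    | zero => exact ha
    | succ k ih =>
      rw [hbs, commutatorElement_def]
      have h1 := B.mul_mem ih (hg _ (B.inv_mem ih))
      simpa [mul_assoc] using h1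
  have hbL : ∀ k, b k ∈ N.lowerCentralSeries k := by
    intro k
    induction k with
    | zero => exact haN
    | succ k ih =>
      rw [hbs, Subgroup.lowerCentralSeries_succ]
      exact Subgroup.commutator_mem_commutator ih hgN
  have hex : ∃ k, b k = 1 := ⟨c, by
    have := hbL c
    rw [hc, Subgroup.mem_bot] at this
    exact this⟩
  obtain ⟨m, hm1, hm2⟩ : ∃ m, b m ≠ 1 ∧ b (m + 1) = 1 := by
    by_contra hcon
    push Not at hcon
    have hall : ∀ m, b m ≠ 1 := by
      intro m
      induction m with
      | zero => exact ha1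
      | succ m ih => exact hcon m ih
    obtain ⟨k, hk⟩ := hex
    exact hall k hk
  exact ⟨b m, hbB m, hm1, commutatorElement_eq_one_iff_commute.1 hm2⟩

theorem TB.exists_fixed {X : Type*} [Group X] (h : TB X) (A N : Subgroup X) (hAi : Iso A)
    (hA : A ≠ ⊥) (hF : FL A) (hN : Group.IsNilpotent N)
    (hn : ∀ g ∈ N, ∀ a ∈ A, g * a * g⁻¹ ∈ A) : ∃ a ∈ A, a ≠ 1 ∧ ∀ g ∈ N, Commute a g := by
  obtain ⟨B, ⟨hBi, hBA, hB, hBn⟩, hmin⟩ := hF.exists_min
    (fun B => Iso B ∧ B ≤ A ∧ B ≠ ⊥ ∧ ∀ g ∈ N, ∀ b ∈ B, g * b * g⁻¹ ∈ B)
    (fun D hD => ⟨hD.1, hD.2.1⟩) A ⟨hAi, le_rfl, hA, hn⟩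
  have key : ∀ i : ℕ, ∀ g : N, g ∈ Subgroup.upperCentralSeries N i → ∀ b ∈ B, Commute b g := by
    intro i
    induction i with
    | zero =>
      intro g hg b _
      rw [Subgroup.upperCentralSeries_zero, Subgroup.mem_bot] at hg
      rw [hg]
      exact Commute.one_right b
    | succ i ih =>
      intro g hg
      have h1 := hmin (B ⊓ Subgroup.centralizer ({(g : X)} : Set X)) (by
        refine ⟨hBi.inf (h.iso_centralizer _), inf_le_left.trans hBA, ?_, ?_⟩
        · obtain ⟨b, hb, hb1, hbg⟩ := h.exists_fixed_one B hB (g : X) (hBn g g.2)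
          intro hcon
          apply hb1
          rw [← Subgroup.mem_bot, ← hcon]
          refine ⟨hb, ?_⟩
          change b ∈ Subgroup.centralizer ({(g : X)} : Set X)
          rw [Subgroup.mem_centralizer_iff]
          rintro _ rfl
          exact hbg.eq.symm
        · intro k hk b hb
          refine ⟨hBn k hk b hb.1, ?_⟩
          change k * b * k⁻¹ ∈ Subgroup.centralizer ({(g : X)} : Set X)
          have hb2 : Commute b (g : X) :=
            (Subgroup.mem_centralizer_iff.1 hb.2 (g : X) rfl).symm
          have h2 : Commute b ((⁅g⁻¹, (⟨k, hk⟩ : N)⁻¹⁆ : N) : X) :=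
            ih _ (Subgroup.mem_upperCentralSeries_succ_iff.1 (Subgroup.inv_mem _ hg) _) b hb.1
          have h3 : Commute b (k⁻¹ * g * k) := by
            have h4 : k⁻¹ * g * k = g * ((⁅g⁻¹, (⟨k, hk⟩ : N)⁻¹⁆ : N) : X) := by
              have h5 : ((⁅g⁻¹, (⟨k, hk⟩ : N)⁻¹⁆ : N) : X) = (g : X)⁻¹ * k⁻¹ * g * k := by
                simp [commutatorElement_def]
              rw [h5]; group
            rw [h4]
            exact hb2.mul_right h2
          rw [Subgroup.mem_centralizer_iff]
          rintro _ rfl
          have h6 := h3.eq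
          have h7 : (g : X) * (k * b * k⁻¹) = k * ((k⁻¹ * g * k) * b) * k⁻¹ := by group
          have h8 : k * b * k⁻¹ * (g : X) = k * (b * (k⁻¹ * g * k)) * k⁻¹ := by group
          rw [h7, h8, h6]) inf_le_left
      intro b hb
      rw [← h1] at hb
      exact (Subgroup.mem_centralizer_iff.1 hb.2 (g : X) rfl).symm
  obtain ⟨c, hc⟩ := hN.nilpotent
  obtain ⟨⟨b, hb⟩, hbb⟩ := Subgroup.ne_bot_iff_exists_ne_one.1 hB
  refine ⟨b, hBA hb, fun h => hbb (Subtype.ext h), ?_⟩
  intro g hg
  exact key c ⟨g, hg⟩ (by rw [hc]; exact Subgroup.mem_top _) b hb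

theorem TB.nilpotent_of_sup (r : ℕ) : ∀ (X : Type u) [Group X] (_ : TB X) (K N : Subgroup X),
    K.Normal → Iso K → Group.IsNilpotent K → Len K r → Group.IsNilpotent N → K ⊔ N = ⊤ →
    Group.IsNilpotent X := by
  have hbot : ∀ (X : Type u) [Group X] (K N : Subgroup X), K = ⊥ → Group.IsNilpotent N →
      K ⊔ N = ⊤ → Group.IsNilpotent X := by
    intro X _ K N hK hN hKN
    rw [hK, bot_sup_eq] at hKN
    rw [hKN] at hN
    exact Group.isNilpotent_top.1 hN
  induction r with
  | zero =>
    intro X _ h K N hKn hKi hK hL hN hKN
    apply hbot X K N _ hN hKN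
    by_contra hKb
    have h1 := hL (fun i => if i = 0 then ⊥ else K) (by
      intro i j hij
      by_cases hi : i = 0
      · simp [hi]
      · have : j ≠ 0 := by omega
        simp [hi, this]) (by
      intro i
      by_cases hi : i = 0
      · simp only [hi, if_true]; exact h.tf.iso_bot
      · simp only [hi, if_false]; exact hKi) (by
      intro i
      by_cases hi : i = 0
      · simp [hi]
      · simp [hi]) {0} (by
      intro i hi
      rw [Finset.mem_singleton] at hi
      subst hi
      simpa using Ne.symm hKb)
    simp at h1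
  | succ r ih =>
    intro X _ h K N hKn hKi hK hL hN hKN
    by_cases hKb : K = ⊥
    · exact hbot X K N hKb hN hKN
    · have hnt : Nontrivial K := (Subgroup.nontrivial_iff_ne_bot K).2 hKb
      obtain ⟨z, hz, hz1⟩ := exists_center_ne_one K
      have hAn : (K ⊓ Subgroup.centralizer (K : Set X)).Normal := inferInstance
      obtain ⟨a, ha, ha1, haN⟩ := h.exists_fixed (K ⊓ Subgroup.centralizer (K : Set X)) N
        (hKi.inf (h.iso_centralizer _)) (by
          intro hcon
          apply hz1
          apply Subtype.ext
          have h1 : (z : X) ∈ K ⊓ Subgroup.centralizer (K : Set X) := by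
            refine ⟨z.2, ?_⟩
            change (z : X) ∈ Subgroup.centralizer (K : Set X)
            rw [Subgroup.mem_centralizer_iff]
            intro g hg
            exact congrArg Subtype.val (Subgroup.mem_center_iff.1 hz ⟨g, hg⟩)
          rw [hcon, Subgroup.mem_bot] at h1
          exact h1) (FL.mono ⟨_, hL⟩ inf_le_left) hN
        (fun g _ a ha => hAn.conj_mem a ha g)
      have hac : a ∈ Subgroup.center X := by
        rw [Subgroup.mem_center_iff]
        have h1 : K ⊔ N ≤ Subgroup.centralizer ({a} : Set X) := by
          apply sup_le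
          · intro g hg
            rw [Subgroup.mem_centralizer_iff]
            rintro _ rfl
            exact (Subgroup.mem_centralizer_iff.1 ha.2 g hg).symm
          · intro g hg
            rw [Subgroup.mem_centralizer_iff]
            rintro _ rfl
            exact (haN g hg).eq
        intro g
        have h2 : g ∈ Subgroup.centralizer ({a} : Set X) := h1 (by rw [hKN]; trivial)
        exact (Subgroup.mem_centralizer_iff.1 h2 a rfl).symm
      set K' := K ⊓ Subgroup.center X with hK'
      have hK'n : K'.Normal := inferInstance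
      have hK'i : Iso K' := hKi.inf h.iso_center
      have haK' : a ∈ K' := ⟨ha.1, hac⟩
      set q := QuotientGroup.mk' K' with hq
      have hqs : Function.Surjective q := QuotientGroup.mk'_surjective K'
      have hqk : q.ker = K' := QuotientGroup.ker_mk' K'
      have hcm : (K.map q).comap q = K := by
        rw [Subgroup.comap_map_eq, hqk]
        exact sup_eq_left.2 inf_le_left
      have hX : Group.IsNilpotent (X ⧸ K') := by
        refine ih (X ⧸ K') (h.quotient K' hK'i) (K.map q) (N.map q) (hKn.map q hqs) ?_
          (isNilpotent_map q K hK) ?_ (isNilpotent_map q N hN) ?_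
        · intro x n hn hx
          obtain ⟨x, rfl⟩ := hqs x
          rw [← map_pow] at hx
          have h1 : x ^ n ∈ K := by rw [← hcm]; exact hx
          exact ⟨x, hKi x n hn h1, rfl⟩
        · intro f h1 h2 h3 S hS
          have h4 := hL (fun i => Nat.casesOn i ⊥ (fun i => (f i).comap q)) (by
            intro i j hij
            rcases i with _ | i
            · exact bot_le
            · rcases j with _ | j
              · omega
              · exact Subgroup.comap_mono (h1 (by omega))) (by
            intro i
            rcases i with _ | i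
            · exact h.tf.iso_bot
            · exact (h2 i).comap q) (by
            intro i
            rcases i with _ | i
            · exact bot_le
            · change (f i).comap q ≤ K
              rw [← hcm]
              exact Subgroup.comap_mono (h3 i)) (insert 0 (S.map ⟨Nat.succ, Nat.succ_injective⟩)) (by
            intro i hi
            rw [Finset.mem_insert] at hi
            rcases hi with rfl | hi
            · intro hcon
              have h5 : (f 0).comap q = ⊥ := hcon.symm
              apply ha1
              rw [← Subgroup.mem_bot, ← h5, Subgroup.mem_comap]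
              have h6 : q a = 1 := by
                rw [← MonoidHom.mem_ker, hqk]; exact haK'
              rw [h6]; exact Subgroup.one_mem _
            · rw [Finset.mem_map] at hi
              obtain ⟨j, hj, rfl⟩ := hi
              intro hcon
              exact hS j hj (Subgroup.comap_injective hqs hcon))
          rw [Finset.card_insert_of_notMem (by simp), Finset.card_map] at h4
          omega
        · rw [← Subgroup.map_sup, hKN, ← MonoidHom.range_eq_map, MonoidHom.range_eq_top.2 hqs]
      apply Subgroup.isNilpotent_of_ker_le_center q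
      rw [hqk]
      exact inf_le_right

end Pool.Agent.Lib.MP_544a1b_al
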